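import Pool.Agent.Helper70.PQS.Static

/-!
# Good configurations
-/

namespace Pool.Agent.Helper70.PQS

/-- `l` avoids 231 -/
def Av (l : List ℕ) : Prop := ∀ a b c, [b, c, a].Sublist l → a < b → b < c → False

/-- `X | W | Y` can be divided (with first block `X`, last block `Y`) so that reversing the
blocks gives a 231-avoiding list -/
def GoodC (X W Y : List ℕ) : Prop :=
  ∃ Bs : List (List ℕ), Bs.flatten = W ∧
    Av (X.reverse ++ ((Bs.map List.reverse).flatten ++ Y.reverse))

theorem Av.sub {l l' : List ℕ} (h : Av l) (hs : l'.Sublist l) : Av l' :=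
  fun a b c h1 h2 h3 => h a b c (h1.trans hs) h2 h3

theorem av_join {l1 l2 : List ℕ} {N : ℕ} (h1 : Av l1) (h2 : Av l2)
    (h12 : ∀ a ∈ l1, ∀ b ∈ l2, a < b) (hN1 : ∀ a ∈ l1, a < N) (hN2 : ∀ a ∈ l2, a < N) :
    Av (l1 ++ N :: l2) := by
  intro a b c hs hab hbc
  obtain ⟨s1, s2, hss, hs1, hs2⟩ := List.sublist_append_iff.1 hs
  match s1, hss with
  | [], hss =>
    rw [List.nil_append] at hss
    rw [← hss] at hs2
    have hca : [c, a].Sublist l2 := by
      have := (List.sublist_cons_self b [c, a]).trans hs2
      rcases List.sublist_cons_iff.1 this with h | ⟨r, hr, h⟩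
      · exact h
      · -- c = N: then b would precede N
        exfalso
        rcases List.sublist_cons_iff.1 hs2 with h' | ⟨r', hr', h'⟩
        · have : c ∈ l2 := h'.subset (by simp)
          have hcN : c = N := (List.cons.inj hr).1
          have := hN2 c this
          omega
        · have hr'' := (List.cons.inj hr').2
          rw [← hr''] at h'
          have : c ∈ l2 := h'.subset (by simp)
          have hcN : c = N := (List.cons.inj hr).1
          have := hN2 c this
          omega
    rcases List.sublist_cons_iff.1 hs2 with h | ⟨r, hr, h⟩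
    · exact h2 a b c h hab hbc
    · have hb : b = N := (List.cons.inj hr).1
      have : c ∈ l2 := hca.subset (by simp)
      have := hN2 c this
      omega
  | [x], hss =>
    have hx := (List.cons.inj hss).1
    have hr : [c, a] = s2 := (List.cons.inj hss).2
    subst hx
    rw [← hr] at hs2
    have hb : b ∈ l1 := hs1.subset (by simp)
    have ha : a ∈ N :: l2 := hs2.subset (by simp)
    rcases List.mem_cons.1 ha with h | h
    · have := hN1 b hb
      omega
    · have := h12 b hb a h
      omega
  | [x, y], hss =>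
    have hx := (List.cons.inj hss).1
    have hr : [a] = s2 := (List.cons.inj (List.cons.inj hss).2).2
    subst hx
    rw [← hr] at hs2
    have hb : b ∈ l1 := hs1.subset (by simp)
    have ha : a ∈ N :: l2 := hs2.subset (by simp)
    rcases List.mem_cons.1 ha with h | h
    · have := hN1 b hb
      omega
    · have := h12 b hb a h
      omega
  | x :: y :: z :: r, hss =>
    have h3 := List.cons.inj (List.cons.inj (List.cons.inj hss).2).2
    have hr : r = [] := by
      have := h3.2.symm
      exact (List.append_eq_nil_iff.1 this).1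
    have e1 := (List.cons.inj hss).1
    have e2 := (List.cons.inj (List.cons.inj hss).2).1
    have e3 := h3.1
    subst e1 e2 e3 hr
    exact h1 a b c hs1 hab hbc

theorem goodC_nil : GoodC [] [] [] := by
  refine ⟨[], rfl, ?_⟩
  intro a b c h
  simp at h

/-- the maximum lies in the first block -/
theorem good_X {X1 X2 W Y : List ℕ} {N : ℕ} (hX2 : Av X2.reverse)
    (hlt : ∀ v ∈ X2, ∀ u ∈ X1 ++ (W ++ Y), v < u) (hN : ∀ v ∈ X1 ++ (X2 ++ (W ++ Y)), v < N)
    (h : GoodC X1 W Y) : GoodC (X1 ++ N :: X2) W Y := by
  obtain ⟨Bs, hB, hA⟩ := h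
  refine ⟨Bs, hB, ?_⟩
  have e : (X1 ++ N :: X2).reverse ++ ((Bs.map List.reverse).flatten ++ Y.reverse) =
      X2.reverse ++ N :: (X1.reverse ++ ((Bs.map List.reverse).flatten ++ Y.reverse)) := by
    simp
  rw [e]
  have hmem : ∀ v ∈ X1.reverse ++ ((Bs.map List.reverse).flatten ++ Y.reverse),
      v ∈ X1 ++ (W ++ Y) := by
    intro v hv
    rw [← hB]
    simp only [List.mem_append, List.mem_reverse, List.mem_flatten, List.mem_map] at hv ⊢
    rcases hv with hv | ⟨l, ⟨l', hl', rfl⟩, hv⟩ | hv
    · exact Or.inl hv
    · exact Or.inr (Or.inl ⟨l', hl', by simpa using hv⟩)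
    · exact Or.inr (Or.inr hv)
  apply av_join hX2 hA
  · intro a ha b hb
    exact hlt a (by simpa using ha) b (hmem b hb)
  · intro a ha
    apply hN
    simp only [List.mem_reverse] at ha
    simp [ha]
  · intro a ha
    apply hN
    have := hmem a ha
    simp only [List.mem_append] at this ⊢
    tauto

/-- the maximum lies in the last block -/
theorem good_Y {X W Y1 Y2 : List ℕ} {N : ℕ} (hY1 : Av Y1.reverse)
    (hlt : ∀ v ∈ X ++ (W ++ Y2), ∀ u ∈ Y1, v < u) (hN : ∀ v ∈ X ++ (W ++ (Y1 ++ Y2)), v < N)
    (h : GoodC X W Y2) : GoodC X W (Y1 ++ N :: Y2) := by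
  obtain ⟨Bs, hB, hA⟩ := h
  refine ⟨Bs, hB, ?_⟩
  have e : X.reverse ++ ((Bs.map List.reverse).flatten ++ (Y1 ++ N :: Y2).reverse) =
      (X.reverse ++ ((Bs.map List.reverse).flatten ++ Y2.reverse)) ++ N :: Y1.reverse := by
    simp
  rw [e]
  have hmem : ∀ v ∈ X.reverse ++ ((Bs.map List.reverse).flatten ++ Y2.reverse),
      v ∈ X ++ (W ++ Y2) := by
    intro v hv
    rw [← hB]
    simp only [List.mem_append, List.mem_reverse, List.mem_flatten, List.mem_map] at hv ⊢
    rcases hv with hv | ⟨l, ⟨l', hl', rfl⟩, hv⟩ | hv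
    · exact Or.inl hv
    · exact Or.inr (Or.inl ⟨l', hl', by simpa using hv⟩)
    · exact Or.inr (Or.inr hv)
  apply av_join hA hY1
  · intro a ha b hb
    exact hlt a (hmem a ha) b (by simpa using hb)
  · intro a ha
    apply hN
    have := hmem a ha
    simp only [List.mem_append] at this ⊢
    tauto
  · intro a ha
    apply hN
    simp only [List.mem_reverse] at ha
    simp [ha]

/-- without straddling inversions a list splits at a threshold -/
theorem split_filter (t : ℕ) : ∀ L : List ℕ, L.Nodup →
    (∀ h l, h ∈ L → l ∈ L → L.idxOf h < L.idxOf l → t ≤ h → t ≤ l) →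
    L.filter (fun v => decide (v < t)) ++ L.filter (fun v => decide (t ≤ v)) = L
  | [], _, _ => by simp
  | a :: L, hn, h => by
    rw [List.nodup_cons] at hn
    have hrec : ∀ h' l, h' ∈ L → l ∈ L → L.idxOf h' < L.idxOf l → t ≤ h' → t ≤ l := by
      intro x y hx hy hxy
      apply h x y (by simp [hx]) (by simp [hy])
      have h1 : a ≠ x := fun h => hn.1 (h ▸ hx)
      have h2 : a ≠ y := fun h => hn.1 (h ▸ hy)
      rw [List.idxOf_cons_ne _ h1, List.idxOf_cons_ne _ h2]
      omega
    have ih := split_filter t L hn.2 hrec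
    by_cases ha : a < t
    · have h1 : ¬ t ≤ a := by omega
      rw [List.filter_cons_of_pos (by simpa using ha), List.filter_cons_of_neg (by simpa using h1),
        List.cons_append, ih]
    · have hall : ∀ v ∈ L, t ≤ v := by
        intro v hv
        apply h a v (by simp) (by simp [hv]) _ (by omega)
        have h1 : a ≠ v := fun h => hn.1 (h ▸ hv)
        rw [List.idxOf_cons_ne _ h1, List.idxOf_cons_self]
        omega
      have e1 : L.filter (fun v => decide (v < t)) = [] := by
        rw [List.filter_eq_nil_iff]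
        intro v hv
        have := hall v hv
        simp; omega
      have e2 : L.filter (fun v => decide (t ≤ v)) = L := by
        rw [List.filter_eq_self]
        intro v hv
        simpa using hall v hv
      rw [List.filter_cons_of_neg (by simpa using ha), List.filter_cons_of_pos (by simpa using ha),
        e1, e2, List.nil_append]

/-- the maximum lies in the middle -/
theorem good_W {X A C Y : List ℕ} {N t : ℕ}
    (hA : A.filter (fun v => decide (v < t)) ++ A.filter (fun v => decide (t ≤ v)) = A)
    (hC : C.filter (fun v => decide (v < t)) ++ C.filter (fun v => decide (t ≤ v)) = C)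
    (hX : ∀ x ∈ X, x < t) (hY : ∀ y ∈ Y, t ≤ y) (hN : ∀ v ∈ X ++ (A ++ (C ++ Y)), v < N)
    (h1 : GoodC X (A.filter (fun v => decide (v < t))) (C.filter (fun v => decide (v < t))))
    (h2 : GoodC (A.filter (fun v => decide (t ≤ v))) (C.filter (fun v => decide (t ≤ v))) Y) :
    GoodC X (A ++ N :: C) Y := by
  have hA1 : ∀ v ∈ A.filter (fun v => decide (v < t)), v ∈ A ∧ v < t := by
    intro v hv; simpa using hv
  have hA2 : ∀ v ∈ A.filter (fun v => decide (t ≤ v)), v ∈ A ∧ t ≤ v := by
    intro v hv; simpa using hv
  have hC1 : ∀ v ∈ C.filter (fun v => decide (v < t)), v ∈ C ∧ v < t := by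
    intro v hv; simpa using hv
  have hC2 : ∀ v ∈ C.filter (fun v => decide (t ≤ v)), v ∈ C ∧ t ≤ v := by
    intro v hv; simpa using hv
  generalize A.filter (fun v => decide (v < t)) = A1 at *
  generalize A.filter (fun v => decide (t ≤ v)) = A2 at *
  generalize C.filter (fun v => decide (v < t)) = C1 at *
  generalize C.filter (fun v => decide (t ≤ v)) = C2 at *
  obtain ⟨B1, hB1, hAv1⟩ := h1
  obtain ⟨B2, hB2, hAv2⟩ := h2
  refine ⟨B1 ++ ((A2 ++ N :: C1) :: B2), ?_, ?_⟩
  · rw [List.flatten_append, List.flatten_cons, hB1, hB2, ← hA, ← hC]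
    simp
  · have e : X.reverse ++ (((B1 ++ ((A2 ++ N :: C1) :: B2)).map List.reverse).flatten ++ Y.reverse) =
        (X.reverse ++ ((B1.map List.reverse).flatten ++ C1.reverse)) ++
          N :: (A2.reverse ++ ((B2.map List.reverse).flatten ++ Y.reverse)) := by
      simp
    rw [e]
    have m1 : ∀ v ∈ X.reverse ++ ((B1.map List.reverse).flatten ++ C1.reverse),
        v ∈ X ++ (A1 ++ C1) := by
      intro v hv
      rw [← hB1]
      simp only [List.mem_append, List.mem_reverse, List.mem_flatten, List.mem_map] at hv ⊢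
      rcases hv with hv | ⟨l, ⟨l', hl', rfl⟩, hv⟩ | hv
      · exact Or.inl hv
      · exact Or.inr (Or.inl ⟨l', hl', by simpa using hv⟩)
      · exact Or.inr (Or.inr hv)
    have m2 : ∀ v ∈ A2.reverse ++ ((B2.map List.reverse).flatten ++ Y.reverse),
        v ∈ A2 ++ (C2 ++ Y) := by
      intro v hv
      rw [← hB2]
      simp only [List.mem_append, List.mem_reverse, List.mem_flatten, List.mem_map] at hv ⊢
      rcases hv with hv | ⟨l, ⟨l', hl', rfl⟩, hv⟩ | hv
      · exact Or.inl hv
      · exact Or.inr (Or.inl ⟨l', hl', by simpa using hv⟩)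
      · exact Or.inr (Or.inr hv)
    have t1 : ∀ v ∈ X ++ (A1 ++ C1), v < t := by
      intro v hv
      simp only [List.mem_append] at hv
      rcases hv with hv | hv | hv
      · exact hX v hv
      · exact (hA1 v hv).2
      · exact (hC1 v hv).2
    have t2 : ∀ v ∈ A2 ++ (C2 ++ Y), t ≤ v := by
      intro v hv
      simp only [List.mem_append] at hv
      rcases hv with hv | hv | hv
      · exact (hA2 v hv).2
      · exact (hC2 v hv).2
      · exact hY v hv
    apply av_join hAv1 hAv2
    · intro a ha b hb
      have := t1 a (m1 a ha)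
      have := t2 b (m2 b hb)
      omega
    · intro a ha
      apply hN
      have := m1 a ha
      simp only [List.mem_append] at this ⊢
      rcases this with h | h | h
      · exact Or.inl h
      · exact Or.inr (Or.inl (hA1 a h).1)
      · exact Or.inr (Or.inr (Or.inl (hC1 a h).1))
    · intro a ha
      apply hN
      have := m2 a ha
      simp only [List.mem_append] at this ⊢
      rcases this with h | h | h
      · exact Or.inr (Or.inl (hA2 a h).1)
      · exact Or.inr (Or.inr (Or.inl (hC2 a h).1))
      · exact Or.inr (Or.inr (Or.inr h))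

end Pool.Agent.Helper70.PQS
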