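import Pool.Agent.Helper70.PQS.ListB

/-!
# Checks on the explicit list
-/

namespace Pool.Agent.Helper70.PQS

open Equiv

/-- some entry is below `b` -/
def fa (b : ℕ) : List ℕ → Bool
  | [] => false
  | a :: r => Nat.blt a b || fa b r

/-- some entry above `b` followed by one below `b` -/
def fc (b : ℕ) : List ℕ → Bool
  | [] => false
  | c :: r => (Nat.blt b c && fa b r) || fc b r

/-- contains 231 -/
def has231 : List ℕ → Bool
  | [] => false
  | b :: r => fc b r || has231 r

/-- all divisions (current block `c` reversed, output so far `pre`) give a 231 -/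
def allBad : List ℕ → List ℕ → List ℕ → Bool
  | [], pre, c => has231 (pre ++ c)
  | a :: l, pre, c => allBad l pre (a :: c) && (has231 (pre ++ c) || allBad l (pre ++ c) [a])

theorem fa_sound (b : ℕ) : ∀ l, fa b l = true → ∃ a ∈ l, a < b
  | [], h => by simp [fa] at h
  | a :: r, h => by
    rw [fa, Bool.or_eq_true, Nat.blt_eq] at h
    rcases h with h | h
    · exact ⟨a, by simp, h⟩
    · obtain ⟨x, hx, h⟩ := fa_sound b r h
      exact ⟨x, by simp [hx], h⟩

theorem fc_sound (b : ℕ) : ∀ l, fc b l = true → ∃ c a, [c, a].Sublist l ∧ a < b ∧ b < c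
  | [], h => by simp [fc] at h
  | c :: r, h => by
    rw [fc, Bool.or_eq_true, Bool.and_eq_true, Nat.blt_eq] at h
    rcases h with ⟨h1, h2⟩ | h
    · obtain ⟨a, ha, hab⟩ := fa_sound b r h2
      exact ⟨c, a, (List.singleton_sublist.2 ha).cons_cons c, hab, h1⟩
    · obtain ⟨c', a, h1, h2⟩ := fc_sound b r h
      exact ⟨c', a, h1.trans (List.sublist_cons_self _ _), h2⟩

theorem has231_sound : ∀ l, has231 l = true → ¬ Av l
  | [], h => by simp [has231] at h
  | b :: r, h => by
    rw [has231, Bool.or_eq_true] at h
    rcases h with h | h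
    · obtain ⟨c, a, h1, h2, h3⟩ := fc_sound b r h
      exact fun hA => hA a b c (h1.cons_cons b) h2 h3
    · exact fun hA => has231_sound r h (hA.sub (List.sublist_cons_self _ _))

theorem rev_nil : ∀ Bs : List (List ℕ), Bs.flatten = [] → (Bs.map List.reverse).flatten = []
  | [], _ => rfl
  | B :: Bs, h => by
    rw [List.flatten_cons, List.append_eq_nil_iff] at h
    rw [List.map_cons, List.flatten_cons, h.1, rev_nil Bs h.2]
    rfl

theorem allBad_sound : ∀ (l pre c : List ℕ), allBad l pre c = true →
    ∀ (Bs : List (List ℕ)) (B0 : List ℕ), B0 ++ Bs.flatten = l →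
      ¬ Av (pre ++ ((B0.reverse ++ c) ++ (Bs.map List.reverse).flatten)) := by
  intro l
  induction l with
  | nil =>
    intro pre c h Bs B0 hB hA
    rw [List.append_eq_nil_iff] at hB
    obtain ⟨rfl, hB⟩ := hB
    rw [rev_nil Bs hB] at hA
    rw [allBad] at h
    exact has231_sound _ h (by simpa using hA)
  | cons a l ih =>
    intro pre c h Bs
    rw [allBad, Bool.and_eq_true, Bool.or_eq_true] at h
    obtain ⟨h1, h2⟩ := h
    induction Bs with
    | nil =>
      intro B0 hB hA
      cases B0 with
      | nil => simp at hB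
      | cons b B0 =>
        have hb : b = a := (List.cons.inj hB).1
        have hl := (List.cons.inj hB).2
        subst hb
        refine ih pre (b :: c) h1 [] B0 hl ?_
        simpa using hA
    | cons B Bs ihB =>
      intro B0 hB hA
      cases B0 with
      | cons b B0 =>
        have hb : b = a := (List.cons.inj hB).1
        have hl := (List.cons.inj hB).2
        subst hb
        refine ih pre (b :: c) h1 (B :: Bs) B0 hl ?_
        simpa using hA
      | nil =>
        cases B with
        | nil =>
          refine ihB [] (by simpa using hB) ?_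
          simpa using hA
        | cons b B =>
          rw [List.nil_append, List.flatten_cons] at hB
          have hb : b = a := (List.cons.inj hB).1
          have hl := (List.cons.inj hB).2
          subst hb
          have e : pre ++ (([].reverse ++ c) ++ (((b :: B) :: Bs).map List.reverse).flatten) =
              (pre ++ c) ++ ((B.reverse ++ [b]) ++ (Bs.map List.reverse).flatten) := by
            simp
          rw [e] at hA
          rcases h2 with h2 | h2
          · exact has231_sound _ h2 (hA.sub (List.sublist_append_left _ _))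
          · exact ih _ _ h2 Bs B hl hA

theorem not_good_of_allBad {u : List ℕ} (h : allBad u [] [] = true) : ¬ GoodC [] u [] := by
  rintro ⟨Bs, h1, h2⟩
  refine allBad_sound u [] [] h Bs [] (by simpa using h1) ?_
  simpa using h2

/-- sublists of length `k` -/
def subs : ℕ → List ℕ → List (List ℕ)
  | 0, _ => [[]]
  | _ + 1, [] => []
  | k + 1, a :: l => (subs k l).map (fun m => a :: m) ++ subs (k + 1) l

theorem mem_subs : ∀ (l l' : List ℕ), l'.Sublist l → l' ∈ subs l'.length l
  | [], l', h => by
    rw [List.sublist_nil] at h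
    subst h
    simp [subs]
  | a :: l, [], _ => by simp [subs]
  | a :: l, b :: l', h => by
    rw [List.length_cons, subs, List.mem_append]
    rcases List.sublist_cons_iff.1 h with h | ⟨r, hr, h⟩
    · right
      have := mem_subs l (b :: l') h
      rwa [List.length_cons] at this
    · left
      have hb := (List.cons.inj hr).1
      have hr' := (List.cons.inj hr).2
      subst hb hr'
      rw [List.mem_map]
      exact ⟨l', mem_subs l l' h, rfl⟩

/-- the pattern with value order `vo` does not occur in `u` -/
def noOcc (vo u : List ℕ) : Bool := (subs vo.length u).all (fun l => !chain Nat.blt (pick vo l))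

theorem chain_of_pairwise : ∀ l : List ℕ, l.Pairwise (· < ·) → chain Nat.blt l = true
  | [], _ => rfl
  | [a], _ => rfl
  | a :: b :: r, h => by
    rw [List.pairwise_cons] at h
    show (Nat.blt a b && chain Nat.blt (b :: r)) = true
    rw [Bool.and_eq_true, Nat.blt_eq]
    exact ⟨h.1 b (by simp), chain_of_pairwise _ h.2⟩

theorem noOcc_sound {vo u l : List ℕ} (h : noOcc vo u = true) (hl : l.Sublist u)
    (hlen : l.length = vo.length) : ¬ (pick vo l).Pairwise (· < ·) := by
  intro hp
  rw [noOcc, List.all_eq_true] at h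
  have := h l (by rw [← hlen]; exact mem_subs u l hl)
  rw [chain_of_pairwise _ hp] at this
  exact absurd this (by simp)

/-- `vo` and `u` are inverse to each other -/
structure Inv (vo u : List ℕ) : Prop where
  len : vo.length = u.length
  i1 : ∀ r < vo.length, vo.getD r 0 < vo.length ∧ u.getD (vo.getD r 0) 0 = r + 1
  i2 : ∀ i < vo.length, 1 ≤ u.getD i 0 ∧ u.getD i 0 ≤ vo.length ∧
    vo.getD (u.getD i 0 - 1) 0 = i

theorem Inv.oiso_iff {vo u l : List ℕ} (h : Inv vo u) (hl : l.length = vo.length) :
    (pick vo l).Pairwise (· < ·) ↔ OIso u l := by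
  have hpl : (pick vo l).length = vo.length := by simp [pick]
  have hpg : ∀ (r : ℕ) (hr : r < vo.length), (pick vo l)[r]'(by rw [hpl]; exact hr) =
      l.getD (vo.getD r 0) 0 := by
    intro r hr
    simp only [pick, List.getElem_map]
    rw [List.getD_eq_getElem vo 0 hr]
  rw [List.pairwise_iff_getElem]
  constructor
  · intro hp
    have hp' : ∀ r s, r < s → s < vo.length → l.getD (vo.getD r 0) 0 < l.getD (vo.getD s 0) 0 := by
      intro r s hrs hs
      have := hp r s (by omega) (by omega) hrs
      rwa [hpg r (by omega), hpg s hs] at this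
    refine ⟨by rw [hl, h.len], ?_⟩
    intro i j hi hj
    rw [← h.len] at hi hj
    obtain ⟨a1, a2, a3⟩ := h.i2 i hi
    obtain ⟨b1, b2, b3⟩ := h.i2 j hj
    rcases lt_trichotomy (u.getD i 0) (u.getD j 0) with hlt | heq | hgt
    · have := hp' (u.getD i 0 - 1) (u.getD j 0 - 1) (by omega) (by omega)
      rw [a3, b3] at this
      exact ⟨fun _ => this, fun _ => hlt⟩
    · have : i = j := by rw [← a3, ← b3, heq]
      subst this
      simp
    · have := hp' (u.getD j 0 - 1) (u.getD i 0 - 1) (by omega) (by omega)
      rw [a3, b3] at this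
      constructor
      · intro h; omega
      · intro h; omega
  · intro ho r s hr hs hrs
    rw [hpl] at hr hs
    rw [hpg r hr, hpg s hs]
    obtain ⟨a1, a2⟩ := h.i1 r hr
    obtain ⟨b1, b2⟩ := h.i1 s hs
    rw [← ho.2 _ _ (by rw [← h.len]; exact a1) (by rw [← h.len]; exact b1), a2, b2]
    omega

theorem Inv.nodup {vo u : List ℕ} (h : Inv vo u) : u.Nodup := by
  rw [List.nodup_iff_injective_get]
  intro i j hij
  have hi : (i : ℕ) < vo.length := by rw [h.len]; exact i.2
  have hj : (j : ℕ) < vo.length := by rw [h.len]; exact j.2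
  obtain ⟨a1, a2, a3⟩ := h.i2 i hi
  obtain ⟨b1, b2, b3⟩ := h.i2 j hj
  apply Fin.ext
  rw [← a3, ← b3]
  rw [List.getD_eq_getElem _ _ i.2, List.getD_eq_getElem _ _ j.2]
  simp only [List.get_eq_getElem] at hij
  rw [hij]

/-- a list with entries `1, ..., n` is the one-line notation of a permutation -/
theorem exists_perm {vo u : List ℕ} (h : Inv vo u) :
    ∃ σ : Perm (Fin u.length), oneLine σ = u := by
  have hb : ∀ i : Fin u.length, 1 ≤ u.getD i 0 ∧ u.getD i 0 ≤ u.length := by
    intro i
    have := h.i2 i (by rw [h.len]; exact i.2)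
    rw [h.len] at this
    exact ⟨this.1, this.2.1⟩
  let f : Fin u.length → Fin u.length := fun i => ⟨u.getD i 0 - 1, by have := hb i; omega⟩
  have hf : Function.Injective f := by
    intro i j hij
    have h1 : u.getD i 0 - 1 = u.getD j 0 - 1 := by
      have := congrArg Fin.val hij
      exact this
    have h2 := hb i
    have h3 := hb j
    have h4 : u.getD i 0 = u.getD j 0 := by omega
    rw [List.getD_eq_getElem _ _ i.2, List.getD_eq_getElem _ _ j.2] at h4
    have h5 := (List.nodup_iff_injective_get.1 h.nodup) (a₁ := i) (a₂ := j) h4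
    exact h5
  refine ⟨Equiv.ofBijective f (Finite.injective_iff_bijective.1 hf), ?_⟩
  apply List.ext_getElem
  · rw [oneLine_length]
  · intro i h1 h2
    have h3 : (oneLine (Equiv.ofBijective f (Finite.injective_iff_bijective.1 hf))).getD i 0 =
        u.getD i 0 := by
      rw [oneLine_getD _ h2]
      have := hb ⟨i, h2⟩
      show u.getD i 0 - 1 + 1 = u.getD i 0
      simp only at this
      omega
    rwa [List.getD_eq_getElem _ _ h1, List.getD_eq_getElem _ _ h2] at h3

/-! ### the kernel checks -/

theorem LB_len : LB.length = 108 := by decide +kernel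

theorem LB_nodup : (LB.map Prod.snd).Nodup := by decide +kernel

theorem LB_le : ∀ x ∈ LB, x.2.length ≤ 9 := by decide +kernel

theorem LB_inv1 : ∀ x ∈ LB, x.1.length = x.2.length := by decide +kernel

theorem LB_inv2 : ∀ x ∈ LB, ∀ r < x.1.length, x.1.getD r 0 < x.1.length ∧
    x.2.getD (x.1.getD r 0) 0 = r + 1 := by decide +kernel

theorem LB_inv3 : ∀ x ∈ LB, ∀ i < x.1.length, 1 ≤ x.2.getD i 0 ∧ x.2.getD i 0 ≤ x.1.length ∧
    x.1.getD (x.2.getD i 0 - 1) 0 = i := by decide +kernel

theorem LB_inv {x : List ℕ × List ℕ} (hx : x ∈ LB) : Inv x.1 x.2 :=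
  ⟨LB_inv1 x hx, LB_inv2 x hx, LB_inv3 x hx⟩

theorem LB_of_BL : ∀ q ∈ BL, (∀ p ∈ q.ps, p = 1) →
    q.vo.length = q.ps.length ∧ q.vo ∈ LB.map Prod.fst := by decide +kernel

theorem LB_bad : LB.all (fun x => allBad x.2 [] []) = true := by decide +kernel

theorem LB_anti : LB.all (fun x => LB.all (fun y =>
    Nat.ble x.1.length y.1.length || noOcc y.1 x.2)) = true := by decide +kernel

end Pool.Agent.Helper70.PQS
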