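import Pool.Agent.Helper70.PQS.Rows

/-!
# Configurations and occurrences of marked patterns
-/

namespace Pool.Agent.Helper70.PQS

/-- increasing positions in `L` make a sublist of `L` -/
theorem sublist_of_idx : ∀ (L l : List ℕ), (∀ v ∈ l, v ∈ L) →
    l.Pairwise (fun a b => L.idxOf a < L.idxOf b) → l.Sublist L
  | [], l, hm, _ => by
    cases l with
    | nil => exact List.Sublist.refl _
    | cons a l => exact absurd (hm a (by simp)) (by simp)
  | x :: L, [], _, _ => List.nil_sublist _
  | x :: L, a :: l, hm, hp => by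
    rw [List.pairwise_cons] at hp
    obtain ⟨h1, h2⟩ := hp
    by_cases hax : a = x
    · subst hax
      have hne : ∀ b ∈ l, b ≠ a := by
        intro b hb hba
        have := h1 b hb
        rw [hba] at this
        exact absurd this (lt_irrefl _)
      apply List.Sublist.cons_cons
      apply sublist_of_idx L l
      · intro v hv
        rcases List.mem_cons.1 (hm v (by simp [hv])) with h | h
        · exact absurd h (hne v hv)
        · exact h
      · refine List.Pairwise.imp_of_mem ?_ h2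
        intro u v hu hv huv
        rw [List.idxOf_cons_ne _ (hne u hu).symm, List.idxOf_cons_ne _ (hne v hv).symm] at huv
        omega
    · have hne : ∀ b ∈ a :: l, b ≠ x := by
        intro b hb hbx
        rcases List.mem_cons.1 hb with h | h
        · exact hax (h ▸ hbx)
        · have := h1 b h
          rw [hbx, List.idxOf_cons_self] at this
          omega
      apply List.Sublist.cons
      apply sublist_of_idx L (a :: l)
      · intro v hv
        rcases List.mem_cons.1 (hm v hv) with h | h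
        · exact absurd h (hne v hv)
        · exact h
      · have hp : (a :: l).Pairwise (fun a b => (x :: L).idxOf a < (x :: L).idxOf b) :=
          List.pairwise_cons.2 ⟨h1, h2⟩
        refine List.Pairwise.imp_of_mem ?_ hp
        intro u v hu hv huv
        rw [List.idxOf_cons_ne _ (hne u hu).symm, List.idxOf_cons_ne _ (hne v hv).symm] at huv
        omega

theorem pairwise_idx {L : List ℕ} (hn : L.Nodup) :
    L.Pairwise (fun a b => L.idxOf a < L.idxOf b) := by
  rw [List.pairwise_iff_getElem]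
  intro i j hi hj hij
  rw [hn.idxOf_getElem i hi, hn.idxOf_getElem j hj]
  exact hij

theorem pairwise_idx_of_sublist {L l : List ℕ} (hn : L.Nodup) (hl : l.Sublist L) :
    l.Pairwise (fun a b => L.idxOf a < L.idxOf b) :=
  (pairwise_idx hn).sublist hl

theorem idx_lt_of_append {G L1 L2 : List ℕ} (hG : G = L1 ++ L2) (hn : G.Nodup) {a b : ℕ}
    (ha : a ∈ L1) (hb : b ∈ L2) : G.idxOf a < G.idxOf b := by
  subst hG
  rw [List.nodup_append] at hn
  have hb1 : b ∉ L1 := fun h => hn.2.2 b h b hb rfl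
  rw [List.idxOf_append_of_mem ha, List.idxOf_append_of_notMem hb1]
  have := List.idxOf_lt_length_of_mem ha
  omega

/-- occurrence of a pattern in the list `L`, with parts tested by `IZ` -/
structure Occ (IZ : ℕ → ℕ → Prop) (L : List ℕ) (q : Pat) (l : List ℕ) : Prop where
  zs : List.Forall₂ IZ q.ps l
  sub : l.Sublist L
  ord : (pick q.vo l).Pairwise (· < ·)

/-- membership in the parts of `X | W | Y` -/
def part (X W Y : List ℕ) : ℕ → ℕ → Prop
  | 0, v => v ∈ X
  | 1, v => v ∈ W
  | _, v => v ∈ Y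

/-- the marked pattern `q` occurs in `X | W | Y` -/
def BOcc (X W Y : List ℕ) (q : Pat) : Prop :=
  ∃ l, Occ (part X W Y) (X ++ (W ++ Y)) q l

/-- a configuration `X | A N C | Y` -/
structure Cfg where
  /-- first block -/
  X : List ℕ
  /-- before the maximum -/
  A : List ℕ
  /-- the maximum -/
  N : ℕ
  /-- after the maximum -/
  C : List ℕ
  /-- last block -/
  Y : List ℕ

/-- all entries -/
def Cfg.G (c : Cfg) : List ℕ := c.X ++ ((c.A ++ c.N :: c.C) ++ c.Y)

/-- membership in zones -/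
def Cfg.IZ (c : Cfg) : ℕ → ℕ → Prop
  | 0, v => v ∈ c.X
  | 1, v => v ∈ c.A
  | 2, v => v = c.N
  | 3, v => v ∈ c.C
  | 4, v => v ∈ c.Y
  | _, _ => True

/-- position -/
def Cfg.pos (c : Cfg) (v : ℕ) : ℕ := c.G.idxOf v

/-- distinct entries, `N` is the maximum -/
structure Cfg.Ok (c : Cfg) : Prop where
  nd : c.G.Nodup
  mx : ∀ v ∈ c.G, v ≤ c.N

/-- the zone pattern `q` occurs below `T` -/
def Cfg.HOcc (c : Cfg) (T : ℕ) (q : Pat) : Prop :=
  ∃ l, Occ c.IZ c.G q l ∧ ∀ v ∈ l, v < T

theorem Cfg.IZ.mem {c : Cfg} {z v : ℕ} (hz : z < 5) (h : c.IZ z v) : v ∈ c.G := by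
  unfold Cfg.G
  have h5 : z = 0 ∨ z = 1 ∨ z = 2 ∨ z = 3 ∨ z = 4 := by omega
  rcases h5 with rfl | rfl | rfl | rfl | rfl <;> simp only [Cfg.IZ] at h <;> simp [h]

theorem Cfg.IZ.pos_lt {c : Cfg} (ok : c.Ok) {z z' u v : ℕ} (hz : z < z') (hz' : z' < 5)
    (hu : c.IZ z u) (hv : c.IZ z' v) : c.pos u < c.pos v := by
  have hG0 : c.G = c.X ++ ((c.A ++ c.N :: c.C) ++ c.Y) := rfl
  have hG1 : c.G = (c.X ++ c.A) ++ (c.N :: c.C ++ c.Y) := by simp [Cfg.G]
  have hG2 : c.G = (c.X ++ (c.A ++ [c.N])) ++ (c.C ++ c.Y) := by simp [Cfg.G]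
  have hG3 : c.G = (c.X ++ (c.A ++ c.N :: c.C)) ++ c.Y := by simp [Cfg.G]
  have h5 : z = 0 ∨ z = 1 ∨ z = 2 ∨ z = 3 := by omega
  have h5' : z' = 1 ∨ z' = 2 ∨ z' = 3 ∨ z' = 4 := by omega
  unfold Cfg.pos
  rcases h5 with rfl | rfl | rfl | rfl
  · refine idx_lt_of_append hG0 ok.nd hu ?_
    rcases h5' with rfl | rfl | rfl | rfl <;> simp only [Cfg.IZ] at hv <;> simp [hv]
  · have hu' : u ∈ c.A := hu
    refine idx_lt_of_append hG1 ok.nd (by simp [hu']) ?_
    rcases h5' with rfl | rfl | rfl | rfl <;> first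
      | exact absurd hz (by decide)
      | (simp only [Cfg.IZ] at hv; simp [hv])
  · have hu' : u = c.N := hu
    refine idx_lt_of_append hG2 ok.nd (by simp [hu']) ?_
    rcases h5' with rfl | rfl | rfl | rfl <;> first
      | exact absurd hz (by decide)
      | (simp only [Cfg.IZ] at hv; simp [hv])
  · have hu' : u ∈ c.C := hu
    refine idx_lt_of_append hG3 ok.nd (by simp [hu']) ?_
    rcases h5' with rfl | rfl | rfl | rfl <;> first
      | exact absurd hz (by decide)
      | (simp only [Cfg.IZ] at hv; simp [hv])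

theorem Cfg.IZ.disj {c : Cfg} (ok : c.Ok) {z z' v : ℕ} (hz : z < 5) (hz' : z' < 5) (hne : z ≠ z')
    (hu : c.IZ z v) (hv : c.IZ z' v) : False := by
  rcases lt_or_gt_of_ne hne with h | h
  · exact lt_irrefl _ (Cfg.IZ.pos_lt ok h hz' hu hv)
  · exact lt_irrefl _ (Cfg.IZ.pos_lt ok h hz hv hu)

theorem Cfg.IZ.lt_N {c : Cfg} (ok : c.Ok) {z v : ℕ} (hz : z < 5) (hne : z ≠ 2)
    (h : c.IZ z v) : v < c.N := by
  refine lt_of_le_of_ne (ok.mx v (Cfg.IZ.mem hz h)) ?_
  rintro rfl
  exact Cfg.IZ.disj ok hz (by decide : (2 : ℕ) < 5) hne h rfl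

theorem Cfg.pos_inj {c : Cfg} {u v : ℕ} (hu : u ∈ c.G) (h : c.pos u = c.pos v) : u = v :=
  (List.idxOf_inj hu).1 h

/-! ### checks -/

theorem chain_sound {f : ℕ → ℕ → Bool} {R : ℕ → ℕ → Prop} {e : ℕ → ℕ}
    (hf : ∀ a b, f a b = true → R (e a) (e b)) (tr : ∀ a b c, R a b → R b c → R a c) :
    ∀ l : List ℕ, chain f l = true → (l.map e).Pairwise R
  | [], _ => List.Pairwise.nil
  | [a], _ => by simp
  | a :: b :: r, h => by
    have h' : (f a b && chain f (b :: r)) = true := h
    rw [Bool.and_eq_true] at h'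
    have ih := chain_sound hf tr (b :: r) h'.2
    rw [List.map_cons, List.pairwise_cons]
    refine ⟨?_, ih⟩
    rw [List.map_cons, List.pairwise_cons] at ih
    intro x hx
    rw [List.map_cons, List.mem_cons] at hx
    rcases hx with rfl | hx
    · exact hf _ _ h'.1
    · exact tr _ _ _ (hf _ _ h'.1) (ih.1 x hx)

theorem zAll_sound {f : ℕ → ℕ → Bool} {Z : List ℕ} {R : ℕ → ℕ → Prop} {e : ℕ → ℕ}
    (hf : ∀ p a, f p (Z.getD a 9) = true → R p (e a)) :
    ∀ ps as : List ℕ, zAll f Z ps as = true → List.Forall₂ R ps (as.map e)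
  | [], [], _ => List.Forall₂.nil
  | [], a :: as, h => by simp [zAll] at h
  | p :: ps, [], h => by simp [zAll] at h
  | p :: ps, a :: as, h => by
    rw [zAll, Bool.and_eq_true] at h
    exact List.Forall₂.cons (hf p a h.1) (zAll_sound hf ps as h.2)

theorem zAll_length {f : ℕ → ℕ → Bool} {Z : List ℕ} :
    ∀ ps as : List ℕ, zAll f Z ps as = true → ps.length = as.length
  | [], [], _ => rfl
  | [], a :: as, h => by simp [zAll] at h
  | p :: ps, [], h => by simp [zAll] at h
  | p :: ps, a :: as, h => by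
    rw [zAll, Bool.and_eq_true] at h
    simp [zAll_length ps as h.2]

theorem pick_map (e : ℕ → ℕ) (vo as : List ℕ) (h : ∀ k ∈ vo, k < as.length) :
    pick vo (as.map e) = (pick vo as).map e := by
  unfold pick
  rw [List.map_map]
  apply List.map_congr_left
  intro k hk
  have := h k hk
  simp only [Function.comp]
  rw [List.getD_eq_getElem _ _ (by simpa using this), List.getD_eq_getElem _ _ this]
  simp

/-- the positions of a pattern are in range -/
def Pat.Ok (q : Pat) : Prop := ∀ k ∈ q.vo, k < q.ps.length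

end Pool.Agent.Helper70.PQS
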