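import Mathlib

/-!
# The PQS machine and permutation patterns: definitions

A pop stack, a queue and a stack in series.
-/

namespace Pool.Agent.Helper70.PQS

/-- A state of the machine: remaining input (next entry first), pop stack (top first),
queue (front first), stack (top first), output (in the order of output). -/
structure State where
  input : List ℕ
  pop : List ℕ
  queue : List ℕ
  stack : List ℕ
  output : List ℕ

/-- The moves: push the next input entry onto the pop stack; empty the whole pop stack, top
first, into the queue; move the front of the queue onto the stack; pop the stack to the output. -/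
inductive Step : State → State → Prop where
  | push (x : ℕ) (i p q s o : List ℕ) : Step ⟨x :: i, p, q, s, o⟩ ⟨i, x :: p, q, s, o⟩
  | empty (i p q s o : List ℕ) : Step ⟨i, p, q, s, o⟩ ⟨i, [], q ++ p, s, o⟩
  | move (x : ℕ) (i p q s o : List ℕ) : Step ⟨i, p, x :: q, s, o⟩ ⟨i, p, q, x :: s, o⟩
  | out (x : ℕ) (i p q s o : List ℕ) : Step ⟨i, p, q, x :: s, o⟩ ⟨i, p, q, s, o ++ [x]⟩

/-- The one-line notation of a permutation, with values `1, ..., n`. -/
def oneLine {n : ℕ} (π : Equiv.Perm (Fin n)) : List ℕ := List.ofFn (fun i => (π i : ℕ) + 1)

/-- `π` is PQS-sortable: some sequence of moves outputs `1, 2, ..., n`. -/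
def Sortable {n : ℕ} (π : Equiv.Perm (Fin n)) : Prop :=
  Relation.ReflTransGen Step ⟨oneLine π, [], [], [], []⟩ ⟨[], [], [], [], List.range' 1 n⟩

/-- `σ` is a pattern of `π`: some increasing positions of `π` carry entries in the same
relative order as `σ`. -/
def Contains {k n : ℕ} (σ : Equiv.Perm (Fin k)) (π : Equiv.Perm (Fin n)) : Prop :=
  ∃ f : Fin k ↪o Fin n, ∀ i j, σ i < σ j ↔ π (f i) < π (f j)

/-- The basis of the class of PQS-sortable permutations: the permutations that are not sortable
but all of whose proper patterns are. -/
def basis : Set (Σ n, Equiv.Perm (Fin n)) :=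
  {p | ¬ Sortable p.2 ∧
    ∀ q : (Σ k, Equiv.Perm (Fin k)), Contains q.2 p.2 → q ≠ p → Sortable q.2}

end Pool.Agent.Helper70.PQS
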