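import Pool.Agent.Helper70.PQS.Check

/-!
# The basis of the PQS-sortable permutations
-/

namespace Pool.Agent.Helper70.PQS

open Equiv

/-- permutations of the list are not sortable -/
theorem not_sortable_of_mem {n : ℕ} {σ : Perm (Fin n)} {x : List ℕ × List ℕ} (hx : x ∈ LB)
    (h : oneLine σ = x.2) : ¬ Sortable σ := by
  rw [sortable_iff, h]
  have h1 := LB_bad
  rw [List.all_eq_true] at h1
  exact not_good_of_allBad (h1 x hx)

/-- every non-sortable permutation contains one of the list -/
theorem exists_of_not_sortable {n : ℕ} {π : Perm (Fin n)} (h : ¬ Sortable π) :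
    ∃ x ∈ LB, ∃ σ : Perm (Fin x.2.length), oneLine σ = x.2 ∧ Contains σ π := by
  rw [sortable_iff] at h
  have : ∃ q ∈ BL, BOcc [] (oneLine π) [] q := by
    by_contra hcon
    apply h
    apply good_of_avoid _ [] (oneLine π) [] (le_refl _)
    · simpa using oneLine_nodup π
    · exact fun q hq ho => hcon ⟨q, hq, ho⟩
  obtain ⟨q, hq, l, h1, h2, h3⟩ := this
  have hps : ∀ p ∈ q.ps, p = 1 := by
    have : ∀ (ps l : List ℕ), List.Forall₂ (part [] (oneLine π) []) ps l → ∀ p ∈ ps, p = 1 := by
      intro ps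
      induction ps with
      | nil => intro l _ p hp; exact absurd hp (by simp)
      | cons a ps ih =>
        intro l hl p hp
        obtain ⟨v, l', hv, hl', rfl⟩ := List.forall₂_cons_left_iff.1 hl
        rcases List.mem_cons.1 hp with rfl | hp
        · match p, hv with
          | 0, hv => exact absurd (show v ∈ ([] : List ℕ) from hv) (by simp)
          | 1, _ => rfl
          | p + 2, hv => exact absurd (show v ∈ ([] : List ℕ) from hv) (by simp)
        · exact ih l' hl' p hp
    exact this _ _ h1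
  obtain ⟨h4, h5⟩ := LB_of_BL q hq hps
  obtain ⟨x, hx, hxq⟩ := List.mem_map.1 h5
  obtain ⟨σ, hσ⟩ := exists_perm (LB_inv hx)
  refine ⟨x, hx, σ, hσ, ?_⟩
  rw [contains_iff]
  refine ⟨l, by simpa using h2, ?_⟩
  rw [hσ]
  have hl : l.length = x.1.length := by
    rw [hxq, h4]
    exact h1.length_eq.symm
  rw [← (LB_inv hx).oiso_iff hl, hxq]
  exact h3

theorem sigma_eq {p q : Σ n, Perm (Fin n)} (h : oneLine p.2 = oneLine q.2) : p = q := by
  obtain ⟨n, π⟩ := p
  obtain ⟨m, σ⟩ := q
  have hn : n = m := by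
    have := congrArg List.length h
    simpa [oneLine_length] using this
  subst hn
  have : π = σ := by
    ext i
    have h1 : (oneLine π).getD i 0 = (oneLine σ).getD i 0 := by
      simp only at h
      rw [h]
    rw [oneLine_getD π i.2, oneLine_getD σ i.2] at h1
    simpa using h1
  rw [this]

theorem contains_eq {p q : Σ n, Perm (Fin n)} (h : Contains p.2 q.2) (hle : q.1 ≤ p.1) :
    p = q := by
  obtain ⟨n, π⟩ := p
  obtain ⟨m, σ⟩ := q
  have hn : n = m := le_antisymm h.le hle
  subst hn
  have := h.eq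
  simp only at this
  rw [this]

/-- a member of the list contained in a member of the list is equal to it -/
theorem anti {n k : ℕ} {σ : Perm (Fin k)} {π : Perm (Fin n)} {x y : List ℕ × List ℕ}
    (hx : x ∈ LB) (hy : y ∈ LB) (hπ : oneLine π = x.2) (hσ : oneLine σ = y.2)
    (h : Contains σ π) : n ≤ k := by
  by_contra hlt
  have h1 := LB_anti
  rw [List.all_eq_true] at h1
  have h2 := h1 x hx
  rw [List.all_eq_true] at h2
  have h3 := h2 y hy
  have hxl : x.1.length = n := by
    rw [(LB_inv hx).len, ← hπ, oneLine_length]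
  have hyl : y.1.length = k := by
    rw [(LB_inv hy).len, ← hσ, oneLine_length]
  rw [Bool.or_eq_true, Nat.ble_eq, hxl, hyl] at h3
  rcases h3 with h3 | h3
  · exact hlt h3
  · obtain ⟨l, hl, ho⟩ := (contains_iff σ π).1 h
    rw [hπ] at hl
    have hlen : l.length = y.1.length := by
      rw [← ho.1, oneLine_length, hyl]
    rw [hσ, ← (LB_inv hy).oiso_iff hlen] at ho
    exact noOcc_sound h3 hl hlen ho

theorem mem_basis_iff (p : Σ n, Perm (Fin n)) : p ∈ basis ↔ oneLine p.2 ∈ LB.map Prod.snd := by
  constructor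
  · rintro ⟨h1, h2⟩
    obtain ⟨x, hx, σ, hσ, hc⟩ := exists_of_not_sortable h1
    have : (⟨x.2.length, σ⟩ : Σ n, Perm (Fin n)) = p := by
      by_contra hne
      exact not_sortable_of_mem hx hσ (h2 ⟨x.2.length, σ⟩ hc hne)
    rw [← this, hσ]
    exact List.mem_map_of_mem hx
  · intro h
    obtain ⟨x, hx, hxp⟩ := List.mem_map.1 h
    refine ⟨not_sortable_of_mem hx hxp.symm, ?_⟩
    intro q hq hne
    by_contra hns
    obtain ⟨y, hy, σ, hσ, hc⟩ := exists_of_not_sortable hns
    have hle := anti hx hy hxp.symm hσ (hc.trans hq)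
    have h1 := hc.le
    exact hne (contains_eq hq (le_trans hle h1))

theorem basis_ncard : basis.ncard = 108 := by
  have hinj : Function.Injective (fun p : (Σ n, Perm (Fin n)) => oneLine p.2) :=
    fun p q h => sigma_eq h
  rw [← Set.ncard_image_of_injective _ hinj]
  have : (fun p : (Σ n, Perm (Fin n)) => oneLine p.2) '' basis =
      ((LB.map Prod.snd).toFinset : Set (List ℕ)) := by
    ext u
    rw [Set.mem_image, Finset.mem_coe, List.mem_toFinset]
    constructor
    · rintro ⟨p, hp, rfl⟩
      exact (mem_basis_iff p).1 hp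
    · intro hu
      obtain ⟨x, hx, rfl⟩ := List.mem_map.1 hu
      obtain ⟨σ, hσ⟩ := exists_perm (LB_inv hx)
      refine ⟨⟨x.2.length, σ⟩, ?_, hσ⟩
      rw [mem_basis_iff, hσ]
      exact hu
  rw [this, Set.ncard_coe_finset, List.toFinset_card_of_nodup LB_nodup, List.length_map, LB_len]

theorem basis_le (p : Σ n, Perm (Fin n)) (hp : p ∈ basis) : p.1 ≤ 9 := by
  rw [mem_basis_iff] at hp
  obtain ⟨x, hx, hxp⟩ := List.mem_map.1 hp
  have := LB_le x hx
  rw [hxp, oneLine_length] at this
  exact this

theorem sortable_iff_avoids {n : ℕ} (π : Perm (Fin n)) :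
    Sortable π ↔ ∀ p ∈ basis, ¬ Contains p.2 π := by
  constructor
  · intro h p hp hc
    exact hp.1 (sortable_of_contains hc h)
  · intro h
    by_contra hns
    obtain ⟨x, hx, σ, hσ, hc⟩ := exists_of_not_sortable hns
    refine h ⟨x.2.length, σ⟩ ?_ hc
    rw [mem_basis_iff, hσ]
    exact List.mem_map_of_mem hx

end Pool.Agent.Helper70.PQS
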