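import Pool.Agent.Helper70.PQS.Sound2

/-!
# The initial states and the list of all high types
-/

namespace Pool.Agent.Helper70.PQS

/-- static conditions on zone patterns -/
structure Pat.Good (q : Pat) : Prop where
  ok : q.Ok
  z : ∀ p ∈ q.ps, p < 5 ∧ p ≠ 2
  full : ∀ k < q.ps.length, k ∈ q.vo
  ne : q.ps ≠ []

theorem addVs_sat {c : Cfg} {T : ℕ} {e : ℕ → ℕ} : ∀ (as : List ℕ) (s : St), Sat c T e s →
    (as.map e).Pairwise (· < ·) → Sat c T e (addVs as s)
  | [], s, h, _ => h
  | [a], s, h, _ => h
  | a :: b :: r, s, h, hp => by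
    have hp' := hp
    rw [List.map_cons, List.map_cons, List.pairwise_cons] at hp'
    have h1 : e a < e b := hp'.1 (e b) (by simp)
    exact addVs_sat (b :: r) _ (h.lt h1) (by rw [List.map_cons]; exact hp'.2)

theorem addPs_sat {c : Cfg} {T : ℕ} {e : ℕ → ℕ} : ∀ (as : List ℕ) (s : St), Sat c T e s →
    (as.map e).Pairwise (fun a b => c.pos a < c.pos b) → Sat c T e (addPs as s)
  | [], s, h, _ => h
  | [a], s, h, _ => h
  | a :: b :: r, s, h, hp => by
    have hp' := hp
    rw [List.map_cons, List.map_cons, List.pairwise_cons] at hp'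
    have h1 : c.pos (e a) < c.pos (e b) := hp'.1 (e b) (by simp)
    have h2 : ((b :: r).map e).Pairwise (fun a b => c.pos a < c.pos b) := by
      rw [List.map_cons]; exact hp'.2
    show Sat c T e (addPs (b :: r) (bif Nat.beq (s.Z.getD a 9) (s.Z.getD b 9) then s.bf a b else s))
    cases Nat.beq (s.Z.getD a 9) (s.Z.getD b 9) with
    | true => exact addPs_sat (b :: r) _ (h.bf h1) h2
    | false => exact addPs_sat (b :: r) _ h h2

theorem map_range_getD (N : ℕ) (l : List ℕ) :
    (List.range' 1 l.length).map (fun i => (N :: l).getD i 0) = l := by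
  apply List.ext_getElem
  · simp
  · intro i h1 h2
    rw [List.getElem_map, List.getElem_range']
    have : 1 + 1 * i = i + 1 := by omega
    rw [this, List.getD_cons_succ, List.getD_eq_getElem _ _ h2]

theorem init_sat {c : Cfg} (ok : c.Ok) {T : ℕ} {q : Pat} (hq : q.Good) {l : List ℕ}
    (ho : Occ c.IZ c.G q l) (hT : l.getD (q.vo.getLastD 0) 0 = T) :
    Sat c T (fun i => (c.N :: l).getD i 0) (initSt q) := by
  have hlen : q.ps.length = l.length := ho.zs.length_eq
  unfold initSt
  apply addVs_sat
  · apply addPs_sat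
    · refine ⟨?_, ?_, ?_, ?_, ?_, fun h => absurd h (by simp)⟩
      · intro i
        cases i with
        | zero => rfl
        | succ i =>
          show c.IZ ((2 :: q.ps).getD (i + 1) 9) ((c.N :: l).getD (i + 1) 0)
          rw [List.getD_cons_succ, List.getD_cons_succ]
          by_cases hi : i < q.ps.length
          · rw [List.getD_eq_getElem _ _ hi, List.getD_eq_getElem _ _ (hlen ▸ hi)]
            exact (List.forall₂_iff_get.1 ho.zs).2 i hi (hlen ▸ hi)
          · rw [List.getD_eq_default _ _ (by omega)]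
            trivial
      · intro a b hab
        cases a with
        | zero =>
          replace hab : has (0 :: q.ps.map (fun _ => 1)) 0 b = true := hab
          rw [has_cons_zero, bt_zero] at hab
          exact absurd hab (by simp)
        | succ a =>
          replace hab : has (0 :: q.ps.map (fun _ => 1)) (a + 1) b = true := hab
          rw [has_cons_succ] at hab
          obtain ⟨ha, hb⟩ := has_map_const _ _ _ hab
          rw [bt_one] at hb
          subst hb
          show (c.N :: l).getD (a + 1) 0 < (c.N :: l).getD 0 0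
          rw [List.getD_cons_succ, List.getD_cons_zero, List.getD_eq_getElem _ _ (hlen ▸ ha)]
          have hz := hq.z _ (List.getElem_mem ha)
          exact Cfg.IZ.lt_N ok hz.1 hz.2 ((List.forall₂_iff_get.1 ho.zs).2 a ha (hlen ▸ ha))
      · intro a b hab
        cases a with
        | zero =>
          replace hab : has (0 :: q.ps.map (fun _ => 0)) 0 b = true := hab
          rw [has_cons_zero, bt_zero] at hab
          exact absurd hab (by simp)
        | succ a =>
          replace hab : has (0 :: q.ps.map (fun _ => 0)) (a + 1) b = true := hab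
          rw [has_cons_succ] at hab
          obtain ⟨ha, hb⟩ := has_map_const _ _ _ hab
          rw [bt_zero] at hb
          exact absurd hb (by simp)
      · show c.ChainOk T [(c.N :: l).getD (q.vo.getLastD 0 + 1) 0]
        rw [List.getD_cons_succ, hT]
        exact ⟨le_refl _, by simp, trivial⟩
      · show (c.N :: l).getD (q.vo.getLastD 0 + 1) 0 = T
        rw [List.getD_cons_succ, hT]
    · rw [hlen, map_range_getD]
      exact pairwise_idx_of_sublist ok.nd ho.sub
  · rw [List.map_map]
    have : (q.vo.map ((fun i => (c.N :: l).getD i 0) ∘ fun x => x + 1)) = pick q.vo l := by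
      unfold pick
      apply List.map_congr_left
      intro k _
      simp
    rw [this]
    exact ho.ord

theorem getLastD_mem : ∀ (l : List ℕ) (d : ℕ), l ≠ [] → l.getLastD d ∈ l
  | [], _, h => absurd rfl h
  | [a], d, _ => by simp
  | a :: b :: r, d, _ => by
    have := getLastD_mem (b :: r) a (by simp)
    rw [List.getLastD_cons]
    exact List.mem_cons_of_mem _ this

/-- in an increasing list the last entry is the largest -/
theorem le_getLastD : ∀ (l : List ℕ) (d : ℕ), l.Pairwise (· < ·) → ∀ v ∈ l, v ≤ l.getLastD d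
  | [], _, _, v, hv => absurd hv (by simp)
  | [a], d, _, v, hv => by
    rw [List.mem_singleton] at hv
    simp [hv]
  | a :: b :: r, d, hp, v, hv => by
    rw [List.pairwise_cons] at hp
    rw [List.getLastD_cons]
    rcases List.mem_cons.1 hv with rfl | hv
    · exact le_of_lt (hp.1 _ (getLastD_mem (b :: r) v (by simp)))
    · exact le_getLastD (b :: r) a hp.2 v hv

theorem getLastD_map (f : ℕ → ℕ) : ∀ (l : List ℕ) (d d' : ℕ), l ≠ [] →
    (l.map f).getLastD d' = f (l.getLastD d)
  | [], _, _, h => absurd rfl h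
  | [a], d, d', _ => by simp
  | a :: b :: r, d, d', _ => by
    have := getLastD_map f (b :: r) a (f a) (by simp)
    rw [List.map_cons, List.getLastD_cons, List.getLastD_cons]
    exact this

theorem last_eq {c : Cfg} {T : ℕ} {q : Pat} (hq : q.Good) {l : List ℕ}
    (ho : Occ c.IZ c.G q l) (hl : ∀ v ∈ l, v < T + 1) (hn : ¬ c.HOcc T q) :
    l.getD (q.vo.getLastD 0) 0 = T := by
  have hlen : q.ps.length = l.length := ho.zs.length_eq
  have h1 : ∃ v ∈ l, v = T := by
    by_contra hc
    apply hn
    refine ⟨l, ho, ?_⟩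
    intro v hv
    have := hl v hv
    have h2 : v ≠ T := fun h => hc ⟨v, hv, h⟩
    omega
  obtain ⟨v, hv, rfl⟩ := h1
  obtain ⟨k, hk, hkv⟩ := List.mem_iff_getElem.1 hv
  have hkvo := hq.full k (hlen ▸ hk)
  have hne : q.vo ≠ [] := List.ne_nil_of_mem hkvo
  have hlast := getLastD_mem q.vo 0 hne
  have hlt := hq.ok _ hlast
  have h3 : l.getD (q.vo.getLastD 0) 0 ∈ l := by
    rw [List.getD_eq_getElem _ _ (hlen ▸ hlt)]
    exact List.getElem_mem _
  have h4 := hl _ h3
  have h5 : v ∈ pick q.vo l := by
    unfold pick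
    rw [List.mem_map]
    exact ⟨k, hkvo, by rw [List.getD_eq_getElem _ _ hk]; exact hkv⟩
  have h6 := le_getLastD _ 0 ho.ord v h5
  have h7 : (pick q.vo l).getLastD 0 = l.getD (q.vo.getLastD 0) 0 := by
    unfold pick
    exact getLastD_map _ _ _ _ hne
  rw [h7] at h6
  omega

theorem goAll_sound {c : Cfg} (ok : c.Ok) {T : ℕ} {BL HL : List Pat}
    (hBo : ∀ q ∈ BL, q.Ok) (hHo : ∀ q ∈ HL, q.Good)
    (hb : ∀ q ∈ BL, ¬ BOcc c.X (c.A ++ c.N :: c.C) c.Y q)
    (hh : ∀ q ∈ HL, ¬ c.HOcc T q)
    (hc : ∀ t ≤ T, c.Cover t) :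
    ∀ (qs pre : List Pat) (ts : List Tr), HL = pre ++ qs →
      (∀ q ∈ pre, ¬ c.HOcc (T + 1) q) →
      goAll BL HL pre.length qs ts = true → ∀ q ∈ qs, ¬ c.HOcc (T + 1) q
  | [], _, _, _, _, _ => by simp
  | q :: qs, pre, [], _, _, hg => by simp [goAll] at hg
  | q :: qs, pre, t :: ts, hpre, he, hg => by
    rw [goAll, Bool.and_eq_true] at hg
    have hqH : q ∈ HL := by rw [hpre]; simp
    have hq : ¬ c.HOcc (T + 1) q := by
      rintro ⟨l, ho, hl⟩
      have hT := last_eq (hHo q hqH) ho hl (hh q hqH)
      refine go_sound ok hBo (fun q hq => ⟨(hHo q hq).ok, fun p hp => ((hHo q hq).z p hp).1⟩)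
        hb hh ?_ hc t _ _ (init_sat ok (hHo q hqH) ho hT) hg.1
      intro i hi q' hq'
      rw [hpre, Option.mem_def, List.getElem?_append_left hi] at hq'
      exact he q' (List.mem_of_getElem? hq')
    have hrest := goAll_sound ok hBo hHo hb hh hc qs (pre ++ [q]) ts (by rw [hpre]; simp)
      (by
        intro q' hq'
        rcases List.mem_append.1 hq' with h | h
        · exact he q' h
        · rw [List.mem_singleton] at h; rw [h]; exact hq)
      (by rw [List.length_append, List.length_singleton]; exact hg.2)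
    intro q' hq'
    rcases List.mem_cons.1 hq' with rfl | h
    · exact hq
    · exact hrest q' h

/-- low types: a single check without thresholds -/
theorem low_sound {c : Cfg} (ok : c.Ok) {BL : List Pat} {q : Pat} {t : Tr}
    (hBo : ∀ q ∈ BL, q.Ok) (hq : q.Good)
    (hb : ∀ q ∈ BL, ¬ BOcc c.X (c.A ++ c.N :: c.C) c.Y q) {l : List ℕ}
    (ho : Occ c.IZ c.G q l) {i d : ℕ} (ht : t = .b i d) {k : ℕ} (hg : go BL [] k t (initSt q) = true) :
    False := by
  subst ht
  have hs := init_sat ok hq ho rfl
  rw [go] at hg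
  split at hg
  · exact absurd hg (by simp)
  · next q r hd =>
    have hq : q ∈ BL := List.mem_of_mem_drop (i := i) (by rw [hd]; simp)
    exact hb q hq (chkB_sound ok hs (hBo q hq) hg)

end Pool.Agent.Helper70.PQS
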