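import Pool.Agent.Helper70.PQS.Perms

/-!
# The explicit list of the 108 basis permutations
-/

namespace Pool.Agent.Helper70.PQS

/-- the 108 basis permutations: positions in increasing value order, and one-line notation -/
def LB : List (List ℕ × List ℕ) := [
  ([5,0,2,1,4,3], [2,4,3,6,5,1]),
  ([5,0,3,1,4,2], [2,4,6,3,5,1]),
  ([4,0,5,1,3,2], [2,4,6,5,1,3]),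
  ([5,0,2,4,1,3], [2,5,3,6,4,1]),
  ([4,0,5,2,1,3], [2,5,4,6,1,3]),
  ([5,0,2,4,3,1], [2,6,3,5,4,1]),
  ([4,0,5,3,2,1], [2,6,5,4,1,3]),
  ([5,1,0,2,4,3], [3,2,4,6,5,1]),
  ([4,1,0,5,3,2], [3,2,6,5,1,4]),
  ([2,5,0,3,1,4], [3,5,1,4,6,2]),
  ([5,2,0,3,1,4], [3,5,2,4,6,1]),
  ([3,5,0,2,1,4], [3,5,4,1,6,2]),
  ([5,3,0,2,1,4], [3,5,4,2,6,1]),
  ([3,5,0,2,4,1], [3,6,4,1,5,2]),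
  ([5,3,0,2,4,1], [3,6,4,2,5,1]),
  ([3,5,0,4,2,1], [3,6,5,1,4,2]),
  ([5,3,0,4,2,1], [3,6,5,2,4,1]),
  ([5,1,3,0,2,4], [4,2,5,3,6,1]),
  ([5,1,3,0,4,2], [4,2,6,3,5,1]),
  ([4,1,5,0,3,2], [4,2,6,5,1,3]),
  ([3,5,1,0,2,4], [4,3,5,1,6,2]),
  ([3,5,1,0,4,2], [4,3,6,1,5,2]),
  ([5,3,1,0,4,2], [4,3,6,2,5,1]),
  ([4,2,5,0,3,1], [4,6,2,5,1,3]),
  ([3,5,4,0,2,1], [4,6,5,1,3,2]),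
  ([1,4,2,5,0,3], [5,1,3,6,2,4]),
  ([5,1,3,2,0,4], [5,2,4,3,6,1]),
  ([4,1,5,2,0,3], [5,2,4,6,1,3]),
  ([4,1,3,5,0,2], [5,2,6,3,1,4]),
  ([4,1,5,3,0,2], [5,2,6,4,1,3]),
  ([2,4,1,5,0,3], [5,3,1,6,2,4]),
  ([3,5,1,4,0,2], [5,3,6,1,4,2]),
  ([5,3,1,4,0,2], [5,3,6,2,4,1]),
  ([4,2,5,1,0,3], [5,4,2,6,1,3]),
  ([3,5,4,1,0,2], [5,4,6,1,3,2]),
  ([3,0,6,2,4,1,5], [2,6,4,1,5,7,3]),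
  ([1,3,5,0,6,2,4], [4,1,6,2,7,3,5]),
  ([1,5,3,0,6,2,4], [4,1,6,3,7,2,5]),
  ([1,6,4,2,0,3,5], [5,1,4,6,3,7,2]),
  ([2,6,4,1,0,3,5], [5,4,1,6,3,7,2]),
  ([6,3,2,4,0,5,1], [5,7,3,2,4,6,1]),
  ([1,6,3,2,4,0,5], [6,1,4,3,5,7,2]),
  ([6,2,1,5,3,0,4], [6,3,2,5,7,4,1]),
  ([2,6,3,1,4,0,5], [6,4,1,3,5,7,2]),
  ([6,2,5,1,3,0,4], [6,4,2,5,7,3,1]),
  ([3,6,2,1,4,0,5], [6,4,3,1,5,7,2]),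
  ([2,0,3,7,1,4,6,5], [2,5,1,3,6,8,7,4]),
  ([2,0,3,6,1,7,5,4], [2,5,1,3,8,7,4,6]),
  ([3,0,2,7,1,4,6,5], [2,5,3,1,6,8,7,4]),
  ([3,0,2,6,1,7,5,4], [2,5,3,1,8,7,4,6]),
  ([4,0,2,6,1,7,3,5], [2,5,3,7,1,8,4,6]),
  ([3,0,4,6,1,7,2,5], [2,5,7,1,3,8,4,6]),
  ([4,0,3,6,1,7,2,5], [2,5,7,3,1,8,4,6]),
  ([2,0,3,5,7,1,4,6], [2,6,1,3,7,4,8,5]),
  ([2,0,3,7,5,1,4,6], [2,6,1,3,7,5,8,4]),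
  ([2,0,3,5,7,1,6,4], [2,6,1,3,8,4,7,5]),
  ([2,0,3,7,5,1,6,4], [2,6,1,3,8,5,7,4]),
  ([3,0,2,5,7,1,4,6], [2,6,3,1,7,4,8,5]),
  ([3,0,2,7,5,1,4,6], [2,6,3,1,7,5,8,4]),
  ([3,0,2,5,7,1,6,4], [2,6,3,1,8,4,7,5]),
  ([3,0,2,7,5,1,6,4], [2,6,3,1,8,5,7,4]),
  ([2,0,3,5,7,6,1,4], [2,7,1,3,8,4,6,5]),
  ([3,0,2,5,7,6,1,4], [2,7,3,1,8,4,6,5]),
  ([3,0,7,2,4,6,5,1], [2,8,4,1,5,7,6,3]),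
  ([3,0,6,2,7,5,4,1], [2,8,4,1,7,6,3,5]),
  ([4,0,6,2,7,3,5,1], [2,8,4,6,1,7,3,5]),
  ([3,0,5,7,2,4,6,1], [2,8,5,1,6,3,7,4]),
  ([3,0,7,5,2,4,6,1], [2,8,5,1,6,4,7,3]),
  ([3,0,5,7,2,6,4,1], [2,8,5,1,7,3,6,4]),
  ([3,0,7,5,2,6,4,1], [2,8,5,1,7,4,6,3]),
  ([3,0,5,7,6,2,4,1], [2,8,6,1,7,3,5,4]),
  ([1,3,0,7,2,4,6,5], [3,1,5,2,6,8,7,4]),
  ([1,3,0,6,2,7,5,4], [3,1,5,2,8,7,4,6]),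
  ([1,4,0,6,2,7,3,5], [3,1,5,7,2,8,4,6]),
  ([1,3,0,5,7,2,4,6], [3,1,6,2,7,4,8,5]),
  ([1,3,0,7,5,2,4,6], [3,1,6,2,7,5,8,4]),
  ([1,3,0,5,7,2,6,4], [3,1,6,2,8,4,7,5]),
  ([1,3,0,7,5,2,6,4], [3,1,6,2,8,5,7,4]),
  ([1,3,0,5,7,6,2,4], [3,1,7,2,8,4,6,5]),
  ([1,3,7,0,2,4,6,5], [4,1,5,2,6,8,7,3]),
  ([1,3,6,0,2,7,5,4], [4,1,5,2,8,7,3,6]),
  ([1,3,2,7,0,4,6,5], [5,1,3,2,6,8,7,4]),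
  ([1,3,2,6,0,7,5,4], [5,1,3,2,8,7,4,6]),
  ([1,3,5,7,0,2,4,6], [5,1,6,2,7,3,8,4]),
  ([1,3,7,5,0,2,4,6], [5,1,6,2,7,4,8,3]),
  ([1,3,5,7,0,2,6,4], [5,1,6,2,8,3,7,4]),
  ([1,3,7,5,0,2,6,4], [5,1,6,2,8,4,7,3]),
  ([2,4,3,6,0,7,1,5], [5,7,1,3,2,8,4,6]),
  ([1,3,2,5,7,0,4,6], [6,1,3,2,7,4,8,5]),
  ([1,3,2,7,5,0,4,6], [6,1,3,2,7,5,8,4]),
  ([1,3,2,5,7,0,6,4], [6,1,3,2,8,4,7,5]),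
  ([1,3,2,7,5,0,6,4], [6,1,3,2,8,5,7,4]),
  ([1,3,5,7,6,0,2,4], [6,1,7,2,8,3,5,4]),
  ([1,3,2,5,7,6,0,4], [7,1,3,2,8,4,6,5]),
  ([3,1,4,7,2,5,0,6], [7,2,5,1,3,6,8,4]),
  ([4,1,3,7,2,5,0,6], [7,2,5,3,1,6,8,4]),
  ([2,4,1,7,3,5,0,6], [7,3,1,5,2,6,8,4]),
  ([2,4,7,1,3,5,0,6], [7,4,1,5,2,6,8,3]),
  ([2,4,3,7,1,5,0,6], [7,5,1,3,2,6,8,4]),
  ([4,0,2,1,8,3,5,7,6], [2,4,3,6,1,7,9,8,5]),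
  ([4,0,2,1,7,3,8,6,5], [2,4,3,6,1,9,8,5,7]),
  ([5,0,2,1,7,3,8,4,6], [2,4,3,6,8,1,9,5,7]),
  ([4,0,2,1,6,8,3,5,7], [2,4,3,7,1,8,5,9,6]),
  ([4,0,2,1,8,6,3,5,7], [2,4,3,7,1,8,6,9,5]),
  ([4,0,2,1,6,8,3,7,5], [2,4,3,7,1,9,5,8,6]),
  ([4,0,2,1,8,6,3,7,5], [2,4,3,7,1,9,6,8,5]),
  ([4,0,2,1,6,8,7,3,5], [2,4,3,8,1,9,5,7,6]),
  ([5,1,3,2,8,4,6,0,7], [8,2,4,3,6,1,7,9,5])]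

end Pool.Agent.Helper70.PQS
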