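import Pool.Agent.Helper70.PQS.Main
import Pool.Agent.Helper70.PQS.Defs

/-!
# The PQS machine: a pop stack, a queue and a stack in series
-/

namespace Pool.Agent.Helper70.PQS

/-- `w` can be turned into `r` -/
def Turns (w r : List ℕ) : Prop :=
  Relation.ReflTransGen Step ⟨w, [], [], [], []⟩ ⟨[], [], [], [], r⟩

/-- queue `q`, stack `s` yield the output `r` -/
inductive Outs : List ℕ → List ℕ → List ℕ → Prop where
  | nil : Outs [] [] []
  | mv (x : ℕ) (q s r : List ℕ) : Outs q (x :: s) r → Outs (x :: q) s r
  | out (x : ℕ) (q s r : List ℕ) : Outs q s r → Outs q (x :: s) (x :: r)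

theorem run_blocks {st : State} {f : List ℕ}
    (h : Relation.ReflTransGen Step st ⟨[], [], [], [], f⟩) :
    ∃ (B0 : List ℕ) (Bs : List (List ℕ)) (r : List ℕ), B0 ++ Bs.flatten = st.input ∧
      f = st.output ++ r ∧
      Outs (st.queue ++ ((B0.reverse ++ st.pop) ++ (Bs.map List.reverse).flatten)) st.stack r := by
  induction h using Relation.ReflTransGen.head_induction_on with
  | refl => exact ⟨[], [], [], rfl, by simp, Outs.nil⟩
  | head hs _ ih =>
    obtain ⟨B0, Bs, r, h1, h2, h3⟩ := ih
    cases hs with
    | push x i p q s o =>
      simp only at h1 h2 h3
      refine ⟨x :: B0, Bs, r, by simp [h1], h2, ?_⟩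
      simpa using h3
    | empty i p q s o =>
      simp only at h1 h2 h3
      refine ⟨[], B0 :: Bs, r, by simp [h1], h2, ?_⟩
      simpa using h3
    | move x i p q s o =>
      simp only at h1 h2 h3
      exact ⟨B0, Bs, r, h1, h2, Outs.mv _ _ _ _ h3⟩
    | out x i p q s o =>
      simp only at h1 h2 h3
      refine ⟨B0, Bs, x :: r, h1, by simp [h2], Outs.out _ _ _ _ h3⟩

theorem Outs.stack_sub {q s r : List ℕ} (h : Outs q s r) : s.Sublist r := by
  induction h with
  | nil => exact List.Sublist.refl _
  | mv x q s r _ ih => exact (List.sublist_cons_self _ _).trans ih
  | out x q s r _ ih => exact ih.cons_cons x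

theorem Outs.queue_mem {q s r : List ℕ} (h : Outs q s r) : ∀ v ∈ q, v ∈ r := by
  induction h with
  | nil => simp
  | mv x q s r h ih =>
    intro v hv
    rcases List.mem_cons.1 hv with rfl | hv
    · exact h.stack_sub.subset (by simp)
    · exact ih v hv
  | out x q s r _ ih => exact fun v hv => List.mem_cons_of_mem _ (ih v hv)

theorem Outs.no_pair {q s r : List ℕ} (h : Outs q s r) (hr : r.Pairwise (· < ·)) :
    ∀ b ∈ s, ∀ c a, [c, a].Sublist q → a < b → b < c → False := by
  induction h with
  | nil => intro b hb; exact absurd hb (by simp)
  | mv x q s r h ih =>
    intro b hb c a hca hab hbc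
    rcases List.sublist_cons_iff.1 hca with h' | ⟨r', hr', h'⟩
    · exact ih hr b (by simp [hb]) c a h' hab hbc
    · have hcx : c = x := (List.cons.inj hr').1
      have hs := hr.sublist h.stack_sub
      rw [List.pairwise_cons] at hs
      have := hs.1 b hb
      omega
  | out x q s r h ih =>
    intro b hb c a hca hab hbc
    rw [List.pairwise_cons] at hr
    rcases List.mem_cons.1 hb with rfl | hb
    · have ha : a ∈ q := hca.subset (by simp)
      have := hr.1 a (h.queue_mem a ha)
      omega
    · exact ih hr.2 b hb c a hca hab hbc

theorem Outs.av {q s r : List ℕ} (h : Outs q s r) (hr : r.Pairwise (· < ·)) : Av q := by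
  induction h with
  | nil => intro a b c h; simp at h
  | mv x q s r h ih =>
    intro a b c hs hab hbc
    rcases List.sublist_cons_iff.1 hs with h' | ⟨r', hr', h'⟩
    · exact ih hr a b c h' hab hbc
    · have hbx : b = x := (List.cons.inj hr').1
      have hr'' := (List.cons.inj hr').2
      rw [← hr''] at h'
      exact h.no_pair hr x (by simp) c a h' (hbx ▸ hab) (hbx ▸ hbc)
  | out x q s r h ih =>
    rw [List.pairwise_cons] at hr
    exact ih hr.2

theorem outs_of_av : ∀ (n : ℕ) (q s r : List ℕ), 2 * q.length + s.length ≤ n →
    r.Pairwise (· < ·) → r.Perm (s ++ q) → s.Pairwise (· < ·) →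
    (∀ b ∈ s, ∀ c a, [c, a].Sublist q → a < b → b < c → False) → Av q → Outs q s r := by
  intro n
  induction n with
  | zero =>
    intro q s r hn hr hp hs hb ha
    have hq : q = [] := List.length_eq_zero_iff.1 (by omega)
    have hs' : s = [] := List.length_eq_zero_iff.1 (by omega)
    subst hq hs'
    have : r = [] := hp.eq_nil
    subst this
    exact Outs.nil
  | succ n ih =>
    intro q s r hn hr hp hs hb ha
    cases r with
    | nil =>
      have := hp.symm.eq_nil
      rw [List.append_eq_nil_iff] at this
      obtain ⟨rfl, rfl⟩ := this
      exact Outs.nil
    | cons m r' =>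
      have hmin : ∀ v ∈ s ++ q, v ≠ m → m < v := by
        intro v hv hne
        have := hp.symm.subset hv
        rcases List.mem_cons.1 this with h | h
        · exact absurd h hne
        · exact (List.pairwise_cons.1 hr).1 v h
      have hnd : (s ++ q).Nodup := hp.nodup_iff.1 (hr.imp (fun h => ne_of_lt h))
      by_cases hm : m ∈ s
      · -- m is the top
        cases s with
        | nil => exact absurd hm (by simp)
        | cons x s' =>
          have hxm : x = m := by
            rcases List.mem_cons.1 hm with h | h
            · exact h.symm
            · have h1 := (List.pairwise_cons.1 hs).1 m h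
              by_contra hne
              have := hmin x (by simp) hne
              omega
          subst hxm
          apply Outs.out
          apply ih
          · simp only [List.length_cons] at hn
            omega
          · exact (List.pairwise_cons.1 hr).2
          · rw [List.cons_append] at hp
            exact hp.cons_inv
          · exact (List.pairwise_cons.1 hs).2
          · intro b hb'
            exact hb b (by simp [hb'])
          · exact ha
      · cases q with
        | nil =>
          exfalso
          have : m ∈ s ++ [] := hp.subset (by simp)
          rw [List.append_nil] at this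
          exact hm this
        | cons y q' =>
          have hmq : m ∈ y :: q' := by
            have : m ∈ s ++ (y :: q') := hp.subset (by simp)
            rcases List.mem_append.1 this with h | h
            · exact absurd h hm
            · exact h
          have hys : ∀ b ∈ s, y < b := by
            intro b hb'
            by_contra hlt
            have hne : b ≠ y := by
              rintro rfl
              rw [List.nodup_append] at hnd
              exact hnd.2.2 b hb' b (by simp) rfl
            have hby : b < y := by omega
            have hbm : b ≠ m := by rintro rfl; exact hm hb'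
            have hmb : m < b := hmin b (by simp [hb']) hbm
            have hmq' : m ∈ q' := by
              rcases List.mem_cons.1 hmq with h | h
              · omega
              · exact h
            exact hb b hb' y m ((List.singleton_sublist.2 hmq').cons_cons y) hmb hby
          apply Outs.mv
          apply ih
          · simp only [List.length_cons] at hn ⊢
            omega
          · exact hr
          · refine hp.trans ?_
            rw [List.cons_append]
            exact List.perm_middle
          · exact List.pairwise_cons.2 ⟨hys, hs⟩
          · intro b hb' c a hca hab hbc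
            rcases List.mem_cons.1 hb' with rfl | hb'
            · exact ha a b c (hca.cons_cons b) hab hbc
            · exact hb b hb' c a (hca.trans (List.sublist_cons_self _ _)) hab hbc
          · exact ha.sub (List.sublist_cons_self _ _)

theorem push_block (i : List ℕ) : ∀ (B p q s o : List ℕ),
    Relation.ReflTransGen Step ⟨B ++ i, p, q, s, o⟩ ⟨i, B.reverse ++ p, q, s, o⟩
  | [], p, q, s, o => Relation.ReflTransGen.refl
  | x :: B, p, q, s, o => by
    refine Relation.ReflTransGen.head (Step.push x (B ++ i) p q s o) ?_
    have := push_block i B (x :: p) q s o
    simpa using this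

theorem push_blocks : ∀ (Bs : List (List ℕ)) (q : List ℕ),
    Relation.ReflTransGen Step ⟨Bs.flatten, [], q, [], []⟩
      ⟨[], [], q ++ (Bs.map List.reverse).flatten, [], []⟩
  | [], q => by
    simp only [List.flatten_nil, List.map_nil, List.append_nil]
    exact Relation.ReflTransGen.refl
  | B :: Bs, q => by
    have h1 := push_block Bs.flatten B [] q [] []
    have h2 := push_blocks Bs (q ++ B.reverse)
    rw [List.flatten_cons, List.map_cons, List.flatten_cons, ← List.append_assoc]
    refine h1.trans ?_
    refine Relation.ReflTransGen.head (Step.empty _ _ _ _ _) ?_
    rw [List.append_nil]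
    exact h2

theorem run_outs {q s r : List ℕ} (h : Outs q s r) : ∀ o : List ℕ,
    Relation.ReflTransGen Step ⟨[], [], q, s, o⟩ ⟨[], [], [], [], o ++ r⟩ := by
  induction h with
  | nil => intro o; rw [List.append_nil]
  | mv x q s r _ ih =>
    intro o
    exact Relation.ReflTransGen.head (Step.move x [] [] q s o) (ih o)
  | out x q s r _ ih =>
    intro o
    refine Relation.ReflTransGen.head (Step.out x [] [] q s o) ?_
    have := ih (o ++ [x])
    simpa using this

/-- The machine can sort `w` if and only if `w` has a good division. -/
theorem turns_iff {w r : List ℕ} (hr : r.Pairwise (· < ·)) (hp : r.Perm w) :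
    Turns w r ↔ GoodC [] w [] := by
  constructor
  · intro h
    obtain ⟨B0, Bs, r', h1, h2, h3⟩ := run_blocks h
    simp only [List.nil_append, List.append_nil] at h1 h2 h3
    subst h2
    refine ⟨B0 :: Bs, by simp [h1], ?_⟩
    have := h3.av hr
    simpa using this
  · rintro ⟨Bs, h1, h2⟩
    have h2' : Av (Bs.map List.reverse).flatten := by simpa using h2
    have hperm : ((Bs.map List.reverse).flatten).Perm Bs.flatten := by
      clear h1 h2 h2'
      induction Bs with
      | nil => exact List.Perm.refl _
      | cons B Bs ih =>
        rw [List.map_cons, List.flatten_cons, List.flatten_cons]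
        exact (List.reverse_perm B).append ih
    have ho : Outs (Bs.map List.reverse).flatten [] r := by
      apply outs_of_av _ _ _ _ (le_refl _) hr
      · rw [List.nil_append]
        rw [← h1] at hp
        exact hp.trans hperm.symm
      · exact List.Pairwise.nil
      · intro b hb; exact absurd hb (by simp)
      · exact h2'
    unfold Turns
    have e1 := push_blocks Bs []
    rw [h1, List.nil_append] at e1
    have e2 := run_outs ho []
    rw [List.nil_append] at e2
    exact e1.trans e2

end Pool.Agent.Helper70.PQS
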