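import Pool.Agent.Helper70.PQS.Blocks

/-!
# Configurations avoiding all marked base patterns are good
-/

namespace Pool.Agent.Helper70.PQS

theorem forall2_imp {R R' : ℕ → ℕ → Prop} : ∀ {ps l : List ℕ},
    (∀ p ∈ ps, ∀ v, R p v → R' p v) → List.Forall₂ R ps l → List.Forall₂ R' ps l
  | _, _, _, List.Forall₂.nil => List.Forall₂.nil
  | _, _, h, List.Forall₂.cons h1 h2 =>
    List.Forall₂.cons (h _ (by simp) _ h1) (forall2_imp (fun p hp => h p (by simp [hp])) h2)

theorem forall2_map {R R' : ℕ → ℕ → Prop} {f : ℕ → ℕ} : ∀ {ps l : List ℕ},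
    (∀ p ∈ ps, ∀ v, R p v → R' (f p) v) → List.Forall₂ R ps l → List.Forall₂ R' (ps.map f) l
  | _, _, _, List.Forall₂.nil => List.Forall₂.nil
  | _, _, h, List.Forall₂.cons h1 h2 =>
    List.Forall₂.cons (h _ (by simp) _ h1) (forall2_map (fun p hp => h p (by simp [hp])) h2)

theorem BOcc.mono {X W Y X' W' Y' : List ℕ} {q : Pat} (hX : X'.Sublist X) (hW : W'.Sublist W)
    (hY : Y'.Sublist Y) (h : BOcc X' W' Y' q) : BOcc X W Y q := by
  obtain ⟨l, h1, h2, h3⟩ := h
  refine ⟨l, forall2_imp ?_ h1, h2.trans (hX.append (hW.append hY)), h3⟩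
  intro p _ v hv
  match p, hv with
  | 0, hv => exact hX.subset hv
  | 1, hv => exact hW.subset hv
  | p + 2, hv => exact hY.subset hv

theorem occ3 {X W Y : List ℕ} {p0 p1 p2 i j k a b c : ℕ} (h0 : part X W Y p0 a)
    (h1 : part X W Y p1 b) (h2 : part X W Y p2 c) (hs : [a, b, c].Sublist (X ++ (W ++ Y)))
    (hp : (pick [i, j, k] [a, b, c]).Pairwise (· < ·)) :
    BOcc X W Y ⟨[p0, p1, p2], [i, j, k]⟩ :=
  ⟨[a, b, c], List.Forall₂.cons h0 (List.Forall₂.cons h1 (List.Forall₂.cons h2 List.Forall₂.nil)),
    hs, hp⟩

theorem exists_max {L : List ℕ} (h : L ≠ []) : ∃ N ∈ L, ∀ v ∈ L, v ≤ N := by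
  have hne : L.toFinset.Nonempty := by
    obtain ⟨a, ha⟩ := List.exists_mem_of_ne_nil L h
    exact ⟨a, by simpa using ha⟩
  obtain ⟨N, hN, hmax⟩ := L.toFinset.exists_max_image id hne
  exact ⟨N, by simpa using hN, fun v hv => hmax v (by simpa using hv)⟩

theorem sub_pos {c : Cfg} (ok : c.Ok) {h l : ℕ} {L : List ℕ} (hL : L.Sublist c.G) (hh : h ∈ L)
    (hl : l ∈ L) (hlt : L.idxOf h < L.idxOf l) : c.pos h < c.pos l := by
  have h1 : [h, l].Sublist L := by
    apply sublist_of_idx
    · intro v hv
      simp only [List.mem_cons, List.not_mem_nil, or_false] at hv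
      rcases hv with rfl | rfl
      · exact hh
      · exact hl
    · simpa using hlt
  have h2 := pairwise_idx_of_sublist ok.nd (h1.trans hL)
  rw [List.pairwise_cons] at h2
  exact h2.1 l (by simp)

/-- the key step: a threshold fails for one of three reasons -/
theorem key_step {n : ℕ}
    (IH : ∀ (X W Y : List ℕ), (X ++ (W ++ Y)).length ≤ n → (X ++ (W ++ Y)).Nodup →
      (∀ q ∈ BL, ¬ BOcc X W Y q) → GoodC X W Y)
    {c : Cfg} (ok : c.Ok) (hlen : c.G.length ≤ n + 1)
    (hb : ∀ q ∈ BL, ¬ BOcc c.X (c.A ++ c.N :: c.C) c.Y q)
    (hng : ¬ GoodC c.X (c.A ++ c.N :: c.C) c.Y) (t : ℕ) :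
    c.Cover t ∨ ∃ q ∈ HL, c.HOcc t q := by
  by_cases hX : ∃ x ∈ c.X, t ≤ x
  · exact Or.inl (Or.inl hX)
  by_cases hI : ∃ z, (z = 1 ∨ z = 3) ∧ ∃ h l, c.IZ z h ∧ c.IZ z l ∧ c.pos h < c.pos l ∧
      t ≤ h ∧ l < t
  · exact Or.inl (Or.inr (Or.inl hI))
  by_cases hY : ∃ y ∈ c.Y, y < t
  · obtain ⟨y, hy, hyt⟩ := hY
    refine Or.inr ⟨h0, h0_mem, [y], ⟨?_, ?_, ?_⟩, ?_⟩
    · exact List.Forall₂.cons hy List.Forall₂.nil
    · rw [List.singleton_sublist]
      exact Cfg.IZ.mem (by norm_num : 4 < 5) hy
    · simp [h0, pick]
    · simpa using hyt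
  have hGd : c.G = c.X ++ ((c.A ++ c.N :: c.C) ++ c.Y) := rfl
  have hAG : c.A.Sublist c.G := by
    rw [hGd]
    exact (List.sublist_append_left _ _).trans
      ((List.sublist_append_left _ _).trans (List.sublist_append_right _ _))
  have hCG : c.C.Sublist c.G := by
    rw [hGd]
    exact ((List.sublist_cons_self _ _).trans (List.sublist_append_right _ _)).trans
      ((List.sublist_append_left _ _).trans (List.sublist_append_right _ _))
  have hA := split_filter t c.A (ok.nd.sublist hAG) (by
    intro h l hh hl hlt hth
    by_contra hc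
    exact hI ⟨1, Or.inl rfl, h, l, hh, hl, sub_pos ok hAG hh hl hlt, hth, not_le.1 hc⟩)
  have hC := split_filter t c.C (ok.nd.sublist hCG) (by
    intro h l hh hl hlt hth
    by_contra hc
    exact hI ⟨3, Or.inr rfl, h, l, hh, hl, sub_pos ok hCG hh hl hlt, hth, not_le.1 hc⟩)
  have hX' : ∀ x ∈ c.X, x < t := by
    intro x hx
    by_contra hc
    exact hX ⟨x, hx, not_lt.1 hc⟩
  have hY' : ∀ y ∈ c.Y, t ≤ y := by
    intro y hy
    by_contra hc
    exact hY ⟨y, hy, not_le.1 hc⟩
  have hN : ∀ v ∈ c.X ++ (c.A ++ (c.C ++ c.Y)), v < c.N := by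
    intro v hv
    simp only [List.mem_append] at hv
    rcases hv with hv | hv | hv | hv
    · exact Cfg.IZ.lt_N ok (z := 0) (by norm_num) (by norm_num) hv
    · exact Cfg.IZ.lt_N ok (z := 1) (by norm_num) (by norm_num) hv
    · exact Cfg.IZ.lt_N ok (z := 3) (by norm_num) (by norm_num) hv
    · exact Cfg.IZ.lt_N ok (z := 4) (by norm_num) (by norm_num) hv
  have hA1s : (c.A.filter (fun v => decide (v < t))).Sublist c.A := List.filter_sublist
  have hA2s : (c.A.filter (fun v => decide (t ≤ v))).Sublist c.A := List.filter_sublist
  have hC1s : (c.C.filter (fun v => decide (v < t))).Sublist c.C := List.filter_sublist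
  have hC2s : (c.C.filter (fun v => decide (t ≤ v))).Sublist c.C := List.filter_sublist
  have hA1 : ∀ v ∈ c.A.filter (fun v => decide (v < t)), v ∈ c.A ∧ v < t := by
    intro v hv; simpa using hv
  have hA2 : ∀ v ∈ c.A.filter (fun v => decide (t ≤ v)), v ∈ c.A ∧ t ≤ v := by
    intro v hv; simpa using hv
  have hC1 : ∀ v ∈ c.C.filter (fun v => decide (v < t)), v ∈ c.C ∧ v < t := by
    intro v hv; simpa using hv
  have hC2 : ∀ v ∈ c.C.filter (fun v => decide (t ≤ v)), v ∈ c.C ∧ t ≤ v := by
    intro v hv; simpa using hv
  have hW1 : ((c.A.filter (fun v => decide (v < t))) ++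
      (c.C.filter (fun v => decide (v < t)))).Sublist (c.A ++ c.N :: c.C) :=
    hA1s.append (hC1s.trans (List.sublist_cons_self _ _))
  have hW2 : ((c.A.filter (fun v => decide (t ≤ v))) ++
      (c.C.filter (fun v => decide (t ≤ v)))).Sublist (c.A ++ c.N :: c.C) :=
    hA2s.append (hC2s.trans (List.sublist_cons_self _ _))
  have hS1 : (c.X ++ ((c.A.filter (fun v => decide (v < t))) ++
      (c.C.filter (fun v => decide (v < t))))).Sublist c.G := by
    rw [hGd]
    exact (List.Sublist.refl _).append (hW1.trans (List.sublist_append_left _ _))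
  have hS2 : ((c.A.filter (fun v => decide (t ≤ v))) ++
      ((c.C.filter (fun v => decide (t ≤ v))) ++ c.Y)).Sublist c.G := by
    rw [hGd, ← List.append_assoc]
    exact (hW2.append (List.Sublist.refl _)).trans (List.sublist_append_right _ _)
  have hlenG : c.G.length = c.X.length + (c.A.length + (c.C.length + 1) + c.Y.length) := by
    rw [hGd]; simp only [List.length_append, List.length_cons]
  have hl1 : (c.X ++ ((c.A.filter (fun v => decide (v < t))) ++
      (c.C.filter (fun v => decide (v < t))))).length ≤ n := by
    have e1 := hA1s.length_le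
    have e2 := hC1s.length_le
    rw [List.length_append, List.length_append]
    omega
  have hl2 : ((c.A.filter (fun v => decide (t ≤ v))) ++
      ((c.C.filter (fun v => decide (t ≤ v))) ++ c.Y)).length ≤ n := by
    have e1 := hA2s.length_le
    have e2 := hC2s.length_le
    rw [List.length_append, List.length_append]
    omega
  by_cases g1 : GoodC c.X (c.A.filter (fun v => decide (v < t))) (c.C.filter (fun v => decide (v < t)))
  · by_cases g2 : GoodC (c.A.filter (fun v => decide (t ≤ v))) (c.C.filter (fun v => decide (t ≤ v))) c.Y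
    · exact absurd (good_W hA hC hX' hY' hN g1 g2) hng
    · -- low side
      left
      have : ∃ q ∈ BL, BOcc (c.A.filter (fun v => decide (t ≤ v)))
          (c.C.filter (fun v => decide (t ≤ v))) c.Y q := by
        by_contra hcon
        exact g2 (IH _ _ _ hl2 (ok.nd.sublist hS2) (fun q hq h => hcon ⟨q, hq, h⟩))
      obtain ⟨q, hq, l, h1, h2, h3⟩ := this
      by_cases h0q : 0 ∈ q.ps
      · rcases toL_mem q hq h0q with rfl | rfl | hLT
        · -- 3x 2x | 1
          obtain ⟨s, l1, hs, hr1, rfl⟩ := List.forall₂_cons_left_iff.1 h1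
          obtain ⟨u, l2, hu, hr2, rfl⟩ := List.forall₂_cons_left_iff.1 hr1
          obtain ⟨p, l3, hp, hr3, rfl⟩ := List.forall₂_cons_left_iff.1 hr2
          rw [List.forall₂_nil_left_iff] at hr3
          subst hr3
          have hpos := pairwise_idx_of_sublist ok.nd (h2.trans hS2)
          have h3' : p < u ∧ p < s ∧ u < s := by
            simpa [pick, b332, and_assoc] using h3
          simp only [List.pairwise_cons, List.mem_cons, List.not_mem_nil, or_false] at hpos
          have hsu : c.pos s < c.pos u := hpos.1 u (Or.inl rfl)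
          have hs' := hA2 s hs
          have hu' := hA2 u hu
          have hp' := hC2 p hp
          exact Or.inr (Or.inr (Or.inl ⟨s, hs'.1, u, hu'.1, p, hp'.1, hsu, h3'.2.2, h3'.1, hp'.2⟩))
        · -- 1x 3x 2x
          obtain ⟨s, l1, hs, hr1, rfl⟩ := List.forall₂_cons_left_iff.1 h1
          obtain ⟨u, l2, hu, hr2, rfl⟩ := List.forall₂_cons_left_iff.1 hr1
          obtain ⟨p, l3, hp, hr3, rfl⟩ := List.forall₂_cons_left_iff.1 hr2
          rw [List.forall₂_nil_left_iff] at hr3
          subst hr3
          have hpos := pairwise_idx_of_sublist ok.nd (h2.trans hS2)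
          have h3' : s < p ∧ s < u ∧ p < u := by
            simpa [pick, bxxx, and_assoc] using h3
          simp only [List.pairwise_cons, List.mem_cons, List.not_mem_nil, or_false] at hpos
          have hsu : c.pos s < c.pos u := hpos.1 u (Or.inl rfl)
          have hup : c.pos u < c.pos p := hpos.2.1 p rfl
          have hs' := hA2 s hs
          have hu' := hA2 u hu
          have hp' := hA2 p hp
          exact Or.inr (Or.inr (Or.inr
            ⟨s, hs'.1, u, hu'.1, p, hp'.1, hsu, hup, h3'.1, h3'.2.2, hs'.2⟩))
        · exfalso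
          refine low_none ok hb hLT (l := l) ⟨?_, h2.trans hS2, h3⟩
          apply forall2_map _ h1
          intro p hp v hv
          have := BL_parts q hq p hp
          have h5 : p = 0 ∨ p = 1 ∨ p = 2 := by omega
          rcases h5 with rfl | rfl | rfl
          · exact (hA2 v hv).1
          · exact (hC2 v hv).1
          · exact hv
      · exfalso
        refine hb q hq ⟨l, ?_, h2.trans hS2, h3⟩
        apply forall2_imp _ h1
        intro p hp v hv
        have := BL_parts q hq p hp
        have hp0 : p ≠ 0 := fun h => h0q (h ▸ hp)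
        have h5 : p = 1 ∨ p = 2 := by omega
        rcases h5 with rfl | rfl
        · have : v ∈ c.C := (hC2 v hv).1
          show v ∈ c.A ++ c.N :: c.C
          simp [this]
        · exact hv
  · -- high side
    have : ∃ q ∈ BL, BOcc c.X (c.A.filter (fun v => decide (v < t)))
        (c.C.filter (fun v => decide (v < t))) q := by
      by_contra hcon
      exact g1 (IH _ _ _ hl1 (ok.nd.sublist hS1) (fun q hq h => hcon ⟨q, hq, h⟩))
    obtain ⟨q, hq, l, h1, h2, h3⟩ := this
    by_cases h2q : 2 ∈ q.ps
    · right
      refine ⟨toH q, toH_mem q hq h2q, l, ⟨?_, h2.trans hS1, h3⟩, ?_⟩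
      · apply forall2_map _ h1
        intro p hp v hv
        have := BL_parts q hq p hp
        have h5 : p = 0 ∨ p = 1 ∨ p = 2 := by omega
        rcases h5 with rfl | rfl | rfl
        · exact hv
        · exact (hA1 v hv).1
        · exact (hC1 v hv).1
      · intro v hv
        have := h2.subset hv
        simp only [List.mem_append] at this
        rcases this with h | h | h
        · exact hX' v h
        · exact (hA1 v h).2
        · exact (hC1 v h).2
    · exfalso
      refine hb q hq ⟨l, ?_, h2.trans hS1, h3⟩
      apply forall2_imp _ h1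
      intro p hp v hv
      have := BL_parts q hq p hp
      have hp0 : p ≠ 2 := fun h => h2q (h ▸ hp)
      have h5 : p = 0 ∨ p = 1 := by omega
      rcases h5 with rfl | rfl
      · exact hv
      · have : v ∈ c.A := (hA1 v hv).1
        show v ∈ c.A ++ c.N :: c.C
        simp [this]

theorem not_cover {c : Cfg} (ok : c.Ok) : ¬ c.Cover c.N := by
  rintro (⟨x, hx, h⟩ | ⟨z, hz, h, l, h1, h2, h3, h4, h5⟩ | ⟨s, hs, u, hu, q, hq, h1, h2, h3, h4⟩ |
    ⟨p, hp, q, hq, r, hr, h1, h2, h3, h4, h5⟩)
  · have := Cfg.IZ.lt_N ok (z := 0) (by norm_num) (by norm_num) hx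
    omega
  · have := Cfg.IZ.lt_N ok (z := z) (by omega) (by omega) h1
    omega
  · have := Cfg.IZ.lt_N ok (z := 3) (by norm_num) (by norm_num) hq
    omega
  · have := Cfg.IZ.lt_N ok (z := 1) (by norm_num) (by norm_num) hp
    omega

/-- the case of the maximum in the middle -/
theorem good_mid {n : ℕ}
    (IH : ∀ (X W Y : List ℕ), (X ++ (W ++ Y)).length ≤ n → (X ++ (W ++ Y)).Nodup →
      (∀ q ∈ BL, ¬ BOcc X W Y q) → GoodC X W Y)
    {c : Cfg} (ok : c.Ok) (hlen : c.G.length ≤ n + 1)
    (hb : ∀ q ∈ BL, ¬ BOcc c.X (c.A ++ c.N :: c.C) c.Y q) :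
    GoodC c.X (c.A ++ c.N :: c.C) c.Y := by
  by_contra hng
  have key := key_step IH ok hlen hb hng
  have main : ∀ T : ℕ, ∀ t ≤ T, ∀ q ∈ HL, ¬ c.HOcc t q := by
    intro T
    induction T with
    | zero =>
      intro t ht q hq
      obtain rfl : t = 0 := by omega
      rintro ⟨l, ho, hl⟩
      have hlen := ho.zs.length_eq
      cases l with
      | nil =>
        have := HL_good4 q hq
        rw [List.length_nil, List.length_eq_zero_iff] at hlen
        exact this hlen
      | cons a l => exact absurd (hl a (by simp)) (by omega)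
    | succ T ih =>
      intro t ht
      rcases Nat.lt_or_ge t (T + 1) with h | h
      · exact ih t (by omega)
      · obtain rfl : t = T + 1 := by omega
        apply high_step ok hb (ih T (le_refl _))
        intro t' ht'
        rcases key t' with h' | ⟨q, hq, h'⟩
        · exact h'
        · exact absurd h' (ih t' ht' q hq)
  rcases key c.N with h | ⟨q, hq, h⟩
  · exact not_cover ok h
  · exact main c.N c.N (le_refl _) q hq h

theorem good_of_avoid : ∀ (n : ℕ) (X W Y : List ℕ), (X ++ (W ++ Y)).length ≤ n →
    (X ++ (W ++ Y)).Nodup → (∀ q ∈ BL, ¬ BOcc X W Y q) → GoodC X W Y := by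
  intro n
  induction n with
  | zero =>
    intro X W Y hl _ _
    have : X ++ (W ++ Y) = [] := List.length_eq_zero_iff.1 (by omega)
    rw [List.append_eq_nil_iff, List.append_eq_nil_iff] at this
    obtain ⟨rfl, rfl, rfl⟩ := this
    exact goodC_nil
  | succ n IH =>
    intro X W Y hlen hnd hb
    obtain ⟨s1, s2, s3, s4, s5, s6⟩ := BL_small
    by_cases hne : X ++ (W ++ Y) = []
    · rw [List.append_eq_nil_iff, List.append_eq_nil_iff] at hne
      obtain ⟨rfl, rfl, rfl⟩ := hne
      exact goodC_nil
    · obtain ⟨N, hN, hmax⟩ := exists_max hne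
      have hlt : ∀ v ∈ X ++ (W ++ Y), v ≠ N → v < N := fun v hv h =>
        lt_of_le_of_ne (hmax v hv) h
      rw [List.mem_append, List.mem_append] at hN
      rcases hN with hN | hN | hN
      · -- N in X
        obtain ⟨X1, X2, rfl⟩ := List.append_of_mem hN
        have hnd' : (N :: (X1 ++ (X2 ++ (W ++ Y)))).Nodup := by
          have e : ((X1 ++ N :: X2) ++ (W ++ Y)).Perm (N :: (X1 ++ (X2 ++ (W ++ Y)))) := by
            rw [List.append_assoc, List.cons_append]
            exact List.perm_middle
          exact e.nodup_iff.1 hnd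
        rw [List.nodup_cons] at hnd'
        have hN' : ∀ v ∈ X1 ++ (X2 ++ (W ++ Y)), v < N := by
          intro v hv
          apply hlt v
          · simp only [List.mem_append, List.mem_cons] at hv ⊢
            tauto
          · rintro rfl
            exact hnd'.1 hv
        have hdis : ∀ v ∈ X2, ∀ u ∈ X1 ++ (W ++ Y), v ≠ u := by
          rintro v hv _ hu rfl
          have h1 := hnd'.2
          have e : (X1 ++ (X2 ++ (W ++ Y))).Perm (X2 ++ (X1 ++ (W ++ Y))) :=
            List.perm_append_comm_assoc _ _ _
          have h2 := e.nodup_iff.1 h1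
          rw [List.nodup_append] at h2
          exact h2.2.2 v hv v hu rfl
        have hX2X : (N :: X2).Sublist (X1 ++ N :: X2) := List.sublist_append_right _ _
        apply good_X (N := N)
        · -- Av X2.reverse
          intro a b d hs hab hbd
          have hs' : [a, d, b].Sublist X2 := by
            have := hs.reverse
            simpa using this
          have hs2 : [a, d, b].Sublist (X1 ++ N :: X2) :=
            (hs'.trans (List.sublist_cons_self _ _)).trans hX2X
          refine hb bxxx s6 (occ3 (a := a) (b := d) (c := b) ?_ ?_ ?_ ?_ ?_)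
          · exact hs2.subset (show a ∈ [a, d, b] by simp)
          · exact hs2.subset (show d ∈ [a, d, b] by simp)
          · exact hs2.subset (show b ∈ [a, d, b] by simp)
          · exact hs2.trans (List.sublist_append_left _ _)
          · simp [pick]; omega
        · intro v hv u hu
          by_contra hc
          have hne' := hdis v hv u hu
          have huv : u < v := by omega
          have hvN : v < N := hN' v (by simp [hv])
          have hvX : v ∈ X1 ++ N :: X2 := by simp [hv]
          have hNX : N ∈ X1 ++ N :: X2 := by simp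
          rw [List.mem_append, List.mem_append] at hu
          rcases hu with hu | hu | hu
          · refine hb bxxx s6 (occ3 (a := u) (b := N) (c := v) ?_ hNX hvX ?_ ?_)
            · show u ∈ X1 ++ N :: X2
              simp [hu]
            · have e1 : [u, N, v].Sublist (X1 ++ N :: X2) :=
                (List.singleton_sublist.2 hu).append
                  ((List.singleton_sublist.2 hv).cons_cons N)
              exact e1.trans (List.sublist_append_left _ _)
            · simp [pick]; omega
          · refine hb b332 s1 (occ3 (a := N) (b := v) (c := u) hNX hvX hu ?_ ?_)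
            · have e1 : [N, v].Sublist (X1 ++ N :: X2) :=
                ((List.singleton_sublist.2 hv).cons_cons N).trans hX2X
              have e2 : [u].Sublist (W ++ Y) :=
                (List.singleton_sublist.2 hu).trans (List.sublist_append_left _ _)
              exact e1.append e2
            · simp [pick]; omega
          · refine hb bxxy s2 (occ3 (a := N) (b := v) (c := u) hNX hvX hu ?_ ?_)
            · have e1 : [N, v].Sublist (X1 ++ N :: X2) :=
                ((List.singleton_sublist.2 hv).cons_cons N).trans hX2X
              have e2 : [u].Sublist (W ++ Y) :=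
                (List.singleton_sublist.2 hu).trans (List.sublist_append_right _ _)
              exact e1.append e2
            · simp [pick]; omega
        · exact hN'
        · apply IH
          · simp only [List.length_append, List.length_cons] at hlen ⊢
            omega
          · exact hnd'.2.sublist ((List.Sublist.refl X1).append (List.sublist_append_right _ _))
          · intro q hq h
            exact hb q hq (h.mono (List.sublist_append_left _ _) (List.Sublist.refl _)
              (List.Sublist.refl _))
      · -- N in W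
        obtain ⟨A, C, rfl⟩ := List.append_of_mem hN
        exact good_mid IH (c := ⟨X, A, N, C, Y⟩) ⟨hnd, hmax⟩ hlen hb
      · -- N in Y
        obtain ⟨Y1, Y2, rfl⟩ := List.append_of_mem hN
        have hnd' : (N :: (X ++ (W ++ (Y1 ++ Y2)))).Nodup := by
          have e : (X ++ (W ++ (Y1 ++ N :: Y2))).Perm (N :: (X ++ (W ++ (Y1 ++ Y2)))) := by
            have e1 : X ++ (W ++ (Y1 ++ N :: Y2)) = (X ++ (W ++ Y1)) ++ N :: Y2 := by simp
            have e2 : X ++ (W ++ (Y1 ++ Y2)) = (X ++ (W ++ Y1)) ++ Y2 := by simp
            rw [e1, e2]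
            exact List.perm_middle
          exact e.nodup_iff.1 hnd
        rw [List.nodup_cons] at hnd'
        have hN' : ∀ v ∈ X ++ (W ++ (Y1 ++ Y2)), v < N := by
          intro v hv
          apply hlt v
          · simp only [List.mem_append, List.mem_cons] at hv ⊢
            tauto
          · rintro rfl
            exact hnd'.1 hv
        have hdis : ∀ v ∈ X ++ (W ++ Y2), ∀ u ∈ Y1, v ≠ u := by
          rintro v hv _ hu rfl
          have h1 := hnd'.2
          have e : (X ++ (W ++ (Y1 ++ Y2))).Perm (Y1 ++ (X ++ (W ++ Y2))) := by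
            refine List.Perm.trans ?_ (List.perm_append_comm_assoc _ _ _)
            exact (List.perm_append_comm_assoc _ _ _).append_left _
          have h2 := e.nodup_iff.1 h1
          rw [List.nodup_append] at h2
          exact h2.2.2 v hu v hv rfl
        have hY1Y : Y1.Sublist (Y1 ++ N :: Y2) := List.sublist_append_left _ _
        have hYG : (Y1 ++ N :: Y2).Sublist (X ++ (W ++ (Y1 ++ N :: Y2))) :=
          (List.sublist_append_right _ _).trans (List.sublist_append_right _ _)
        have hNY : N ∈ Y1 ++ N :: Y2 := by simp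
        apply good_Y (N := N)
        · intro a b d hs hab hbd
          have hs' : [a, d, b].Sublist Y1 := by
            have := hs.reverse
            simpa using this
          have hs2 : [a, d, b].Sublist (Y1 ++ N :: Y2) := hs'.trans hY1Y
          refine hb byyy s5 (occ3 (a := a) (b := d) (c := b) ?_ ?_ ?_ ?_ ?_)
          · exact hs2.subset (show a ∈ [a, d, b] by simp)
          · exact hs2.subset (show d ∈ [a, d, b] by simp)
          · exact hs2.subset (show b ∈ [a, d, b] by simp)
          · exact hs2.trans hYG
          · simp [pick]; omega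
        · intro v hv u hu
          by_contra hc
          have hne' := hdis v hv u hu
          have huv : u < v := by omega
          have hvN : v < N := hN' v (by
            simp only [List.mem_append] at hv ⊢
            tauto)
          have huY : u ∈ Y1 ++ N :: Y2 := by simp [hu]
          have huN : [u, N].Sublist (Y1 ++ N :: Y2) :=
            (List.singleton_sublist.2 hu).append
              ((List.nil_sublist _).cons_cons N)
          rw [List.mem_append, List.mem_append] at hv
          rcases hv with hv | hv | hv
          · refine hb bxyy s3 (occ3 (a := v) (b := u) (c := N) hv huY hNY ?_ ?_)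
            · have e2 : [u, N].Sublist (W ++ (Y1 ++ N :: Y2)) :=
                huN.trans (List.sublist_append_right _ _)
              exact (List.singleton_sublist.2 hv).append e2
            · simp [pick]; omega
          · refine hb bwyy s4 (occ3 (a := v) (b := u) (c := N) hv huY hNY ?_ ?_)
            · have e1 : [v, u, N].Sublist (W ++ (Y1 ++ N :: Y2)) :=
                (List.singleton_sublist.2 hv).append huN
              exact e1.trans (List.sublist_append_right _ _)
            · simp [pick]; omega
          · refine hb byyy s5 (occ3 (a := u) (b := N) (c := v) huY hNY ?_ ?_ ?_)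
            · show v ∈ Y1 ++ N :: Y2
              simp [hv]
            · have e1 : [u, N, v].Sublist (Y1 ++ N :: Y2) :=
                (List.singleton_sublist.2 hu).append
                  ((List.singleton_sublist.2 hv).cons_cons N)
              exact e1.trans hYG
            · simp [pick]; omega
        · exact hN'
        · apply IH
          · simp only [List.length_append, List.length_cons] at hlen ⊢
            omega
          · exact hnd'.2.sublist ((List.Sublist.refl X).append
              ((List.Sublist.refl W).append (List.sublist_append_right _ _)))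
          · intro q hq h
            exact hb q hq (h.mono (List.Sublist.refl _) (List.Sublist.refl _)
              ((List.sublist_cons_self _ _).trans (List.sublist_append_right _ _)))

end Pool.Agent.Helper70.PQS
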