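import Pool.Agent.Helper70.PQS.Machine

/-!
# Permutations as lists
-/

namespace Pool.Agent.Helper70.PQS

open Equiv

/-- order-isomorphic lists -/
def OIso (u l : List ℕ) : Prop :=
  u.length = l.length ∧ ∀ i j, i < u.length → j < u.length →
    (u.getD i 0 < u.getD j 0 ↔ l.getD i 0 < l.getD j 0)

theorem oneLine_length {n : ℕ} (π : Perm (Fin n)) : (oneLine π).length = n := by
  simp [oneLine]

theorem oneLine_getD {n : ℕ} (π : Perm (Fin n)) {i : ℕ} (hi : i < n) :
    (oneLine π).getD i 0 = (π ⟨i, hi⟩ : ℕ) + 1 := by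
  rw [List.getD_eq_getElem _ _ (by rw [oneLine_length]; exact hi)]
  simp [oneLine]

theorem oneLine_nodup {n : ℕ} (π : Perm (Fin n)) : (oneLine π).Nodup := by
  rw [oneLine, List.nodup_ofFn]
  intro i j hij
  apply π.injective
  apply Fin.ext
  simpa using hij

theorem oneLine_perm {n : ℕ} (π : Perm (Fin n)) : (List.range' 1 n).Perm (oneLine π) := by
  rw [List.perm_ext_iff_of_nodup List.nodup_range' (oneLine_nodup π)]
  intro v
  rw [List.mem_range'_1, oneLine, List.mem_ofFn]
  constructor
  · intro h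
    refine ⟨π.symm ⟨v - 1, by omega⟩, ?_⟩
    simp
    omega
  · rintro ⟨i, rfl⟩
    have := (π i).2
    omega

theorem range'_sorted (n : ℕ) : (List.range' 1 n).Pairwise (· < ·) := by
  exact List.pairwise_lt_range'

theorem sortable_iff {n : ℕ} (π : Perm (Fin n)) : Sortable π ↔ GoodC [] (oneLine π) [] :=
  turns_iff (range'_sorted n) (oneLine_perm π)

theorem contains_refl {n : ℕ} (π : Perm (Fin n)) : Contains π π :=
  ⟨RelEmbedding.refl _, fun _ _ => Iff.rfl⟩

theorem Contains.trans {k m n : ℕ} {σ : Perm (Fin k)} {τ : Perm (Fin m)} {π : Perm (Fin n)}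
    (h1 : Contains σ τ) (h2 : Contains τ π) : Contains σ π := by
  obtain ⟨f, hf⟩ := h1
  obtain ⟨g, hg⟩ := h2
  exact ⟨f.trans g, fun i j => (hf i j).trans (hg _ _)⟩

theorem Contains.le {k n : ℕ} {σ : Perm (Fin k)} {π : Perm (Fin n)} (h : Contains σ π) :
    k ≤ n := by
  obtain ⟨f, _⟩ := h
  simpa using Fintype.card_le_of_injective f f.injective

theorem Contains.eq {n : ℕ} {σ π : Perm (Fin n)} (h : Contains σ π) : σ = π := by
  obtain ⟨f, hf⟩ := h
  have hfid : ∀ i, f i = i := by
    have h1 : Function.Surjective f := Finite.surjective_of_injective f.injective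
    have hr : Set.range f = Set.range (id : Fin n → Fin n) := by
      rw [h1.range_eq, Set.range_id]
    have := (StrictMono.range_inj f.strictMono strictMono_id).1 hr
    intro i
    rw [this]; rfl
  have key : ∀ i j, σ i < σ j ↔ π i < π j := by
    intro i j
    have := hf i j
    rwa [hfid, hfid] at this
  have hle : ∀ a b, (π.symm.trans σ) a ≤ (π.symm.trans σ) b ↔ a ≤ b := by
    intro a b
    have := key (π.symm b) (π.symm a)
    simp only [Equiv.apply_symm_apply] at this
    simp only [Equiv.trans_apply]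
    rw [← not_lt, ← not_lt, this]
  let e : Fin n ≃o Fin n := ⟨π.symm.trans σ, fun {a b} => hle a b⟩
  have he : e = OrderIso.refl (Fin n) := Subsingleton.elim _ _
  ext i
  have h1 : e (π i) = π i := by rw [he]; rfl
  have h2 : e (π i) = σ (π.symm (π i)) := rfl
  rw [Equiv.symm_apply_apply] at h2
  rw [← h2, h1]

theorem contains_iff {k n : ℕ} (σ : Perm (Fin k)) (π : Perm (Fin n)) :
    Contains σ π ↔ ∃ l, l.Sublist (oneLine π) ∧ OIso (oneLine σ) l := by
  constructor
  · rintro ⟨f, hf⟩
    refine ⟨List.ofFn (fun i => (π (f i) : ℕ) + 1), ?_, ?_, ?_⟩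
    · rw [List.sublist_iff_exists_fin_orderEmbedding_get_eq]
      have e1 : (List.ofFn (fun i => (π (f i) : ℕ) + 1)).length = k := by simp
      have e2 : (oneLine π).length = n := oneLine_length π
      refine ⟨(Fin.castOrderIso e1).toOrderEmbedding.trans (f.trans
        (Fin.castOrderIso e2.symm).toOrderEmbedding), ?_⟩
      intro i
      simp only [oneLine, List.get_eq_getElem, List.getElem_ofFn]
      rfl
    · simp [oneLine]
    · intro i j hi hj
      rw [oneLine_length] at hi hj
      rw [oneLine_getD σ hi, oneLine_getD σ hj]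
      have h1 : ∀ (i : ℕ) (hi : i < k), (List.ofFn (fun i => (π (f i) : ℕ) + 1)).getD i 0 =
          (π (f ⟨i, hi⟩) : ℕ) + 1 := by
        intro i hi
        rw [List.getD_eq_getElem _ _ (by simpa using hi)]
        simp
      rw [h1 i hi, h1 j hj]
      have := hf ⟨i, hi⟩ ⟨j, hj⟩
      rw [Fin.lt_def, Fin.lt_def] at this
      omega
  · rintro ⟨l, hl, hlen, ho⟩
    rw [List.sublist_iff_exists_fin_orderEmbedding_get_eq] at hl
    obtain ⟨g, hg⟩ := hl
    rw [oneLine_length] at hlen ho
    have e2 : (oneLine π).length = n := oneLine_length π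
    refine ⟨(Fin.castOrderIso hlen).toOrderEmbedding.trans (g.trans
        (Fin.castOrderIso e2).toOrderEmbedding), ?_⟩
    intro i j
    have h1 := ho i j i.2 j.2
    rw [oneLine_getD σ i.2, oneLine_getD σ j.2] at h1
    have h2 : ∀ i : Fin k, l.getD i 0 = (π (((Fin.castOrderIso hlen).toOrderEmbedding.trans (g.trans
        (Fin.castOrderIso e2).toOrderEmbedding)) i) : ℕ) + 1 := by
      intro i
      rw [List.getD_eq_getElem _ _ (hlen ▸ i.2)]
      have := hg (Fin.cast hlen i)
      simp only [List.get_eq_getElem, Fin.val_cast] at this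
      rw [this]
      simp only [oneLine, List.getElem_ofFn]
      rfl
    rw [h2 i, h2 j] at h1
    rw [Fin.lt_def, Fin.lt_def]
    simp only [Fin.eta] at h1
    omega

/-! ### heredity -/

theorem sub_blocks : ∀ (Bs : List (List ℕ)) (u : List ℕ), u.Sublist Bs.flatten →
    ∃ Bs' : List (List ℕ), Bs'.flatten = u ∧
      ((Bs'.map List.reverse).flatten).Sublist (Bs.map List.reverse).flatten
  | [], u, h => ⟨[], by rw [List.flatten_nil] at h ⊢; exact (List.sublist_nil.1 h).symm, by simp⟩
  | B :: Bs, u, h => by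
    rw [List.flatten_cons] at h
    obtain ⟨u1, u2, rfl, h1, h2⟩ := List.sublist_append_iff.1 h
    obtain ⟨Bs', h3, h4⟩ := sub_blocks Bs u2 h2
    refine ⟨u1 :: Bs', by simp [h3], ?_⟩
    simp only [List.map_cons, List.flatten_cons]
    exact h1.reverse.append h4

theorem good_sub {w u : List ℕ} (h : GoodC [] w []) (hu : u.Sublist w) : GoodC [] u [] := by
  obtain ⟨Bs, rfl, h2⟩ := h
  obtain ⟨Bs', h3, h4⟩ := sub_blocks Bs u hu
  refine ⟨Bs', h3, ?_⟩
  simp only [List.reverse_nil, List.nil_append, List.append_nil] at h2 ⊢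
  exact h2.sub h4

theorem good_map {l : List ℕ} {φ : ℕ → ℕ} (hφ : ∀ v ∈ l, ∀ w ∈ l, φ v < φ w → v < w)
    (h : GoodC [] l []) : GoodC [] (l.map φ) [] := by
  obtain ⟨Bs, rfl, h2⟩ := h
  refine ⟨Bs.map (List.map φ), by simp [List.map_flatten], ?_⟩
  simp only [List.reverse_nil, List.nil_append, List.append_nil] at h2 ⊢
  have e : ((Bs.map (List.map φ)).map List.reverse).flatten = ((Bs.map List.reverse).flatten).map φ := by
    rw [List.map_flatten, List.map_map, List.map_map]
    congr 1
    apply List.map_congr_left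
    intro B _
    simp
  rw [e]
  intro a b c hs hab hbc
  rw [List.sublist_map_iff] at hs
  obtain ⟨l', hl', he⟩ := hs
  match l', he with
  | [b', c', a'], he =>
    simp only [List.map_cons, List.map_nil, List.cons.injEq, and_true] at he
    obtain ⟨rfl, rfl, rfl⟩ := he
    have hm : ∀ v ∈ [b', c', a'], v ∈ Bs.flatten := by
      intro v hv
      have := hl'.subset hv
      simp only [List.mem_flatten, List.mem_map] at this ⊢
      obtain ⟨l, ⟨l0, hl0, rfl⟩, hv⟩ := this
      exact ⟨l0, hl0, by simpa using hv⟩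
    exact h2 a' b' c' hl' (hφ _ (hm _ (by simp)) _ (hm _ (by simp)) hab)
      (hφ _ (hm _ (by simp)) _ (hm _ (by simp)) hbc)

theorem good_oiso {u l : List ℕ} (hl : l.Nodup) (ho : OIso u l) (h : GoodC [] l []) :
    GoodC [] u [] := by
  have key : l.map (fun v => u.getD (l.idxOf v) 0) = u := by
    apply List.ext_getElem
    · rw [List.length_map]; exact ho.1.symm
    · intro i h1 h2
      rw [List.getElem_map, hl.idxOf_getElem, List.getD_eq_getElem _ _ h2]
  rw [← key]
  apply good_map _ h
  intro v hv w hw hlt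
  have h1 := List.idxOf_lt_length_of_mem hv
  have h2 := List.idxOf_lt_length_of_mem hw
  have := (ho.2 (l.idxOf v) (l.idxOf w) (ho.1 ▸ h1) (ho.1 ▸ h2)).1 hlt
  rw [List.getD_eq_getElem _ _ h1, List.getD_eq_getElem _ _ h2, List.getElem_idxOf,
    List.getElem_idxOf] at this
  exact this

/-- a pattern of a sortable permutation is sortable -/
theorem sortable_of_contains {k n : ℕ} {σ : Perm (Fin k)} {π : Perm (Fin n)}
    (h : Contains σ π) (hs : Sortable π) : Sortable σ := by
  rw [sortable_iff] at hs ⊢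
  obtain ⟨l, h1, h2⟩ := (contains_iff σ π).1 h
  exact good_oiso ((oneLine_nodup π).sublist h1) h2 (good_sub hs h1)

end Pool.Agent.Helper70.PQS
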