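import Pool.Agent.Helper70.PQS.Search

/-!
# Bit matrices represent relations
-/

namespace Pool.Agent.Helper70.PQS

theorem bt_iff (m j : ℕ) : bt m j = true ↔ m.testBit j = true := by
  unfold bt
  rw [Nat.testBit_eq_decide_div_mod_eq]
  have h1 : Nat.land (Nat.shiftRight m j) 1 = (m >>> j) &&& 1 := rfl
  rw [h1, Nat.and_one_is_mod, Nat.shiftRight_eq_div_pow, Nat.beq_eq]
  simp

theorem bt_lor (a b j : ℕ) : bt (Nat.lor a b) j = true ↔ (bt a j = true ∨ bt b j = true) := by
  rw [bt_iff, bt_iff, bt_iff]
  have h : Nat.lor a b = a ||| b := rfl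
  rw [h, Nat.testBit_or]
  simp

theorem bt_shift (i j : ℕ) : bt (Nat.shiftLeft 1 i) j = true ↔ j = i := by
  rw [bt_iff]
  have h : Nat.shiftLeft 1 i = 1 <<< i := rfl
  rw [h, Nat.testBit_shiftLeft]
  constructor
  · intro h
    simp only [Bool.and_eq_true, decide_eq_true_eq] at h
    obtain ⟨h1, h2⟩ := h
    rw [Nat.testBit_one_eq_true_iff_self_eq_zero] at h2
    omega
  · rintro rfl
    simp

theorem bt_zero (j : ℕ) : bt 0 j = false := by
  rw [← Bool.not_eq_true, bt_iff]
  simp

theorem bt_one (j : ℕ) : bt 1 j = true ↔ j = 0 := by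
  rw [bt_iff, Nat.testBit_one_eq_true_iff_self_eq_zero]

/-- the matrix `M` only contains true instances of `R` -/
def Rep (M : List ℕ) (R : ℕ → ℕ → Prop) : Prop := ∀ a b, has M a b = true → R a b

theorem has_nil (a b : ℕ) : has [] a b = false := by
  simp [has, bt_zero]

theorem has_cons_zero (r : ℕ) (M : List ℕ) (b : ℕ) : has (r :: M) 0 b = bt r b := by
  simp [has]

theorem has_cons_succ (r : ℕ) (M : List ℕ) (a b : ℕ) : has (r :: M) (a + 1) b = has M a b := by
  simp [has]

theorem has_orRows (i m : ℕ) : ∀ (M : List ℕ) (a0 a b : ℕ),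
    has (orRows i m a0 M) a b = true →
      has M a b = true ∨ ((a0 + a = i ∨ has M a i = true) ∧ bt m b = true)
  | [], a0, a, b, h => by
    rw [orRows, has_nil] at h
    exact absurd h (by simp)
  | r :: rs, a0, 0, b, h => by
    rw [orRows, has_cons_zero] at h
    rw [has_cons_zero, has_cons_zero]
    by_cases hc : (Nat.beq a0 i || bt r i) = true
    · rw [hc, cond_true, bt_lor] at h
      rw [Bool.or_eq_true, Nat.beq_eq] at hc
      rcases h with h | h
      · exact Or.inl h
      · exact Or.inr ⟨by simpa using hc, h⟩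
    · rw [Bool.not_eq_true] at hc
      rw [hc, cond_false] at h
      exact Or.inl h
  | r :: rs, a0, a + 1, b, h => by
    rw [orRows, has_cons_succ] at h
    rw [has_cons_succ, has_cons_succ]
    have := has_orRows i m rs (a0 + 1) a b h
    rcases this with h | ⟨h, h'⟩
    · exact Or.inl h
    · refine Or.inr ⟨?_, h'⟩
      rcases h with h | h
      · left; omega
      · right; exact h

theorem Rep.addLt {M : List ℕ} {R : ℕ → ℕ → Prop} (h : Rep M R)
    (tr : ∀ a b c, R a b → R b c → R a c) {i j : ℕ} (hij : R i j) : Rep (addLt M i j) R := by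
  intro a b hab
  rcases has_orRows i _ M 0 a b hab with h1 | ⟨h1, h2⟩
  · exact h a b h1
  · rw [bt_lor, bt_shift] at h2
    have hai : a = i ∨ R a i := by
      rcases h1 with h1 | h1
      · left; omega
      · right; exact h a i h1
    have hjb : R j b ∨ b = j := by
      rcases h2 with h2 | h2
      · left; exact h j b h2
      · right; exact h2
    have hib : R i b := by
      rcases hjb with h3 | rfl
      · exact tr _ _ _ hij h3
      · exact hij
    rcases hai with rfl | h3
    · exact hib
    · exact tr _ _ _ h3 hib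

theorem has_eqRows (i j m ij : ℕ) : ∀ (M : List ℕ) (a0 a b : ℕ),
    has (eqRows i j m ij a0 M) a b = true →
      has M a b = true ∨
      ((has M a i = true ∨ has M a j = true) ∧ (bt m b = true ∨ bt ij b = true)) ∨
      ((a0 + a = i ∨ a0 + a = j) ∧ bt m b = true)
  | [], a0, a, b, h => by
    rw [eqRows, has_nil] at h
    exact absurd h (by simp)
  | r :: rs, a0, 0, b, h => by
    rw [eqRows, has_cons_zero] at h
    rw [has_cons_zero, has_cons_zero, has_cons_zero]
    by_cases hc : (bt r i || bt r j) = true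
    · rw [hc, cond_true, bt_lor, bt_lor] at h
      rw [Bool.or_eq_true] at hc
      rcases h with h | h
      · exact Or.inl h
      · exact Or.inr (Or.inl ⟨hc, h⟩)
    · rw [Bool.not_eq_true] at hc
      rw [hc, cond_false] at h
      by_cases hd : (Nat.beq a0 i || Nat.beq a0 j) = true
      · rw [hd, cond_true, bt_lor] at h
        rw [Bool.or_eq_true, Nat.beq_eq, Nat.beq_eq] at hd
        rcases h with h | h
        · exact Or.inl h
        · exact Or.inr (Or.inr ⟨by simpa using hd, h⟩)
      · rw [Bool.not_eq_true] at hd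
        rw [hd, cond_false] at h
        exact Or.inl h
  | r :: rs, a0, a + 1, b, h => by
    rw [eqRows, has_cons_succ] at h
    rw [has_cons_succ, has_cons_succ, has_cons_succ]
    have := has_eqRows i j m ij rs (a0 + 1) a b h
    rcases this with h | h | ⟨h, h'⟩
    · exact Or.inl h
    · exact Or.inr (Or.inl h)
    · refine Or.inr (Or.inr ⟨?_, h'⟩)
      omega

theorem Rep.addEq {M : List ℕ} {R : ℕ → ℕ → Prop} (h : Rep M R)
    (tr : ∀ a b c, R a b → R b c → R a c) {i j : ℕ}
    (h1 : ∀ b, R i b ↔ R j b) (h2 : ∀ a, R a i ↔ R a j) : Rep (addEq M i j) R := by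
  intro a b hab
  have key : ∀ b, bt (Nat.lor (M.getD i 0) (M.getD j 0)) b = true → R i b := by
    intro b hb
    rw [bt_lor] at hb
    rcases hb with hb | hb
    · exact h i b hb
    · exact (h1 b).2 (h j b hb)
  rcases has_eqRows i j _ _ M 0 a b hab with h3 | ⟨h3, h4⟩ | ⟨h3, h4⟩
  · exact h a b h3
  · have hai : R a i := by
      rcases h3 with h3 | h3
      · exact h a i h3
      · exact (h2 a).2 (h a j h3)
    rcases h4 with h4 | h4
    · exact tr _ _ _ hai (key b h4)
    · rw [bt_lor, bt_shift, bt_shift] at h4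
      rcases h4 with rfl | rfl
      · exact hai
      · exact (h2 a).1 hai
  · rcases h3 with h3 | h3
    · have : a = i := by omega
      subst this
      exact key b h4
    · have : a = j := by omega
      subst this
      exact (h1 b).1 (key b h4)

theorem diag_sound : ∀ (M : List ℕ) (a0 : ℕ), diag a0 M = true → ∃ a, has M a (a0 + a) = true
  | [], a0, h => by simp [diag] at h
  | r :: rs, a0, h => by
    rw [diag, Bool.or_eq_true] at h
    rcases h with h | h
    · exact ⟨0, by rw [has_cons_zero]; exact h⟩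
    · obtain ⟨a, ha⟩ := diag_sound rs (a0 + 1) h
      refine ⟨a + 1, ?_⟩
      rw [has_cons_succ]
      have : a0 + (a + 1) = a0 + 1 + a := by omega
      rw [this]; exact ha

theorem Rep.diag {M : List ℕ} {R : ℕ → ℕ → Prop} (h : Rep M R) (irr : ∀ a, ¬ R a a)
    (hd : diag 0 M = true) : False := by
  obtain ⟨a, ha⟩ := diag_sound M 0 hd
  rw [Nat.zero_add] at ha
  exact irr a (h a a ha)

theorem rowsLt_iff (b : ℕ) : ∀ M : List ℕ, rowsLt b M = true ↔ ∀ r ∈ M, r < b
  | [] => by simp [rowsLt]
  | r :: rs => by
    rw [rowsLt, Bool.and_eq_true, rowsLt_iff b rs]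
    simp [Nat.blt_eq]

theorem has_bound {M : List ℕ} {n : ℕ} (hl : M.length = n) (hr : rowsLt (Nat.pow 2 n) M = true)
    {a b : ℕ} (h : has M a b = true) : a < n ∧ b < n := by
  rw [rowsLt_iff] at hr
  have ha : a < n := by
    by_contra hc
    have : M.getD a 0 = 0 := by
      rw [List.getD_eq_default]; omega
    rw [has, this, bt_zero] at h
    exact absurd h (by simp)
  refine ⟨ha, ?_⟩
  by_contra hc
  have hm : M.getD a 0 < 2 ^ n := by
    apply hr
    rw [List.getD_eq_getElem _ _ (by omega)]
    exact List.getElem_mem _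
  rw [has, bt_iff] at h
  have := Nat.testBit_lt_two_pow (x := M.getD a 0) (i := b)
    (lt_of_lt_of_le hm (Nat.pow_le_pow_right (by norm_num) (by omega)))
  rw [this] at h
  exact absurd h (by simp)

end Pool.Agent.Helper70.PQS
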