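import Mathlib

/-!
# Checker for case trees (PQS machine)

States carry, for a finite list of named entries, their zone, known order facts
(`V`, value order, and `P`, position order) as transitively closed bit matrices.
-/

namespace Pool.Agent.Helper70.PQS

/-- bit `j` of `m` -/
def bt (m j : ℕ) : Bool := Nat.beq (Nat.land (Nat.shiftRight m j) 1) 1

/-- entry `(i,j)` of a bit matrix -/
def has (M : List ℕ) (i j : ℕ) : Bool := bt (M.getD i 0) j

/-- `or` the mask `m` into row `i` and into all rows having bit `i` -/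
def orRows (i m : ℕ) : ℕ → List ℕ → List ℕ
  | _, [] => []
  | a, r :: rs =>
    (bif (Nat.beq a i || bt r i) then Nat.lor r m else r) :: orRows i m (a + 1) rs

/-- add the relation `i < j` -/
def addLt (M : List ℕ) (i j : ℕ) : List ℕ :=
  orRows i (Nat.lor (M.getD j 0) (Nat.shiftLeft 1 j)) 0 M

/-- merge rows -/
def eqRows (i j m ij : ℕ) : ℕ → List ℕ → List ℕ
  | _, [] => []
  | a, r :: rs =>
    (bif (bt r i || bt r j) then Nat.lor r (Nat.lor m ij) else
      bif (Nat.beq a i || Nat.beq a j) then Nat.lor r m else r) :: eqRows i j m ij (a + 1) rs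

/-- add the relation `i = j` -/
def addEq (M : List ℕ) (i j : ℕ) : List ℕ :=
  eqRows i j (Nat.lor (M.getD i 0) (M.getD j 0))
    (Nat.lor (Nat.shiftLeft 1 i) (Nat.shiftLeft 1 j)) 0 M

/-- some row `a` has bit `a` -/
def diag : ℕ → List ℕ → Bool
  | _, [] => false
  | a, r :: rs => bt r a || diag (a + 1) rs

/-- search state -/
structure St where
  /-- zones -/
  Z : List ℕ
  /-- value order -/
  V : List ℕ
  /-- position order -/
  P : List ℕ
  /-- the current thresholds, newest first -/
  t : List ℕ
  /-- the entry of value `T` -/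
  M : ℕ
  /-- no inversion straddles the newest threshold -/
  fin : Bool

/-- zone test -/
def zq (s : St) (i k : ℕ) : Bool := Nat.beq (s.Z.getD i 9) k

/-- position comparison -/
def hasP (s : St) (i j : ℕ) : Bool :=
  (Nat.blt (s.Z.getD i 9) (s.Z.getD j 9) && Nat.blt (s.Z.getD j 9) 5) || has s.P i j

/-- add a value fact -/
def St.lt (s : St) (i j : ℕ) : St := ⟨s.Z, addLt s.V i j, s.P, s.t, s.M, s.fin⟩
/-- add a position fact -/
def St.bf (s : St) (i j : ℕ) : St := ⟨s.Z, s.V, addLt s.P i j, s.t, s.M, s.fin⟩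
/-- new entries -/
def St.ext (s : St) (zs : List ℕ) : St :=
  ⟨s.Z ++ zs, s.V ++ zs.map (fun _ => 1), s.P ++ zs.map (fun _ => 0), s.t, s.M, s.fin⟩
/-- rename `j` to `i` -/
def ren (i j x : ℕ) : ℕ := bif Nat.beq x j then i else x
/-- identify entries -/
def St.eq (s : St) (i j : ℕ) : St :=
  ⟨s.Z, addEq s.V i j, addEq s.P i j, s.t.map (ren i j), ren i j s.M, s.fin⟩

/-- inconsistent state -/
def St.bad (s : St) : Bool := diag 0 s.V || diag 0 s.P

/-- bounded rows -/
def rowsLt (b : ℕ) : List ℕ → Bool
  | [] => true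
  | r :: rs => Nat.blt r b && rowsLt b rs

/-- well-formedness: all facts mention existing entries -/
def St.wf (s : St) : Bool :=
  Nat.beq s.V.length s.Z.length && Nat.beq s.P.length s.Z.length &&
  rowsLt (Nat.pow 2 s.Z.length) s.V && rowsLt (Nat.pow 2 s.Z.length) s.P &&
  rowsLt s.Z.length s.t && Nat.blt s.M s.Z.length && zq s 0 2

/-- all entries of zone `0` with index at least `i` are below `t` -/
def addXs (t : ℕ) : List ℕ → ℕ → St → St
  | [], _, s => s
  | z :: zs, i, s => addXs t zs (i + 1) (bif Nat.beq z 0 then s.lt i t else s)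

/-- case trees -/
inductive Tr where
  | n : Tr
  | b : ℕ → ℕ → Tr
  | h : ℕ → ℕ → Tr
  | i : ℕ → ℕ → ℕ → Tr
  | f : ℕ → ℕ → Tr
  | v : ℕ → ℕ → Tr → Tr → Tr → Tr
  | p : ℕ → ℕ → Tr → Tr → Tr → Tr
  | c : Tr → Tr → Tr → Tr → Tr → Tr → Tr → Tr → Tr → Tr

/-- a pattern: parts (or zones) of its entries, and the positions in increasing value order -/
structure Pat where
  /-- parts or zones -/
  ps : List ℕ
  /-- positions in order of increasing value -/
  vo : List ℕ
deriving DecidableEq

/-- base 32 digits -/
def dec : ℕ → ℕ → List ℕ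
  | 0, _ => []
  | k + 1, c => Nat.mod c 32 :: dec k (Nat.div c 32)

/-- zone of an entry matches part -/
def partOk : ℕ → ℕ → Bool
  | 0, z => Nat.beq z 0
  | 1, z => Nat.ble 1 z && Nat.ble z 3
  | _, z => Nat.beq z 4

/-- zones of a list of entries match -/
def zAll (f : ℕ → ℕ → Bool) (Z : List ℕ) : List ℕ → List ℕ → Bool
  | [], [] => true
  | p :: ps, a :: as => f p (Z.getD a 9) && zAll f Z ps as
  | _, _ => false

/-- consecutive entries are related -/
def chain (f : ℕ → ℕ → Bool) : List ℕ → Bool
  | [] => true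
  | a :: r => match r with
    | [] => true
    | b :: _ => f a b && chain f r

/-- entries in value order -/
def pick (vo as : List ℕ) : List ℕ := vo.map (fun k => as.getD k 0)

/-- the entries `as` form an occurrence of the base pattern `q` -/
def chkB (s : St) (q : Pat) (as : List ℕ) : Bool :=
  zAll partOk s.Z q.ps as && (chain (hasP s) as && chain (has s.V) (pick q.vo as))

/-- the entries `as` form an occurrence of the zone pattern `q` -/
def chkH (s : St) (q : Pat) (as : List ℕ) : Bool :=
  zAll Nat.beq s.Z q.ps as && (chain (hasP s) as && chain (has s.V) (pick q.vo as))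

/-- all entries are below `M` (or equal to `M` if allowed) -/
def belowM (s : St) (ear : Bool) : List ℕ → Bool
  | [] => true
  | a :: as => (has s.V a s.M || (ear && Nat.beq a s.M)) && belowM s ear as

/-- inversion `(h,l)` in zone `A` or `C` with `y ≤ h` and `l < x` -/
def invOk (s : St) (y x h l : ℕ) : Bool :=
  ((zq s h 1 && zq s l 1) || (zq s h 3 && zq s l 3)) && (hasP s h l &&
    ((Nat.beq h y || has s.V y h) && has s.V l x))

/-- new inversion `(h,l)` in zone `z` -/
def optN (s : St) (z t : ℕ) (r : List ℕ) : St :=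
  let n := s.Z.length
  let s1 := (((s.ext [z, z]).bf n (n + 1)).lt (n + 1) t).lt t n
  let s2 := match r with
    | [] => s1
    | y :: _ => s1.lt n y
  ⟨s2.Z, s2.V, s2.P, (n + 1) :: t :: r, s2.M, false⟩

/-- new inversion `(t,l)` in zone `z` -/
def optT (s : St) (z t : ℕ) (r : List ℕ) : St :=
  let n := s.Z.length
  let s1 := ((s.ext [z]).bf t n).lt n t
  ⟨s1.Z, s1.V, s1.P, n :: t :: r, s1.M, false⟩

/-- no inversion straddles `t` -/
def St.fn (s : St) : St := ⟨s.Z, s.V, s.P, s.t, s.M, true⟩

/-- low certificate of the first kind -/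
def opt1 (s : St) (t : ℕ) : St :=
  let n := s.Z.length
  (((((s.fn.ext [1, 1, 3]).bf n (n + 1)).lt (n + 1) n).lt (n + 2) (n + 1)).lt t (n + 2))

/-- low certificate of the first kind, containing `t` -/
def opt1t (s : St) (t : ℕ) : St :=
  let n := s.Z.length
  ((((s.fn.ext [1, 1]).bf n (n + 1)).lt (n + 1) n).lt t (n + 1))

/-- low certificate of the second kind -/
def opt2 (s : St) (t : ℕ) : St :=
  let n := s.Z.length
  ((((((s.fn.ext [1, 1, 1]).bf n (n + 1)).bf (n + 1) (n + 2)).lt n (n + 2)).lt (n + 2) (n + 1)).lt t n)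

/-- low certificate of the second kind, containing `t` -/
def opt2t (s : St) (t : ℕ) : St :=
  let n := s.Z.length
  (((((s.fn.ext [1, 1]).bf t n).bf n (n + 1)).lt t (n + 1)).lt (n + 1) n)

/-- The checker. `BL`: base patterns, `HL`: high types, `k`: number of high types already done. -/
def go (BL HL : List Pat) (k : ℕ) : Tr → St → Bool
  | .n, s => s.bad
  | .b i c, s =>
    match BL.drop i with
    | [] => false
    | q :: _ => chkB s q (dec q.ps.length c)
  | .h i c, s =>
    match HL.drop i with
    | [] => false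
    | q :: _ => chkH s q (dec q.ps.length c) && belowM s (Nat.blt i k) (dec q.ps.length c)
  | .i m h l, s =>
    match s.t.drop m with
    | x :: y :: _ => invOk s y x h l
    | _ => false
  | .f h l, s =>
    match s.t with
    | x :: _ => s.fin && invOk s x x h l
    | _ => false
  | .v i j a b c, s =>
    go BL HL k a (s.lt i j) &&
    ((!(Nat.beq (s.Z.getD i 9) (s.Z.getD j 9)) && (Nat.blt (s.Z.getD i 9) 5 && Nat.blt (s.Z.getD j 9) 5)) ||
      go BL HL k b (s.eq i j)) &&
    go BL HL k c (s.lt j i)
  | .p i j a b c, s =>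
    Nat.blt (s.Z.getD i 9) 5 && Nat.blt (s.Z.getD j 9) 5 &&
    go BL HL k a (s.bf i j) &&
    (!(Nat.beq (s.Z.getD i 9) (s.Z.getD j 9)) || go BL HL k b (s.eq i j)) &&
    go BL HL k c (s.bf j i)
  | .c l0 a a' c c' l1 l1t l2 l2t, s =>
    match s.t with
    | [] => false
    | t :: r =>
      s.wf && (!(zq s t 0) && Nat.blt (s.Z.getD t 9) 5) &&
      go BL HL k l0 ((s.ext [0]).lt t s.Z.length) &&
      (fun s' : St =>
        s'.bad ||
        (go BL HL k a (optN s' 1 t r) &&
        (!(zq s t 1) || go BL HL k a' (optT s' 1 t r)) &&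
        go BL HL k c (optN s' 3 t r) &&
        (!(zq s t 3) || go BL HL k c' (optT s' 3 t r)) &&
        go BL HL k l1 (opt1 s' t) &&
        (!(zq s t 3) || go BL HL k l1t (opt1t s' t)) &&
        go BL HL k l2 (opt2 s' t) &&
        (!(zq s t 1) || go BL HL k l2t (opt2t s' t))))
      (addXs t s.Z 0 s)

/-- add consecutive value facts -/
def addVs : List ℕ → St → St
  | [], s => s
  | a :: r, s => match r with
    | [] => s
    | b :: _ => addVs r (s.lt a b)

/-- add consecutive position facts inside zones -/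
def addPs : List ℕ → St → St
  | [], s => s
  | a :: r, s => match r with
    | [] => s
    | b :: _ => addPs r (bif Nat.beq (s.Z.getD a 9) (s.Z.getD b 9) then s.bf a b else s)

/-- initial state of a zone pattern -/
def initSt (q : Pat) : St :=
  addVs (q.vo.map (· + 1)) (addPs (List.range' 1 q.ps.length)
    ⟨2 :: q.ps, 0 :: q.ps.map (fun _ => 1), 0 :: q.ps.map (fun _ => 0),
      [(q.vo.getLastD 0) + 1], (q.vo.getLastD 0) + 1, false⟩)

/-- check a list of trees for consecutive high types -/
def goAll (BL HL : List Pat) : ℕ → List Pat → List Tr → Bool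
  | _, [], [] => true
  | k, q :: qs, t :: ts => go BL HL k t (initSt q) && goAll BL HL (k + 1) qs ts
  | _, _, _ => false

end Pool.Agent.Helper70.PQS
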