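import Pool.Agent.Helper70.PQS.Config

/-!
# Soundness of the checker
-/

namespace Pool.Agent.Helper70.PQS

/-- no inversion of `A` or `C` from above `y` to below `x` -/
def Cfg.NoInv (c : Cfg) (y x : ℕ) : Prop :=
  ∀ z, (z = 1 ∨ z = 3) → ∀ h l, c.IZ z h → c.IZ z l → c.pos h < c.pos l → y ≤ h → x ≤ l

/-- chain of thresholds -/
def Cfg.ChainOk (c : Cfg) (T : ℕ) : List ℕ → Prop
  | [] => True
  | x :: r => x ≤ T ∧ (∀ y ∈ r.head?, x < y ∧ c.NoInv y x) ∧ c.ChainOk T r

/-- the state `s` holds for the valuation `e` -/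
structure Sat (c : Cfg) (T : ℕ) (e : ℕ → ℕ) (s : St) : Prop where
  z : ∀ i, c.IZ (s.Z.getD i 9) (e i)
  v : Rep s.V (fun i j => e i < e j)
  p : Rep s.P (fun i j => c.pos (e i) < c.pos (e j))
  t : c.ChainOk T (s.t.map e)
  m : e s.M = T
  f : s.fin = true → ∀ x ∈ (s.t.map e).head?, c.NoInv x x

/-- the trivially true alternatives at a threshold -/
def Cfg.Cover (c : Cfg) (t : ℕ) : Prop :=
  (∃ x ∈ c.X, t ≤ x) ∨
  (∃ z, (z = 1 ∨ z = 3) ∧ ∃ h l, c.IZ z h ∧ c.IZ z l ∧ c.pos h < c.pos l ∧ t ≤ h ∧ l < t) ∨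
  (∃ s ∈ c.A, ∃ u ∈ c.A, ∃ q ∈ c.C, c.pos s < c.pos u ∧ u < s ∧ q < u ∧ t ≤ q) ∨
  (∃ p ∈ c.A, ∃ q ∈ c.A, ∃ r ∈ c.A, c.pos p < c.pos q ∧ c.pos q < c.pos r ∧ p < r ∧ r < q ∧ t ≤ p)

theorem zq_iff (s : St) (i k : ℕ) : zq s i k = true ↔ s.Z.getD i 9 = k := by
  rw [zq, Nat.beq_eq]

theorem Sat.iz {c : Cfg} {T : ℕ} {e : ℕ → ℕ} {s : St} (h : Sat c T e s) {i k : ℕ}
    (hk : s.Z.getD i 9 = k) : c.IZ k (e i) := by
  have := h.z i
  rw [hk] at this
  exact this

theorem Sat.lt {c : Cfg} {T : ℕ} {e : ℕ → ℕ} {s : St} (h : Sat c T e s) {i j : ℕ}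
    (hij : e i < e j) : Sat c T e (s.lt i j) where
  z := h.z
  v := Rep.addLt h.v (fun _ _ _ h1 h2 => lt_trans h1 h2) hij
  p := h.p
  t := h.t
  m := h.m
  f := h.f

theorem Sat.bf {c : Cfg} {T : ℕ} {e : ℕ → ℕ} {s : St} (h : Sat c T e s) {i j : ℕ}
    (hij : c.pos (e i) < c.pos (e j)) : Sat c T e (s.bf i j) where
  z := h.z
  v := h.v
  p := Rep.addLt h.p (fun _ _ _ h1 h2 => lt_trans h1 h2) hij
  t := h.t
  m := h.m
  f := h.f

theorem ren_e {e : ℕ → ℕ} {i j : ℕ} (hij : e i = e j) (x : ℕ) : e (ren i j x) = e x := by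
  unfold ren
  by_cases h : Nat.beq x j = true
  · rw [h, cond_true, hij, Nat.beq_eq.mp h]
  · rw [Bool.not_eq_true] at h
    rw [h, cond_false]

theorem Sat.eq {c : Cfg} {T : ℕ} {e : ℕ → ℕ} {s : St} (h : Sat c T e s) {i j : ℕ}
    (hij : e i = e j) : Sat c T e (s.eq i j) := by
  have hm : (s.t.map (ren i j)).map e = s.t.map e := by
    rw [List.map_map]
    apply List.map_congr_left
    intro x _
    exact ren_e hij x
  refine ⟨h.z, ?_, ?_, ?_, ?_, ?_⟩
  · exact Rep.addEq h.v (fun _ _ _ h1 h2 => lt_trans h1 h2) (fun b => by rw [hij])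
      (fun a => by rw [hij])
  · exact Rep.addEq h.p (fun _ _ _ h1 h2 => lt_trans h1 h2) (fun b => by rw [hij])
      (fun a => by rw [hij])
  · show c.ChainOk T ((s.t.map (ren i j)).map e)
    rw [hm]; exact h.t
  · show e (ren i j s.M) = T
    rw [ren_e hij]; exact h.m
  · show s.fin = true → ∀ x ∈ ((s.t.map (ren i j)).map e).head?, c.NoInv x x
    rw [hm]; exact h.f

theorem Sat.bad {c : Cfg} {T : ℕ} {e : ℕ → ℕ} {s : St} (h : Sat c T e s)
    (hb : s.bad = true) : False := by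
  rw [St.bad, Bool.or_eq_true] at hb
  rcases hb with hb | hb
  · exact Rep.diag h.v (fun a => lt_irrefl _) hb
  · exact Rep.diag h.p (fun a => lt_irrefl _) hb

/-- extend a valuation -/
def upd (e : ℕ → ℕ) (n : ℕ) (vs : List ℕ) (i : ℕ) : ℕ := if i < n then e i else vs.getD (i - n) 0

theorem upd_old {e : ℕ → ℕ} {n : ℕ} {vs : List ℕ} {i : ℕ} (h : i < n) : upd e n vs i = e i := by
  simp [upd, h]

theorem upd_0 (e : ℕ → ℕ) (n v : ℕ) (vs : List ℕ) : upd e n (v :: vs) n = v := by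
  simp [upd]

theorem upd_1 (e : ℕ → ℕ) (n v w : ℕ) (vs : List ℕ) : upd e n (v :: w :: vs) (n + 1) = w := by
  simp [upd]

theorem upd_2 (e : ℕ → ℕ) (n v w x : ℕ) (vs : List ℕ) :
    upd e n (v :: w :: x :: vs) (n + 2) = x := by
  simp [upd]

structure Wf (s : St) : Prop where
  v : ∀ a b, has s.V a b = true → a < s.Z.length ∧ b < s.Z.length
  p : ∀ a b, has s.P a b = true → a < s.Z.length ∧ b < s.Z.length
  vl : s.V.length = s.Z.length
  pl : s.P.length = s.Z.length
  t : ∀ x ∈ s.t, x < s.Z.length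
  m : s.M < s.Z.length
  z0 : s.Z.getD 0 9 = 2

theorem wf_sound {s : St} (h : s.wf = true) : Wf s := by
  simp only [St.wf, Bool.and_eq_true, Nat.beq_eq, Nat.blt_eq, zq_iff] at h
  obtain ⟨⟨⟨⟨⟨⟨h1, h2⟩, h3⟩, h4⟩, h5⟩, h6⟩, h7⟩ := h
  exact ⟨fun a b => has_bound h1 h3, fun a b => has_bound h2 h4, h1, h2,
    (rowsLt_iff _ _).1 h5, h6, h7⟩

theorem has_append (M M' : List ℕ) (a b : ℕ) : has (M ++ M') a b =
    if a < M.length then has M a b else has M' (a - M.length) b := by
  unfold has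
  split
  · next h => rw [List.getD_append _ _ _ _ h]
  · next h => rw [List.getD_append_right _ _ _ _ (by omega)]

theorem has_map_const {k : ℕ} : ∀ (zs : List ℕ) (a b : ℕ),
    has (zs.map (fun _ => k)) a b = true → a < zs.length ∧ bt k b = true
  | [], a, b, h => by
    rw [List.map_nil, has_nil] at h
    exact absurd h (by simp)
  | z :: zs, 0, b, h => by
    rw [List.map_cons, has_cons_zero] at h
    exact ⟨by simp, h⟩
  | z :: zs, a + 1, b, h => by
    rw [List.map_cons, has_cons_succ] at h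
    have := has_map_const zs a b h
    exact ⟨by simpa using this.1, this.2⟩

theorem Sat.ext {c : Cfg} (ok : c.Ok) {T : ℕ} {e : ℕ → ℕ} {s : St} (h : Sat c T e s)
    (hw : Wf s) (zs vs : List ℕ) (hv : List.Forall₂ (fun z v => z < 5 ∧ z ≠ 2 ∧ c.IZ z v) zs vs) :
    Sat c T (upd e s.Z.length vs) (s.ext zs) := by
  have h0 : 0 < s.Z.length := by
    have := hw.m
    omega
  have he0 : e 0 = c.N := h.iz hw.z0
  have hlen : zs.length = vs.length := hv.length_eq
  have hnew : ∀ k, k < zs.length → (zs.getD k 9 < 5 ∧ zs.getD k 9 ≠ 2 ∧ c.IZ (zs.getD k 9) (vs.getD k 0)) := by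
    intro k hk
    rw [List.getD_eq_getElem _ _ hk, List.getD_eq_getElem _ _ (hlen ▸ hk)]
    exact (List.forall₂_iff_get.1 hv).2 k hk (hlen ▸ hk)
  have hmap : s.t.map (upd e s.Z.length vs) = s.t.map e := by
    apply List.map_congr_left
    intro x hx
    exact upd_old (hw.t x hx)
  refine ⟨?_, ?_, ?_, ?_, ?_, ?_⟩
  · intro i
    show c.IZ ((s.Z ++ zs).getD i 9) _
    by_cases hi : i < s.Z.length
    · rw [List.getD_append _ _ _ _ hi, upd_old hi]
      exact h.z i
    · rw [List.getD_append_right _ _ _ _ (by omega), upd, if_neg hi]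
      by_cases hk : i - s.Z.length < zs.length
      · exact (hnew _ hk).2.2
      · rw [List.getD_eq_default _ _ (by omega)]
        trivial
  · intro a b hab
    replace hab : has (s.V ++ zs.map (fun _ => 1)) a b = true := hab
    rw [has_append] at hab
    split at hab
    · next ha =>
      have := hw.v a b hab
      show upd e s.Z.length vs a < upd e s.Z.length vs b
      rw [upd_old this.1, upd_old this.2]
      exact h.v a b hab
    · next ha =>
      have := has_map_const zs _ _ hab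
      rw [bt_one] at this
      rw [hw.vl] at ha this
      show upd e s.Z.length vs a < upd e s.Z.length vs b
      rw [this.2, upd_old h0, he0, upd, if_neg ha]
      have hk := hnew _ this.1
      exact Cfg.IZ.lt_N ok hk.1 hk.2.1 hk.2.2
  · intro a b hab
    replace hab : has (s.P ++ zs.map (fun _ => 0)) a b = true := hab
    rw [has_append] at hab
    split at hab
    · next ha =>
      have := hw.p a b hab
      show c.pos (upd e s.Z.length vs a) < c.pos (upd e s.Z.length vs b)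
      rw [upd_old this.1, upd_old this.2]
      exact h.p a b hab
    · next ha =>
      have := has_map_const zs _ _ hab
      rw [bt_zero] at this
      exact absurd this.2 (by simp)
  · show c.ChainOk T (s.t.map (upd e s.Z.length vs))
    rw [hmap]; exact h.t
  · show upd e s.Z.length vs s.M = T
    rw [upd_old hw.m]; exact h.m
  · show s.fin = true → ∀ x ∈ (s.t.map (upd e s.Z.length vs)).head?, c.NoInv x x
    rw [hmap]; exact h.f

theorem hasP_sound {c : Cfg} (ok : c.Ok) {T : ℕ} {e : ℕ → ℕ} {s : St} (h : Sat c T e s) {i j : ℕ}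
    (hp : hasP s i j = true) : c.pos (e i) < c.pos (e j) := by
  rw [hasP, Bool.or_eq_true, Bool.and_eq_true, Nat.blt_eq, Nat.blt_eq] at hp
  rcases hp with hp | hp
  · exact Cfg.IZ.pos_lt ok hp.1 hp.2 (h.z i) (h.z j)
  · exact h.p i j hp

theorem mem_of_pat {IZ : ℕ → ℕ → Prop} {L : List ℕ} (hI : ∀ p v, IZ p v → v ∈ L) :
    ∀ {ps l : List ℕ}, List.Forall₂ IZ ps l → ∀ v ∈ l, v ∈ L
  | _, _, List.Forall₂.nil, v, hv => absurd hv (by simp)
  | _, _, List.Forall₂.cons h hr, v, hv => by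
    rcases List.mem_cons.1 hv with rfl | hv
    · exact hI _ _ h
    · exact mem_of_pat hI hr v hv

theorem partOk_sound {c : Cfg} {T : ℕ} {e : ℕ → ℕ} {s : St} (h : Sat c T e s) (p a : ℕ)
    (hp : partOk p (s.Z.getD a 9) = true) :
    part c.X (c.A ++ c.N :: c.C) c.Y p (e a) ∧ s.Z.getD a 9 < 5 := by
  match p, hp with
  | 0, hp =>
    rw [partOk, Nat.beq_eq] at hp
    have := h.iz hp
    exact ⟨this, by omega⟩
  | 1, hp =>
    rw [partOk, Bool.and_eq_true, Nat.ble_eq, Nat.ble_eq] at hp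
    refine ⟨?_, by omega⟩
    have hz := h.z a
    have h5 : s.Z.getD a 9 = 1 ∨ s.Z.getD a 9 = 2 ∨ s.Z.getD a 9 = 3 := by omega
    show e a ∈ c.A ++ c.N :: c.C
    rcases h5 with h5 | h5 | h5 <;> rw [h5] at hz
    · exact List.mem_append_left _ hz
    · have : e a = c.N := hz
      rw [this]; simp
    · have : e a ∈ c.C := hz
      simp [this]
  | p + 2, hp =>
    rw [partOk, Nat.beq_eq] at hp
    have := h.iz hp
    exact ⟨this, by omega⟩
    all_goals omega

theorem zAll_forall {f : ℕ → ℕ → Bool} {Z : List ℕ} {Q : ℕ → Prop}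
    (hf : ∀ p a, f p (Z.getD a 9) = true → Q a) :
    ∀ ps as : List ℕ, zAll f Z ps as = true → ∀ a ∈ as, Q a
  | [], [], _ => by simp
  | [], a :: as, h => by simp [zAll] at h
  | p :: ps, [], h => by simp [zAll] at h
  | p :: ps, a :: as, h => by
    rw [zAll, Bool.and_eq_true] at h
    intro b hb
    rcases List.mem_cons.1 hb with rfl | hb
    · exact hf p b h.1
    · exact zAll_forall hf ps as h.2 b hb

theorem occ_sub {c : Cfg} (ok : c.Ok) {T : ℕ} {e : ℕ → ℕ} {s : St} (h : Sat c T e s)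
    {as : List ℕ} (hz : ∀ a ∈ as, s.Z.getD a 9 < 5) (hc : chain (hasP s) as = true) :
    (as.map e).Sublist c.G := by
  apply sublist_of_idx
  · intro v hv
    obtain ⟨a, ha, rfl⟩ := List.mem_map.1 hv
    exact Cfg.IZ.mem (hz a ha) (h.z a)
  · exact chain_sound (R := fun a b => c.G.idxOf a < c.G.idxOf b)
      (fun a b hab => hasP_sound ok h hab) (fun _ _ _ h1 h2 => lt_trans h1 h2) as hc

theorem occ_ord {c : Cfg} {T : ℕ} {e : ℕ → ℕ} {s : St} (h : Sat c T e s)
    {vo as : List ℕ} (hk : ∀ k ∈ vo, k < as.length) (hc : chain (has s.V) (pick vo as) = true) :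
    (pick vo (as.map e)).Pairwise (· < ·) := by
  rw [pick_map e vo as hk]
  exact chain_sound (fun a b hab => h.v a b hab) (fun _ _ _ h1 h2 => lt_trans h1 h2) _ hc

theorem chkB_sound {c : Cfg} (ok : c.Ok) {T : ℕ} {e : ℕ → ℕ} {s : St} (h : Sat c T e s)
    {q : Pat} (hq : q.Ok) {as : List ℕ} (hc : chkB s q as = true) :
    BOcc c.X (c.A ++ c.N :: c.C) c.Y q := by
  rw [chkB, Bool.and_eq_true, Bool.and_eq_true] at hc
  obtain ⟨h1, h2, h3⟩ := hc
  have hl := zAll_length _ _ h1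
  refine ⟨as.map e, ?_, ?_, ?_⟩
  · exact zAll_sound (fun p a hp => (partOk_sound h p a hp).1) _ _ h1
  · exact occ_sub ok h (zAll_forall (fun p a hp => (partOk_sound h p a hp).2) _ _ h1) h2
  · exact occ_ord h (fun k hk => hl ▸ hq k hk) h3

theorem chkH_sound {c : Cfg} (ok : c.Ok) {T : ℕ} {e : ℕ → ℕ} {s : St} (h : Sat c T e s)
    {q : Pat} (hq : q.Ok) (hq5 : ∀ p ∈ q.ps, p < 5) {as : List ℕ} (hc : chkH s q as = true) :
    Occ c.IZ c.G q (as.map e) := by
  rw [chkH, Bool.and_eq_true, Bool.and_eq_true] at hc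
  obtain ⟨h1, h2, h3⟩ := hc
  have hl := zAll_length _ _ h1
  have hF : List.Forall₂ c.IZ q.ps (as.map e) := by
    apply zAll_sound (fun p a hp => ?_) _ _ h1
    rw [Nat.beq_eq] at hp
    rw [hp]; exact h.z a
  refine ⟨hF, ?_, occ_ord h (fun k hk => hl ▸ hq k hk) h3⟩
  refine occ_sub ok h ?_ h2
  -- zones of the entries are the parts
  have : ∀ (ps as : List ℕ), (∀ p ∈ ps, p < 5) → zAll Nat.beq s.Z ps as = true →
      ∀ a ∈ as, s.Z.getD a 9 < 5 := by
    intro ps
    induction ps with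
    | nil =>
      intro as _ h
      cases as with
      | nil => simp
      | cons a as => simp [zAll] at h
    | cons p ps ih =>
      intro as h5 h
      cases as with
      | nil => simp
      | cons a as =>
        rw [zAll, Bool.and_eq_true, Nat.beq_eq] at h
        intro b hb
        rcases List.mem_cons.1 hb with rfl | hb
        · rw [← h.1]; exact h5 p (by simp)
        · exact ih as (fun p hp => h5 p (by simp [hp])) h.2 b hb
  exact this _ _ hq5 h1

theorem belowM_sound {c : Cfg} {T : ℕ} {e : ℕ → ℕ} {s : St} (h : Sat c T e s) (ear : Bool) :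
    ∀ as : List ℕ, belowM s ear as = true →
      ∀ v ∈ as.map e, v < T ∨ (ear = true ∧ v = T)
  | [], _ => by simp
  | a :: as, hb => by
    rw [belowM, Bool.and_eq_true, Bool.or_eq_true, Bool.and_eq_true, Nat.beq_eq] at hb
    intro v hv
    rw [List.map_cons, List.mem_cons] at hv
    rcases hv with rfl | hv
    · rcases hb.1 with h1 | ⟨h1, h2⟩
      · left; rw [← h.m]; exact h.v a s.M h1
      · right; exact ⟨h1, by rw [h2]; exact h.m⟩
    · exact belowM_sound h ear as hb.2 v hv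

theorem invOk_sound {c : Cfg} (ok : c.Ok) {T : ℕ} {e : ℕ → ℕ} {s : St} (h : Sat c T e s)
    {y x hh l : ℕ} (hi : invOk s y x hh l = true) (hn : c.NoInv (e y) (e x)) : False := by
  rw [invOk] at hi
  simp only [Bool.and_eq_true, Bool.or_eq_true, zq_iff, Nat.beq_eq] at hi
  obtain ⟨h1, h2, h3, h4⟩ := hi
  have hz : ∃ z, (z = 1 ∨ z = 3) ∧ c.IZ z (e hh) ∧ c.IZ z (e l) := by
    rcases h1 with ⟨h1, h1'⟩ | ⟨h1, h1'⟩
    · exact ⟨1, Or.inl rfl, h.iz h1, h.iz h1'⟩
    · exact ⟨3, Or.inr rfl, h.iz h1, h.iz h1'⟩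
  obtain ⟨z, hz, hz1, hz2⟩ := hz
  have hle : e y ≤ e hh := by
    rcases h3 with h3 | h3
    · rw [h3]
    · exact le_of_lt (h.v _ _ h3)
  have := hn z hz _ _ hz1 hz2 (hasP_sound ok h h2) hle
  have h5 := h.v _ _ h4
  exact absurd this (not_le.2 h5)

theorem ChainOk.drop {c : Cfg} {T : ℕ} : ∀ (m : ℕ) (l : List ℕ), c.ChainOk T l →
    c.ChainOk T (l.drop m)
  | 0, l, h => by simpa using h
  | m + 1, [], h => by simpa using h
  | m + 1, a :: l, h => by
    rw [List.drop_succ_cons]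
    exact ChainOk.drop m l h.2.2

theorem addXs_sat {c : Cfg} {T : ℕ} {e : ℕ → ℕ} {t : ℕ} (hX : ∀ x ∈ c.X, x < e t) :
    ∀ (zs : List ℕ) (i : ℕ) (s : St), Sat c T e s → (∀ k, zs.getD k 9 = 0 → e (i + k) ∈ c.X) →
      Sat c T e (addXs t zs i s)
  | [], i, s, h, _ => h
  | z :: zs, i, s, h, hz => by
    rw [addXs]
    have hz' : ∀ k, zs.getD k 9 = 0 → e (i + 1 + k) ∈ c.X := by
      intro k hk
      have := hz (k + 1) (by simpa using hk)
      have h1 : i + (k + 1) = i + 1 + k := by omega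
      rw [h1] at this
      exact this
    by_cases h0 : Nat.beq z 0 = true
    · rw [h0, cond_true]
      apply addXs_sat hX zs (i + 1) _ _ hz'
      apply h.lt
      apply hX
      have := hz 0 (by simpa using Nat.beq_eq.mp h0)
      simpa using this
    · rw [Bool.not_eq_true] at h0
      rw [h0, cond_false]
      exact addXs_sat hX zs (i + 1) _ h hz'

theorem addLt_length {i m : ℕ} : ∀ (M : List ℕ) (a : ℕ), (orRows i m a M).length = M.length
  | [], _ => rfl
  | r :: rs, a => by simp [orRows, addLt_length rs (a + 1)]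

end Pool.Agent.Helper70.PQS
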