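import Pool.Agent.Helper70.PQS.Sound

/-!
# Soundness of the checker: the cover rule and the main induction
-/

namespace Pool.Agent.Helper70.PQS

theorem Wf.lt {s : St} (hw : Wf s) {i j : ℕ} (hi : i < s.Z.length) (hj : j < s.Z.length) :
    Wf (s.lt i j) := by
  refine ⟨?_, hw.p, ?_, hw.pl, hw.t, hw.m, hw.z0⟩
  · have : Rep (s.lt i j).V (fun a b => a < s.Z.length ∧ b < s.Z.length) :=
      Rep.addLt (fun a b => hw.v a b) (fun _ _ _ h1 h2 => ⟨h1.1, h2.2⟩) ⟨hi, hj⟩
    exact this
  · show (addLt s.V i j).length = s.Z.length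
    rw [addLt, addLt_length]
    exact hw.vl

theorem addXs_wf {n t : ℕ} (ht : t < n) : ∀ (zs : List ℕ) (i : ℕ) (s : St), Wf s →
    s.Z.length = n → i + zs.length ≤ n → Wf (addXs t zs i s) ∧ (addXs t zs i s).Z = s.Z ∧
      (addXs t zs i s).t = s.t
  | [], i, s, h, _, _ => ⟨h, rfl, rfl⟩
  | z :: zs, i, s, h, hn, hi => by
    rw [addXs]
    rw [List.length_cons] at hi
    by_cases h0 : Nat.beq z 0 = true
    · rw [h0, cond_true]
      have hw' : Wf (s.lt i t) := h.lt (by omega) (by omega)
      have := addXs_wf ht zs (i + 1) _ hw' hn (by omega)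
      exact this
    · rw [Bool.not_eq_true] at h0
      rw [h0, cond_false]
      exact addXs_wf ht zs (i + 1) _ h hn (by omega)

theorem map_upd {e : ℕ → ℕ} {s : St} (hw : Wf s) (vs : List ℕ) :
    s.t.map (upd e s.Z.length vs) = s.t.map e := by
  apply List.map_congr_left
  intro x hx
  exact upd_old (hw.t x hx)

theorem optN_sat {c : Cfg} (ok : c.Ok) {T : ℕ} {e : ℕ → ℕ} {s : St} (h : Sat c T e s)
    (hw : Wf s) {z t : ℕ} {r : List ℕ} (ht : s.t = t :: r) (hz : z = 1 ∨ z = 3) {hh l : ℕ}
    (h1 : c.IZ z hh) (h2 : c.IZ z l) (h3 : c.pos hh < c.pos l) (h4 : e t < hh) (h5 : l < e t)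
    (hmin : c.NoInv (e t) l) :
    Sat c T (upd e s.Z.length [hh, l]) (optN s z t r) := by
  have hz5 : z < 5 ∧ z ≠ 2 := by omega
  have htn : t < s.Z.length := hw.t t (by rw [ht]; simp)
  have hch := h.t
  rw [ht, List.map_cons] at hch
  have hs0 : Sat c T (upd e s.Z.length [hh, l]) (s.ext [z, z]) :=
    h.ext ok hw [z, z] [hh, l] (by
      refine List.Forall₂.cons ⟨hz5.1, hz5.2, h1⟩ (List.Forall₂.cons ⟨hz5.1, hz5.2, h2⟩ List.Forall₂.nil))
  have e0 := upd_0 e s.Z.length hh [l]
  have e1 := upd_1 e s.Z.length hh l []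
  have et : upd e s.Z.length [hh, l] t = e t := upd_old htn
  have hs1 : Sat c T (upd e s.Z.length [hh, l])
      ((((s.ext [z, z]).bf s.Z.length (s.Z.length + 1)).lt (s.Z.length + 1) t).lt t s.Z.length) := by
    refine Sat.lt (Sat.lt (Sat.bf hs0 ?_) ?_) ?_
    · rw [e0, e1]; exact h3
    · rw [e1, et]; exact h5
    · rw [e0, et]; exact h4
  have hlT : l ≤ T := le_of_lt (lt_of_lt_of_le h5 hch.1)
  have key : ∀ s2 : St, Sat c T (upd e s.Z.length [hh, l]) s2 →
      Sat c T (upd e s.Z.length [hh, l])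
        ⟨s2.Z, s2.V, s2.P, (s.Z.length + 1) :: t :: r, s2.M, false⟩ := by
    intro s2 h2
    refine ⟨h2.z, h2.v, h2.p, ?_, h2.m, fun hf => absurd hf (by simp)⟩
    show c.ChainOk T (((s.Z.length + 1) :: t :: r).map (upd e s.Z.length [hh, l]))
    have hm : (t :: r).map (upd e s.Z.length [hh, l]) = e t :: r.map e := by
      rw [← ht, map_upd hw, ht]; rfl
    rw [List.map_cons, hm, e1]
    refine ⟨hlT, ?_, hch⟩
    intro y hy
    rw [List.head?_cons, Option.mem_some_iff] at hy
    subst hy
    exact ⟨h5, hmin⟩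
  unfold optN
  cases r with
  | nil => exact key _ hs1
  | cons y r' =>
    refine key _ (Sat.lt hs1 ?_)
    have hyn : y < s.Z.length := hw.t y (by rw [ht]; simp)
    rw [e0, upd_old hyn]
    by_contra hc
    have h6 := hch.2.1 (e y) (by simp)
    have := h6.2 z hz hh l h1 h2 h3 (by omega)
    omega

theorem optT_sat {c : Cfg} (ok : c.Ok) {T : ℕ} {e : ℕ → ℕ} {s : St} (h : Sat c T e s)
    (hw : Wf s) {z t : ℕ} {r : List ℕ} (ht : s.t = t :: r) (hz : z = 1 ∨ z = 3) {l : ℕ}
    (h2 : c.IZ z l) (h3 : c.pos (e t) < c.pos l) (h5 : l < e t)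
    (hmin : c.NoInv (e t) l) :
    Sat c T (upd e s.Z.length [l]) (optT s z t r) := by
  have hz5 : z < 5 ∧ z ≠ 2 := by omega
  have htn : t < s.Z.length := hw.t t (by rw [ht]; simp)
  have hch := h.t
  rw [ht, List.map_cons] at hch
  have hs0 : Sat c T (upd e s.Z.length [l]) (s.ext [z]) :=
    h.ext ok hw [z] [l] (by
      refine List.Forall₂.cons ⟨hz5.1, hz5.2, h2⟩ List.Forall₂.nil)
  have e0 := upd_0 e s.Z.length l []
  have et : upd e s.Z.length [l] t = e t := upd_old htn
  have hs1 : Sat c T (upd e s.Z.length [l])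
      (((s.ext [z]).bf t s.Z.length).lt s.Z.length t) := by
    refine Sat.lt (Sat.bf hs0 ?_) ?_
    · rw [e0, et]; exact h3
    · rw [e0, et]; exact h5
  have hlT : l ≤ T := le_of_lt (lt_of_lt_of_le h5 hch.1)
  unfold optT
  refine ⟨hs1.z, hs1.v, hs1.p, ?_, hs1.m, fun hf => absurd hf (by simp)⟩
  show c.ChainOk T ((s.Z.length :: t :: r).map (upd e s.Z.length [l]))
  have hm : (t :: r).map (upd e s.Z.length [l]) = e t :: r.map e := by
    rw [← ht, map_upd hw, ht]; rfl
  rw [List.map_cons, hm, e0]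
  refine ⟨hlT, ?_, hch⟩
  intro y hy
  rw [List.head?_cons, Option.mem_some_iff] at hy
  subst hy
  exact ⟨h5, hmin⟩

theorem fn_sat {c : Cfg} {T : ℕ} {e : ℕ → ℕ} {s : St} (h : Sat c T e s) {t : ℕ} {r : List ℕ}
    (ht : s.t = t :: r) (hn : c.NoInv (e t) (e t)) : Sat c T e s.fn := by
  refine ⟨h.z, h.v, h.p, h.t, h.m, ?_⟩
  intro _ x hx
  replace hx : x ∈ (s.t.map e).head? := hx
  rw [ht, List.map_cons, List.head?_cons, Option.mem_some_iff] at hx
  subst hx
  exact hn

theorem fn_wf {s : St} (h : Wf s) : Wf s.fn := ⟨h.v, h.p, h.vl, h.pl, h.t, h.m, h.z0⟩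

theorem opt1_sat {c : Cfg} (ok : c.Ok) {T : ℕ} {e : ℕ → ℕ} {s : St} (h : Sat c T e s)
    (hw : Wf s) {t : ℕ} {r : List ℕ} (ht : s.t = t :: r) (hn : c.NoInv (e t) (e t))
    {a b q : ℕ} (ha : a ∈ c.A) (hb : b ∈ c.A) (hq : q ∈ c.C)
    (h1 : c.pos a < c.pos b) (h2 : b < a) (h3 : q < b) (h4 : e t < q) :
    Sat c T (upd e s.Z.length [a, b, q]) (opt1 s t) := by
  have htn : t < s.Z.length := hw.t t (by rw [ht]; simp)
  have hs0 : Sat c T (upd e s.fn.Z.length [a, b, q]) (s.fn.ext [1, 1, 3]) :=
    (fn_sat h ht hn).ext ok (fn_wf hw) [1, 1, 3] [a, b, q] (by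
      refine List.Forall₂.cons ⟨by norm_num, by norm_num, ha⟩ (List.Forall₂.cons
        ⟨by norm_num, by norm_num, hb⟩ (List.Forall₂.cons ⟨by norm_num, by norm_num, hq⟩ List.Forall₂.nil)))
  have e0 := upd_0 e s.Z.length a [b, q]
  have e1 := upd_1 e s.Z.length a b [q]
  have e2 := upd_2 e s.Z.length a b q []
  have et : upd e s.Z.length [a, b, q] t = e t := upd_old htn
  unfold opt1
  refine Sat.lt (Sat.lt (Sat.lt (Sat.bf hs0 ?_) ?_) ?_) ?_
  · show c.pos (upd e s.Z.length _ _) < c.pos (upd e s.Z.length _ _)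
    rw [e0, e1]; exact h1
  · show (upd e s.Z.length _ _) < (upd e s.Z.length _ _)
    rw [e0, e1]; exact h2
  · show (upd e s.Z.length _ _) < (upd e s.Z.length _ _)
    rw [e1, e2]; exact h3
  · show (upd e s.Z.length _ _) < (upd e s.Z.length _ _)
    rw [et, e2]; exact h4

theorem opt1t_sat {c : Cfg} (ok : c.Ok) {T : ℕ} {e : ℕ → ℕ} {s : St} (h : Sat c T e s)
    (hw : Wf s) {t : ℕ} {r : List ℕ} (ht : s.t = t :: r) (hn : c.NoInv (e t) (e t))
    {a b : ℕ} (ha : a ∈ c.A) (hb : b ∈ c.A)
    (h1 : c.pos a < c.pos b) (h2 : b < a) (h3 : e t < b) :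
    Sat c T (upd e s.Z.length [a, b]) (opt1t s t) := by
  have htn : t < s.Z.length := hw.t t (by rw [ht]; simp)
  have hs0 : Sat c T (upd e s.fn.Z.length [a, b]) (s.fn.ext [1, 1]) :=
    (fn_sat h ht hn).ext ok (fn_wf hw) [1, 1] [a, b] (by
      refine List.Forall₂.cons ⟨by norm_num, by norm_num, ha⟩ (List.Forall₂.cons
        ⟨by norm_num, by norm_num, hb⟩ List.Forall₂.nil))
  have e0 := upd_0 e s.Z.length a [b]
  have e1 := upd_1 e s.Z.length a b []
  have et : upd e s.Z.length [a, b] t = e t := upd_old htn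
  unfold opt1t
  refine Sat.lt (Sat.lt (Sat.bf hs0 ?_) ?_) ?_
  · show c.pos (upd e s.Z.length _ _) < c.pos (upd e s.Z.length _ _)
    rw [e0, e1]; exact h1
  · show (upd e s.Z.length _ _) < (upd e s.Z.length _ _)
    rw [e0, e1]; exact h2
  · show (upd e s.Z.length _ _) < (upd e s.Z.length _ _)
    rw [et, e1]; exact h3

theorem opt2_sat {c : Cfg} (ok : c.Ok) {T : ℕ} {e : ℕ → ℕ} {s : St} (h : Sat c T e s)
    (hw : Wf s) {t : ℕ} {r : List ℕ} (ht : s.t = t :: r) (hn : c.NoInv (e t) (e t))
    {a b q : ℕ} (ha : a ∈ c.A) (hb : b ∈ c.A) (hq : q ∈ c.A)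
    (h1 : c.pos a < c.pos b) (h2 : c.pos b < c.pos q) (h3 : a < q) (h4 : q < b) (h5 : e t < a) :
    Sat c T (upd e s.Z.length [a, b, q]) (opt2 s t) := by
  have htn : t < s.Z.length := hw.t t (by rw [ht]; simp)
  have hs0 : Sat c T (upd e s.fn.Z.length [a, b, q]) (s.fn.ext [1, 1, 1]) :=
    (fn_sat h ht hn).ext ok (fn_wf hw) [1, 1, 1] [a, b, q] (by
      refine List.Forall₂.cons ⟨by norm_num, by norm_num, ha⟩ (List.Forall₂.cons
        ⟨by norm_num, by norm_num, hb⟩ (List.Forall₂.cons ⟨by norm_num, by norm_num, hq⟩ List.Forall₂.nil)))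
  have e0 := upd_0 e s.Z.length a [b, q]
  have e1 := upd_1 e s.Z.length a b [q]
  have e2 := upd_2 e s.Z.length a b q []
  have et : upd e s.Z.length [a, b, q] t = e t := upd_old htn
  unfold opt2
  refine Sat.lt (Sat.lt (Sat.lt (Sat.bf (Sat.bf hs0 ?_) ?_) ?_) ?_) ?_
  · show c.pos (upd e s.Z.length _ _) < c.pos (upd e s.Z.length _ _)
    rw [e0, e1]; exact h1
  · show c.pos (upd e s.Z.length _ _) < c.pos (upd e s.Z.length _ _)
    rw [e1, e2]; exact h2
  · show (upd e s.Z.length _ _) < (upd e s.Z.length _ _)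
    rw [e0, e2]; exact h3
  · show (upd e s.Z.length _ _) < (upd e s.Z.length _ _)
    rw [e1, e2]; exact h4
  · show (upd e s.Z.length _ _) < (upd e s.Z.length _ _)
    rw [et, e0]; exact h5

theorem opt2t_sat {c : Cfg} (ok : c.Ok) {T : ℕ} {e : ℕ → ℕ} {s : St} (h : Sat c T e s)
    (hw : Wf s) {t : ℕ} {r : List ℕ} (ht : s.t = t :: r) (hn : c.NoInv (e t) (e t))
    {b q : ℕ} (hb : b ∈ c.A) (hq : q ∈ c.A)
    (h1 : c.pos (e t) < c.pos b) (h2 : c.pos b < c.pos q) (h3 : e t < q) (h4 : q < b) :
    Sat c T (upd e s.Z.length [b, q]) (opt2t s t) := by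
  have htn : t < s.Z.length := hw.t t (by rw [ht]; simp)
  have hs0 : Sat c T (upd e s.fn.Z.length [b, q]) (s.fn.ext [1, 1]) :=
    (fn_sat h ht hn).ext ok (fn_wf hw) [1, 1] [b, q] (by
      refine List.Forall₂.cons ⟨by norm_num, by norm_num, hb⟩ (List.Forall₂.cons
        ⟨by norm_num, by norm_num, hq⟩ List.Forall₂.nil))
  have e0 := upd_0 e s.Z.length b [q]
  have e1 := upd_1 e s.Z.length b q []
  have et : upd e s.Z.length [b, q] t = e t := upd_old htn
  unfold opt2t
  refine Sat.lt (Sat.lt (Sat.bf (Sat.bf hs0 ?_) ?_) ?_) ?_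
  · show c.pos (upd e s.Z.length _ _) < c.pos (upd e s.Z.length _ _)
    rw [e0, et]; exact h1
  · show c.pos (upd e s.Z.length _ _) < c.pos (upd e s.Z.length _ _)
    rw [e0, e1]; exact h2
  · show (upd e s.Z.length _ _) < (upd e s.Z.length _ _)
    rw [et, e1]; exact h3
  · show (upd e s.Z.length _ _) < (upd e s.Z.length _ _)
    rw [e0, e1]; exact h4

theorem go_sound {c : Cfg} (ok : c.Ok) {T : ℕ} {BL HL : List Pat} {k : ℕ}
    (hBo : ∀ q ∈ BL, q.Ok) (hHo : ∀ q ∈ HL, q.Ok ∧ ∀ p ∈ q.ps, p < 5)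
    (hb : ∀ q ∈ BL, ¬ BOcc c.X (c.A ++ c.N :: c.C) c.Y q)
    (hh : ∀ q ∈ HL, ¬ c.HOcc T q)
    (he : ∀ i, i < k → ∀ q ∈ HL[i]?, ¬ c.HOcc (T + 1) q)
    (hc : ∀ t ≤ T, c.Cover t) :
    ∀ (tr : Tr) (s : St) (e : ℕ → ℕ), Sat c T e s → go BL HL k tr s = true → False := by
  intro tr
  induction tr with
  | n => intro s e hs hg; exact hs.bad hg
  | b i d =>
    intro s e hs hg
    rw [go] at hg
    split at hg
    · exact absurd hg (by simp)
    · next q r hd =>
      have hq : q ∈ BL := List.mem_of_mem_drop (i := i) (by rw [hd]; simp)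
      exact hb q hq (chkB_sound ok hs (hBo q hq) hg)
  | h i d =>
    intro s e hs hg
    rw [go] at hg
    split at hg
    · exact absurd hg (by simp)
    · next q r hd =>
      have hq : q ∈ HL := List.mem_of_mem_drop (i := i) (by rw [hd]; simp)
      rw [Bool.and_eq_true] at hg
      have ho := chkH_sound ok hs (hHo q hq).1 (hHo q hq).2 hg.1
      have hbm := belowM_sound hs _ _ hg.2
      by_cases hik : i < k
      · refine he i hik q ?_ ⟨_, ho, ?_⟩
        · rw [Option.mem_def, ← List.head?_drop, hd]; rfl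
        · intro v hv
          rcases hbm v hv with h1 | h1 <;> omega
      · refine hh q hq ⟨_, ho, ?_⟩
        intro v hv
        rcases hbm v hv with h1 | h1
        · exact h1
        · rw [Nat.blt_eq] at h1
          exact absurd h1.1 hik
  | i m hh' l =>
    intro s e hs hg
    rw [go] at hg
    split at hg
    · next x y r hd =>
      have h1 := ChainOk.drop m _ hs.t
      rw [← List.map_drop, hd, List.map_cons, List.map_cons] at h1
      exact invOk_sound ok hs hg (h1.2.1 (e y) (by simp)).2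
    · exact absurd hg (by simp)
  | f hh' l =>
    intro s e hs hg
    rw [go] at hg
    split at hg
    · next x r hd =>
      rw [Bool.and_eq_true] at hg
      exact invOk_sound ok hs hg.2 (hs.f hg.1 (e x) (by rw [hd]; simp))
    · exact absurd hg (by simp)
  | v i j a b d iha ihb ihd =>
    intro s e hs hg
    rw [go] at hg
    simp only [Bool.and_eq_true, Bool.or_eq_true, Bool.not_eq_true', Nat.blt_eq] at hg
    obtain ⟨⟨h1, h2⟩, h3⟩ := hg
    rcases lt_trichotomy (e i) (e j) with h | h | h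
    · exact iha _ e (hs.lt h) h1
    · rcases h2 with ⟨h2, h4, h5⟩ | h2
      · have hne : s.Z.getD i 9 ≠ s.Z.getD j 9 := by
          intro h6
          rw [h6] at h2
          have := Nat.beq_refl (s.Z.getD j 9)
          rw [this] at h2
          exact absurd h2 (by simp)
        refine Cfg.IZ.disj ok h4 h5 hne (hs.z i) ?_
        rw [h]; exact hs.z j
      · exact ihb _ e (hs.eq h) h2
    · exact ihd _ e (hs.lt h) h3
  | p i j a b d iha ihb ihd =>
    intro s e hs hg
    rw [go] at hg
    simp only [Bool.and_eq_true, Bool.or_eq_true, Bool.not_eq_true', Nat.blt_eq] at hg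
    obtain ⟨⟨⟨⟨h4, h5⟩, h1⟩, h2⟩, h3⟩ := hg
    rcases lt_trichotomy (c.pos (e i)) (c.pos (e j)) with h | h | h
    · exact iha _ e (hs.bf h) h1
    · have hij : e i = e j := Cfg.pos_inj (Cfg.IZ.mem h4 (hs.z i)) h
      rcases h2 with h2 | h2
      · have hne : s.Z.getD i 9 ≠ s.Z.getD j 9 := by
          intro h6
          rw [h6] at h2
          have := Nat.beq_refl (s.Z.getD j 9)
          rw [this] at h2
          exact absurd h2 (by simp)
        refine Cfg.IZ.disj ok h4 h5 hne (hs.z i) ?_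
        rw [hij]; exact hs.z j
      · exact ihb _ e (hs.eq hij) h2
    · exact ihd _ e (hs.bf h) h3
  | c l0 a a' d d' l1 l1t l2 l2t i0 ia ia' id id' i1 i1t i2 i2t =>
    intro s e hs hg
    rw [go] at hg
    split at hg
    · exact absurd hg (by simp)
    · next t r ht =>
      simp only [Bool.and_eq_true, Bool.or_eq_true, Bool.not_eq_true', Nat.blt_eq] at hg
      obtain ⟨⟨⟨hw, ht0, ht5⟩, hg0⟩, hg⟩ := hg
      have hw := wf_sound hw
      have htn : t < s.Z.length := hw.t t (by rw [ht]; simp)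
      have hch := hs.t
      rw [ht, List.map_cons] at hch
      have ht0' : s.Z.getD t 9 ≠ 0 := by
        intro h
        rw [← zq_iff] at h
        rw [h] at ht0
        exact absurd ht0 (by simp)
      have htz := hs.z t
      -- case x in X above t
      by_cases hX : ∃ x ∈ c.X, e t ≤ x
      · obtain ⟨x, hx, hxt⟩ := hX
        have hlt : e t < x := by
          refine lt_of_le_of_ne hxt ?_
          intro heq
          exact Cfg.IZ.disj ok ht5 (by norm_num : 0 < 5) ht0' htz (by rw [heq]; exact hx)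
        have hs0 : Sat c T (upd e s.Z.length [x]) (s.ext [0]) :=
          hs.ext ok hw [0] [x] (List.Forall₂.cons ⟨by norm_num, by norm_num, hx⟩ List.Forall₂.nil)
        refine i0 _ _ (hs0.lt ?_) hg0
        rw [upd_0, upd_old htn]
        exact hlt
      · have hX' : ∀ x ∈ c.X, x < e t := by
          intro x hx
          by_contra hc'
          exact hX ⟨x, hx, not_lt.1 hc'⟩
        have hs' : Sat c T e (addXs t s.Z 0 s) := by
          refine addXs_sat hX' s.Z 0 s hs ?_
          intro k' hk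
          rw [Nat.zero_add]
          exact hs.iz hk
        obtain ⟨hw', hZ, ht'⟩ := addXs_wf htn s.Z 0 s hw rfl (by omega)
        generalize addXs t s.Z 0 s = s' at hs' hw' hZ ht' hg
        rw [ht] at ht'
        rcases hg with hg | hg
        · exact hs'.bad hg
        · obtain ⟨⟨⟨⟨⟨⟨⟨ga, ga'⟩, gc⟩, gc'⟩, g1⟩, g1t⟩, g2⟩, g2t⟩ := hg
          -- a straddling inversion?
          by_cases hinv : ∃ l, ∃ z, (z = 1 ∨ z = 3) ∧ ∃ h, c.IZ z h ∧ c.IZ z l ∧
              c.pos h < c.pos l ∧ e t ≤ h ∧ l < e t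
          · classical
            have hmin := fun m (hm : m < Nat.find hinv) => Nat.find_min hinv hm
            obtain ⟨z, hz, h, h1, h2, h3, h4, h5⟩ := Nat.find_spec hinv
            generalize Nat.find hinv = l at hmin h2 h3 h5
            have hNI : c.NoInv (e t) l := by
              intro z' hz' h' l' h1' h2' h3' h4'
              by_contra hlt
              exact hmin _ (not_le.1 hlt) ⟨z', hz', h', h1', h2', h3', h4', by omega⟩
            rcases eq_or_lt_of_le h4 with h4 | h4
            · -- h = e t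
              have hzz : s.Z.getD t 9 = z := by
                by_contra hne
                exact Cfg.IZ.disj ok ht5 (by omega : z < 5) hne htz (by rw [h4]; exact h1)
              have h3' : c.pos (e t) < c.pos l := by rw [h4]; exact h3
              rcases hz with rfl | rfl
              · rcases ga' with ga' | ga'
                · have := (zq_iff s t 1).2 hzz
                  rw [this] at ga'
                  exact absurd ga' (by simp)
                · exact ia' _ _ (optT_sat ok hs' hw' ht' (Or.inl rfl) h2 h3' h5 hNI) ga'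
              · rcases gc' with gc' | gc'
                · have := (zq_iff s t 3).2 hzz
                  rw [this] at gc'
                  exact absurd gc' (by simp)
                · exact id' _ _ (optT_sat ok hs' hw' ht' (Or.inr rfl) h2 h3' h5 hNI) gc'
            · rcases hz with rfl | rfl
              · exact ia _ _ (optN_sat ok hs' hw' ht' (Or.inl rfl) h1 h2 h3 h4 h5 hNI) ga
              · exact id _ _ (optN_sat ok hs' hw' ht' (Or.inr rfl) h1 h2 h3 h4 h5 hNI) gc
          · have hNI : c.NoInv (e t) (e t) := by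
              intro z' hz' h' l' h1' h2' h3' h4'
              by_contra hlt
              exact hinv ⟨l', z', hz', h', h1', h2', h3', h4', not_le.1 hlt⟩
            rcases hc (e t) hch.1 with h | h | h | h
            · exact hX h
            · obtain ⟨z, hz, h, l, h1, h2, h3, h4, h5⟩ := h
              exact hinv ⟨l, z, hz, h, h1, h2, h3, h4, h5⟩
            · obtain ⟨x, hx, u, hu, q, hq, h1, h2, h3, h4⟩ := h
              rcases eq_or_lt_of_le h4 with h4 | h4
              · have hzz : s.Z.getD t 9 = 3 := by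
                  by_contra hne
                  exact Cfg.IZ.disj ok ht5 (by norm_num : 3 < 5) hne htz (by rw [h4]; exact hq)
                rcases g1t with g1t | g1t
                · have := (zq_iff s t 3).2 hzz
                  rw [this] at g1t
                  exact absurd g1t (by simp)
                · exact i1t _ _ (opt1t_sat ok hs' hw' ht' hNI hx hu h1 h2 (by rw [h4]; exact h3)) g1t
              · exact i1 _ _ (opt1_sat ok hs' hw' ht' hNI hx hu hq h1 h2 h3 h4) g1
            · obtain ⟨x, hx, u, hu, q, hq, h1, h2, h3, h4, h5⟩ := h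
              rcases eq_or_lt_of_le h5 with h5 | h5
              · have hzz : s.Z.getD t 9 = 1 := by
                  by_contra hne
                  exact Cfg.IZ.disj ok ht5 (by norm_num : 1 < 5) hne htz (by rw [h5]; exact hx)
                rcases g2t with g2t | g2t
                · have := (zq_iff s t 1).2 hzz
                  rw [this] at g2t
                  exact absurd g2t (by simp)
                · exact i2t _ _ (opt2t_sat ok hs' hw' ht' hNI hu hq (by rw [h5]; exact h1) h2
                    (by rw [h5]; exact h3) h4) g2t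
              · exact i2 _ _ (opt2_sat ok hs' hw' ht' hNI hx hu hq h1 h2 h3 h4 h5) g2

end Pool.Agent.Helper70.PQS
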