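import Pool.Agent.Helper70.PQS.Cert
import Pool.Agent.Helper70.PQS.High

/-!
# Static facts about the lists of patterns
-/

namespace Pool.Agent.Helper70.PQS

/-- zone of a part for high types -/
def toH (q : Pat) : Pat := ⟨q.ps.map (fun p => bif Nat.beq p 2 then 3 else p), q.vo⟩

/-- zone of a part for low types -/
def toL (q : Pat) : Pat :=
  ⟨q.ps.map (fun p => bif Nat.beq p 0 then 1 else bif Nat.beq p 1 then 3 else 4), q.vo⟩

/-- the type of an entry of the last block below the threshold -/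
def h0 : Pat := ⟨[4], [0]⟩

def b332 : Pat := ⟨[0, 0, 1], [2, 1, 0]⟩
def bxxy : Pat := ⟨[0, 0, 2], [2, 1, 0]⟩
def bxyy : Pat := ⟨[0, 2, 2], [1, 0, 2]⟩
def bwyy : Pat := ⟨[1, 2, 2], [1, 0, 2]⟩
def byyy : Pat := ⟨[2, 2, 2], [0, 2, 1]⟩
def bxxx : Pat := ⟨[0, 0, 0], [0, 2, 1]⟩

theorem BL_small : b332 ∈ BL ∧ bxxy ∈ BL ∧ bxyy ∈ BL ∧ bwyy ∈ BL ∧ byyy ∈ BL ∧ bxxx ∈ BL := by
  decide +kernel

theorem h0_mem : h0 ∈ HL := by decide +kernel

theorem BL_ok' : ∀ q ∈ BL, ∀ k ∈ q.vo, k < q.ps.length := by decide +kernel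

theorem BL_ok : ∀ q ∈ BL, q.Ok := BL_ok'

theorem BL_parts : ∀ q ∈ BL, ∀ p ∈ q.ps, p < 3 := by decide +kernel

theorem HL_good1 : ∀ q ∈ HL, ∀ k ∈ q.vo, k < q.ps.length := by decide +kernel
theorem HL_good2 : ∀ q ∈ HL, ∀ p ∈ q.ps, p < 5 ∧ p ≠ 2 := by decide +kernel
theorem HL_good3 : ∀ q ∈ HL, ∀ k < q.ps.length, k ∈ q.vo := by decide +kernel
theorem HL_good4 : ∀ q ∈ HL, q.ps ≠ [] := by decide +kernel

theorem HL_good : ∀ q ∈ HL, q.Good := fun q hq =>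
  ⟨HL_good1 q hq, HL_good2 q hq, HL_good3 q hq, HL_good4 q hq⟩

theorem LT_good1 : ∀ x ∈ LT, ∀ k ∈ x.1.vo, k < x.1.ps.length := by decide +kernel
theorem LT_good2 : ∀ x ∈ LT, ∀ p ∈ x.1.ps, p < 5 ∧ p ≠ 2 := by decide +kernel
theorem LT_good3 : ∀ x ∈ LT, ∀ k < x.1.ps.length, k ∈ x.1.vo := by decide +kernel
theorem LT_good4 : ∀ x ∈ LT, x.1.ps ≠ [] := by decide +kernel

theorem LT_good : ∀ x ∈ LT, x.1.Good := fun q hq =>
  ⟨LT_good1 q hq, LT_good2 q hq, LT_good3 q hq, LT_good4 q hq⟩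

theorem toH_mem : ∀ q ∈ BL, 2 ∈ q.ps → toH q ∈ HL := by decide +kernel

theorem toL_mem : ∀ q ∈ BL, 0 ∈ q.ps →
    q = b332 ∨ q = bxxx ∨ toL q ∈ LT.map Prod.fst := by decide +kernel

/-- below the next threshold there is no high type -/
theorem high_step {c : Cfg} (ok : c.Ok) {T : ℕ}
    (hb : ∀ q ∈ BL, ¬ BOcc c.X (c.A ++ c.N :: c.C) c.Y q)
    (hh : ∀ q ∈ HL, ¬ c.HOcc T q) (hc : ∀ t ≤ T, c.Cover t) :
    ∀ q ∈ HL, ¬ c.HOcc (T + 1) q :=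
  goAll_sound ok BL_ok HL_good hb hh hc HL [] TL rfl (by simp) goAll_ok

/-- low types other than the two survivors do not occur -/
theorem low_none {c : Cfg} (ok : c.Ok)
    (hb : ∀ q ∈ BL, ¬ BOcc c.X (c.A ++ c.N :: c.C) c.Y q) {q : Pat}
    (hq : q ∈ LT.map Prod.fst) {l : List ℕ} (ho : Occ c.IZ c.G q l) : False := by
  obtain ⟨x, hx, rfl⟩ := List.mem_map.1 hq
  have h := goLow_ok
  rw [List.all_eq_true] at h
  exact low_sound ok BL_ok (LT_good x hx) hb ho rfl (h x hx)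

end Pool.Agent.Helper70.PQS
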